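import Mathlib

set_option autoImplicit false

namespace Pool.Agent.Helper800.Merge

open Filter Topology Set
open scoped NNReal

/-- squashed value -/
noncomputable def aa (x : ℝ≥0) : ℝ≥0 := x / (1 + x)

lemma aa_cont : Continuous aa := by
  unfold aa
  exact continuous_id.div₀ (continuous_const.add continuous_id) fun x => by positivity

/-- contribution of a coordinate -/
noncomputable def kap (δ ε x : ℝ≥0) : ℝ≥0 := δ * (aa x - ε)

lemma kap_cont (δ ε : ℝ≥0) : Continuous (kap δ ε) := by
  unfold kap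
  exact continuous_const.mul (aa_cont.sub continuous_const)

/-- inverse length of the fibre -/
noncomputable def lam (δ ε c : ℝ≥0) : ℝ≥0 := (1 - (ε + c / δ)) / (ε + c / δ)

lemma lam_cont {δ ε : ℝ≥0} (hε : 0 < ε) : Continuous (lam δ ε) := by
  unfold lam
  have h : Continuous fun c : ℝ≥0 => ε + c / δ := continuous_const.add (continuous_id.div_const δ)
  refine (continuous_const.sub h).div₀ h fun c => ?_
  have : 0 < ε + c / δ := by positivity
  exact this.ne'

lemma kap_le_iff {δ ε : ℝ≥0} (hδ : 0 < δ) (hε : 0 < ε) (x c : ℝ≥0) :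
    kap δ ε x ≤ c ↔ lam δ ε c * x ≤ 1 := by
  have hq : 0 < ε + c / δ := by positivity
  have h1 : kap δ ε x ≤ c ↔ aa x ≤ ε + c / δ := by
    unfold kap
    rw [mul_comm, ← le_div_iff₀ hδ, tsub_le_iff_right, add_comm]
  rw [h1]
  unfold aa lam
  rw [div_le_iff₀ (by positivity), div_mul_eq_mul_div, div_le_iff₀ hq, one_mul]
  rcases le_total 1 (ε + c / δ) with h | h
  · rw [tsub_eq_zero_of_le h, zero_mul]
    refine ⟨fun _ => zero_le, fun _ => ?_⟩
    calc x ≤ 1 + x := le_add_self
      _ = 1 * (1 + x) := (one_mul _).symm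
      _ ≤ (ε + c / δ) * (1 + x) := mul_le_mul_left h _
  · rw [tsub_mul, one_mul, tsub_le_iff_right, mul_add, mul_one]

/-- correction term -/
noncomputable def hh (l w : ℝ≥0) : ℝ≥0 := (l * w - 1) / l

lemma hh_cont : Continuous fun p : ℝ≥0 × ℝ≥0 => hh p.1 p.2 := by
  rw [continuous_iff_continuousAt]
  rintro ⟨l, w⟩
  by_cases hl : l = 0
  · subst hl
    have h : ∀ᶠ p : ℝ≥0 × ℝ≥0 in 𝓝 (0, w), p.1 * p.2 < 1 := by
      have hc : ContinuousAt (fun p : ℝ≥0 × ℝ≥0 => p.1 * p.2) (0, w) := by fun_prop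
      have h0 : (fun p : ℝ≥0 × ℝ≥0 => p.1 * p.2) (0, w) < 1 := by simp
      exact hc.eventually_lt continuousAt_const h0
    have h2 : (fun p : ℝ≥0 × ℝ≥0 => hh p.1 p.2) =ᶠ[𝓝 (0, w)] fun _ => 0 := by
      filter_upwards [h] with p hp
      unfold hh
      rw [tsub_eq_zero_of_le hp.le, zero_div]
    exact (continuousAt_const (y := (0 : ℝ≥0))).congr h2.symm
  · unfold hh
    have h1 : ContinuousAt (fun p : ℝ≥0 × ℝ≥0 => p.1 * p.2 - 1) (l, w) := by
      have : Continuous fun p : ℝ≥0 × ℝ≥0 => p.1 * p.2 - 1 :=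
        (continuous_fst.mul continuous_snd).sub continuous_const
      exact this.continuousAt
    exact h1.div₀ continuousAt_fst hl

lemma mul_hh (l w : ℝ≥0) : l * hh l w = l * w - 1 := by
  unfold hh
  by_cases hl : l = 0
  · subst hl; simp
  · rw [mul_div_cancel₀ _ hl]

lemma hh_le {l x r : ℝ≥0} (h : l * x ≤ 1) : hh l (x * (1 + l * r)) ≤ r := by
  by_cases hl : l = 0
  · subst hl
    simp [hh]
  · have hl' : 0 < l := pos_iff_ne_zero.2 hl
    unfold hh
    rw [div_le_iff₀ hl', tsub_le_iff_right]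
    calc l * (x * (1 + l * r)) = (l * x) * (1 + l * r) := by ring
      _ ≤ 1 * (1 + l * r) := mul_le_mul_left h _
      _ = r * l + 1 := by ring

lemma back_le (l w r : ℝ≥0) : l * (w / (1 + l * (r + hh l w))) ≤ 1 := by
  rw [mul_div_assoc', div_le_iff₀ (by positivity), one_mul, mul_add, mul_hh]
  calc l * w ≤ 1 + (l * w - 1) := le_add_tsub
    _ ≤ 1 + (l * r + (l * w - 1)) := by
      gcongr
      exact le_add_self

/-- the merging homeomorphism of the octant -/
noncomputable def G (δ ε : ℝ≥0) (hδ : 0 < δ) (hε : 0 < ε) : (ℝ≥0 × ℝ≥0 × ℝ≥0) ≃ₜ (ℝ≥0 × ℝ≥0 × ℝ≥0) where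
  toFun p := (p.1 + kap δ ε p.2.1,
    p.2.1 * (1 + lam δ ε (p.1 + kap δ ε p.2.1) * p.2.2),
    p.2.2 - hh (lam δ ε (p.1 + kap δ ε p.2.1))
      (p.2.1 * (1 + lam δ ε (p.1 + kap δ ε p.2.1) * p.2.2)))
  invFun p := (p.1 - kap δ ε (p.2.1 / (1 + lam δ ε p.1 * (p.2.2 + hh (lam δ ε p.1) p.2.1))),
    p.2.1 / (1 + lam δ ε p.1 * (p.2.2 + hh (lam δ ε p.1) p.2.1)),
    p.2.2 + hh (lam δ ε p.1) p.2.1)
  left_inv := by
    rintro ⟨s, x, r⟩
    dsimp only
    have h1 : lam δ ε (s + kap δ ε x) * x ≤ 1 := (kap_le_iff hδ hε x _).1 le_add_self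
    have h2 := hh_le (r := r) h1
    set l := lam δ ε (s + kap δ ε x) with hl
    rw [tsub_add_cancel_of_le h2]
    have h3 : x * (1 + l * r) / (1 + l * r) = x := mul_div_cancel_right₀ _ (by positivity)
    rw [h3, add_tsub_cancel_right]
  right_inv := by
    rintro ⟨c, w, r⟩
    dsimp only
    set l := lam δ ε c with hl
    have h1 := back_le l w r
    have h2 := (kap_le_iff hδ hε _ c).2 h1
    rw [tsub_add_cancel_of_le h2, ← hl]
    have h3 : w / (1 + l * (r + hh l w)) * (1 + l * (r + hh l w)) = w :=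
      div_mul_cancel₀ _ (by positivity)
    rw [h3, add_tsub_cancel_right]
  continuous_toFun := by
    have h1 : Continuous fun p : ℝ≥0 × ℝ≥0 × ℝ≥0 => p.1 + kap δ ε p.2.1 :=
      continuous_fst.add ((kap_cont δ ε).comp (continuous_fst.comp continuous_snd))
    have h2 : Continuous fun p : ℝ≥0 × ℝ≥0 × ℝ≥0 =>
        p.2.1 * (1 + lam δ ε (p.1 + kap δ ε p.2.1) * p.2.2) :=
      (continuous_fst.comp continuous_snd).mul (continuous_const.add
        (((lam_cont hε).comp h1).mul (continuous_snd.comp continuous_snd)))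
    exact h1.prodMk (h2.prodMk ((continuous_snd.comp continuous_snd).sub
      (hh_cont.comp (((lam_cont hε).comp h1).prodMk h2))))
  continuous_invFun := by
    have h1 : Continuous fun p : ℝ≥0 × ℝ≥0 × ℝ≥0 => p.2.2 + hh (lam δ ε p.1) p.2.1 :=
      (continuous_snd.comp continuous_snd).add
        (hh_cont.comp (((lam_cont hε).comp continuous_fst).prodMk (continuous_fst.comp continuous_snd)))
    have h2 : Continuous fun p : ℝ≥0 × ℝ≥0 × ℝ≥0 =>
        p.2.1 / (1 + lam δ ε p.1 * (p.2.2 + hh (lam δ ε p.1) p.2.1)) := by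
      refine (continuous_fst.comp continuous_snd).div₀ (continuous_const.add
        (((lam_cont hε).comp continuous_fst).mul h1)) fun p => ?_
      positivity
    exact (continuous_fst.sub ((kap_cont δ ε).comp h2)).prodMk (h2.prodMk h1)

/-- block space -/
abbrev B : Type := ℝ≥0 × (ℕ → ℝ≥0) × ℝ≥0

/-- the merging homeomorphism at the coordinate `i` -/
noncomputable def Gat (i : ℕ) (δ ε : ℝ≥0) (hδ : 0 < δ) (hε : 0 < ε) : B ≃ₜ B where
  toFun p := ((G δ ε hδ hε (p.1, p.2.1 i, p.2.2)).1,
    Function.update p.2.1 i (G δ ε hδ hε (p.1, p.2.1 i, p.2.2)).2.1,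
    (G δ ε hδ hε (p.1, p.2.1 i, p.2.2)).2.2)
  invFun p := (((G δ ε hδ hε).symm (p.1, p.2.1 i, p.2.2)).1,
    Function.update p.2.1 i ((G δ ε hδ hε).symm (p.1, p.2.1 i, p.2.2)).2.1,
    ((G δ ε hδ hε).symm (p.1, p.2.1 i, p.2.2)).2.2)
  left_inv := by
    rintro ⟨s, x, r⟩
    simp
  right_inv := by
    rintro ⟨s, x, r⟩
    simp
  continuous_toFun := by
    have h0 : Continuous fun p : B => (G δ ε hδ hε (p.1, p.2.1 i, p.2.2)) :=
      (G δ ε hδ hε).continuous.comp (continuous_fst.prodMk
        (((continuous_apply i).comp (continuous_fst.comp continuous_snd)).prodMk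
          (continuous_snd.comp continuous_snd)))
    exact (continuous_fst.comp h0).prodMk
      (((continuous_fst.comp continuous_snd).update i
        (continuous_fst.comp (continuous_snd.comp h0))).prodMk
        (continuous_snd.comp (continuous_snd.comp h0)))
  continuous_invFun := by
    have h0 : Continuous fun p : B => ((G δ ε hδ hε).symm (p.1, p.2.1 i, p.2.2)) :=
      (G δ ε hδ hε).symm.continuous.comp (continuous_fst.prodMk
        (((continuous_apply i).comp (continuous_fst.comp continuous_snd)).prodMk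
          (continuous_snd.comp continuous_snd)))
    exact (continuous_fst.comp h0).prodMk
      (((continuous_fst.comp continuous_snd).update i
        (continuous_fst.comp (continuous_snd.comp h0))).prodMk
        (continuous_snd.comp (continuous_snd.comp h0)))

lemma Gat_fst (i : ℕ) (δ ε : ℝ≥0) (hδ : 0 < δ) (hε : 0 < ε) (p : B) :
    (Gat i δ ε hδ hε p).1 = p.1 + kap δ ε (p.2.1 i) := rfl

lemma Gat_ne (i : ℕ) (δ ε : ℝ≥0) (hδ : 0 < δ) (hε : 0 < ε) (p : B) {k : ℕ} (h : k ≠ i) :
    (Gat i δ ε hδ hε p).2.1 k = p.2.1 k := by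
  show Function.update p.2.1 i _ k = _
  rw [Function.update_of_ne h]

/-- weights -/
noncomputable def dl (i : ℕ) : ℝ≥0 := (1 / 2) ^ i

lemma dl_pos (i : ℕ) : 0 < dl i := by unfold dl; positivity

/-- the composition of the first `k` merging homeomorphisms -/
noncomputable def H (ε : ℝ≥0) (hε : 0 < ε) : ℕ → (B ≃ₜ B)
  | 0 => Homeomorph.refl B
  | k + 1 => (H ε hε k).trans (Gat k (dl k) ε (dl_pos k) hε)

lemma H_ge (ε : ℝ≥0) (hε : 0 < ε) (p : B) (k : ℕ) : ∀ i, k ≤ i → (H ε hε k p).2.1 i = p.2.1 i := by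
  induction k with
  | zero => intro i _; rfl
  | succ k ih =>
    intro i hi
    show (Gat k (dl k) ε (dl_pos k) hε (H ε hε k p)).2.1 i = _
    rw [Gat_ne _ _ _ _ _ _ (by omega : i ≠ k)]
    exact ih i (by omega)

lemma H_fst (ε : ℝ≥0) (hε : 0 < ε) (p : B) (k : ℕ) :
    (H ε hε k p).1 = p.1 + ∑ i ∈ Finset.range k, kap (dl i) ε (p.2.1 i) := by
  induction k with
  | zero => simp [H]
  | succ k ih =>
    show (Gat k (dl k) ε (dl_pos k) hε (H ε hε k p)).1 = _
    rw [Gat_fst, ih, H_ge ε hε p k k le_rfl, Finset.sum_range_succ, add_assoc]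

/-- thresholds -/
noncomputable def ep (j : ℕ) : ℝ≥0 := (1 / 2) ^ (j + 1)

lemma ep_pos (j : ℕ) : 0 < ep j := by unfold ep; positivity

lemma ep_tendsto : Tendsto ep atTop (𝓝 0) := by
  have h : Tendsto (fun n : ℕ => ((1 / 2 : ℝ≥0)) ^ n) atTop (𝓝 0) :=
    NNReal.tendsto_pow_atTop_nhds_zero_of_lt_one (by
      rw [← NNReal.coe_lt_coe]; push_cast; norm_num)
  exact h.comp (tendsto_add_atTop_nat 1)

/-- the homeomorphism of the space of sequences of blocks -/
noncomputable def Psi : (ℕ → B) ≃ₜ (ℕ → B) :=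
  Homeomorph.piCongrRight fun j => H (ep j) (ep_pos j) j

lemma Psi_fst (w : ℕ → B) (j : ℕ) :
    (Psi w j).1 = (w j).1 + ∑ i ∈ Finset.range j, kap (dl i) (ep j) ((w j).2.1 i) :=
  H_fst (ep j) (ep_pos j) (w j) j

lemma Psi_tendsto (w : ℕ → B) : Tendsto (fun j => (Psi w j).1) atTop (𝓝 0) ↔
    Tendsto (fun j => (w j).1) atTop (𝓝 0) ∧ ∀ i, Tendsto (fun j => (w j).2.1 i) atTop (𝓝 0) := by
  constructor
  · intro h
    refine ⟨?_, fun i => ?_⟩
    · refine tendsto_of_tendsto_of_tendsto_of_le_of_le tendsto_const_nhds h (fun j => zero_le) fun j => ?_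
      show (w j).1 ≤ (Psi w j).1
      rw [Psi_fst]
      exact le_self_add
    · -- aa (x) ≤ ep j + Psi / dl i
      have h1 : Tendsto (fun j => ep j + (Psi w j).1 / dl i) atTop (𝓝 0) := by
        have := ep_tendsto.add (h.div_const (dl i))
        simpa using this
      have h2 : Tendsto (fun j => aa ((w j).2.1 i)) atTop (𝓝 0) := by
        refine tendsto_of_tendsto_of_tendsto_of_le_of_le' tendsto_const_nhds h1
          (Eventually.of_forall fun j => zero_le) ?_
        filter_upwards [eventually_gt_atTop i] with j hj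
        have h3 : kap (dl i) (ep j) ((w j).2.1 i) ≤ (Psi w j).1 := by
          rw [Psi_fst]
          refine le_trans ?_ le_add_self
          exact Finset.single_le_sum (f := fun i => kap (dl i) (ep j) ((w j).2.1 i))
            (fun i _ => zero_le) (Finset.mem_range.2 hj)
        unfold kap at h3
        rw [mul_comm, ← le_div_iff₀ (dl_pos i), tsub_le_iff_right, add_comm] at h3
        exact h3
      -- x = aa / (1 - aa)
      have h4 : Tendsto (fun j => aa ((w j).2.1 i) / (1 - aa ((w j).2.1 i))) atTop (𝓝 (0 / (1 - 0))) :=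
        Filter.Tendsto.div h2 (tendsto_const_nhds.sub h2) (by simp)
      simp only [tsub_zero, div_one] at h4
      refine h4.congr fun j => ?_
      generalize (w j).2.1 i = x
      unfold aa
      have h5 : (1 : ℝ≥0) - x / (1 + x) = 1 / (1 + x) := by
        have h6 : (1 : ℝ≥0) = 1 / (1 + x) + x / (1 + x) := by
          rw [← add_div, div_self (by positivity)]
        nth_rewrite 1 [h6]
        rw [add_tsub_cancel_right]
      rw [h5]
      field_simp
  · rintro ⟨h1, h2⟩
    -- dominated convergence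
    have hs : Summable fun i => ((dl i : ℝ≥0) : ℝ) := by
      have := summable_geometric_of_lt_one (r := (1 / 2 : ℝ)) (by norm_num) (by norm_num)
      refine this.congr fun i => ?_
      simp [dl]
    have hk : ∀ i, Tendsto (fun j => kap (dl i) (ep j) ((w j).2.1 i)) atTop (𝓝 0) := by
      intro i
      have h3 : Tendsto (fun j => dl i * aa ((w j).2.1 i)) atTop (𝓝 (dl i * aa 0)) :=
        tendsto_const_nhds.mul ((aa_cont.tendsto 0).comp (h2 i))
      have h4 : aa 0 = 0 := by simp [aa]
      rw [h4, mul_zero] at h3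
      refine tendsto_of_tendsto_of_tendsto_of_le_of_le tendsto_const_nhds h3 (fun j => zero_le) fun j => ?_
      show kap (dl i) (ep j) ((w j).2.1 i) ≤ _
      unfold kap
      gcongr
      exact tsub_le_self
    have h5 : Tendsto (fun j => ∑' i, (if i < j then ((kap (dl i) (ep j) ((w j).2.1 i) : ℝ≥0) : ℝ) else 0))
        atTop (𝓝 (∑' i : ℕ, (0 : ℝ))) := by
      refine tendsto_tsum_of_dominated_convergence hs (fun i => ?_) (Eventually.of_forall fun j i => ?_)
      · have h6 := NNReal.tendsto_coe.2 (hk i)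
        refine Tendsto.congr' ?_ (by simpa using h6)
        filter_upwards [eventually_gt_atTop i] with j hj
        rw [if_pos hj]
      · split_ifs with h
        · rw [Real.norm_of_nonneg (NNReal.coe_nonneg _)]
          have h7 : kap (dl i) (ep j) ((w j).2.1 i) ≤ dl i := by
            unfold kap aa
            calc dl i * ((w j).2.1 i / (1 + (w j).2.1 i) - ep j)
                ≤ dl i * 1 := by
                  gcongr
                  refine tsub_le_self.trans ?_
                  rw [div_le_one (by positivity)]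
                  exact le_add_self
              _ = dl i := mul_one _
          exact_mod_cast h7
        · simp
    have h8 : ∀ j, ∑' i, (if i < j then ((kap (dl i) (ep j) ((w j).2.1 i) : ℝ≥0) : ℝ) else 0)
        = ((∑ i ∈ Finset.range j, kap (dl i) (ep j) ((w j).2.1 i) : ℝ≥0) : ℝ) := by
      intro j
      rw [tsum_eq_sum (s := Finset.range j)]
      · push_cast
        refine Finset.sum_congr rfl fun i hi => ?_
        rw [if_pos (Finset.mem_range.1 hi)]
      · intro i hi
        rw [if_neg (by simpa using hi)]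
    simp only [h8, tsum_zero] at h5
    have h9 : Tendsto (fun j => ∑ i ∈ Finset.range j, kap (dl i) (ep j) ((w j).2.1 i)) atTop (𝓝 0) := by
      rw [← NNReal.tendsto_coe]
      simpa using h5
    have h10 := h1.add h9
    rw [add_zero] at h10
    refine h10.congr fun j => ?_
    rw [Psi_fst]

end Pool.Agent.Helper800.Merge
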