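import Mathlib

set_option autoImplicit false

namespace Pool.Agent.Helper800.Shell

open Filter Topology Set
open scoped NNReal

/-- scale -/
noncomputable def e (n : ℕ) : ℝ := (1 / 2) ^ n

lemma e_pos (n : ℕ) : 0 < e n := by unfold e; positivity

lemma e_tendsto : Tendsto e atTop (𝓝 0) := by
  unfold e
  exact tendsto_pow_atTop_nhds_zero_of_lt_one (by norm_num) (by norm_num)

/-- squashing function -/
noncomputable def eta (n : ℕ) (u : ℝ) : ℝ := e n * (u / (1 + |u|))

lemma eta_cont (n : ℕ) : Continuous (eta n) := by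
  unfold eta
  refine continuous_const.mul (continuous_id.div (continuous_const.add continuous_abs) ?_)
  intro x
  have := abs_nonneg x
  positivity

lemma eta_nonneg (n : ℕ) {u : ℝ} (hu : 0 ≤ u) : 0 ≤ eta n u := by
  unfold eta
  have := e_pos n
  positivity

lemma eta_lt (n : ℕ) {u : ℝ} (hu : 0 ≤ u) : eta n u < e n := by
  unfold eta
  rw [abs_of_nonneg hu]
  have h := e_pos n
  have h1 : u / (1 + u) < 1 := by
    rw [div_lt_one (by linarith)]
    linarith
  calc e n * (u / (1 + u)) < e n * 1 := by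
        exact mul_lt_mul_of_pos_left h1 h
    _ = e n := mul_one _

lemma eta_zero (n : ℕ) : eta n 0 = 0 := by simp [eta]

lemma eta_mono (n : ℕ) {u v : ℝ} (hu : 0 ≤ u) (huv : u ≤ v) : eta n u ≤ eta n v := by
  unfold eta
  have hv : 0 ≤ v := hu.trans huv
  rw [abs_of_nonneg hu, abs_of_nonneg hv]
  have h := e_pos n
  have : u / (1 + u) ≤ v / (1 + v) := by
    rw [div_le_div_iff₀ (by linarith) (by linarith)]
    nlinarith
  exact mul_le_mul_of_nonneg_left this h.le

lemma eta_strict (n : ℕ) {u v : ℝ} (hu : 0 ≤ u) (hv : 0 ≤ v) (h : eta n u ≤ eta n v) : u ≤ v := by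
  unfold eta at h
  rw [abs_of_nonneg hu, abs_of_nonneg hv] at h
  have h' := le_of_mul_le_mul_left h (e_pos n)
  rw [div_le_div_iff₀ (by linarith) (by linarith)] at h'
  nlinarith

lemma eta_sub_le (n : ℕ) {u v : ℝ} (hu : 0 ≤ u) (huv : u ≤ v) : eta n v - eta n u ≤ v - u := by
  unfold eta
  have hv : 0 ≤ v := hu.trans huv
  rw [abs_of_nonneg hu, abs_of_nonneg hv]
  have h0 : e n ≤ 1 := by
    unfold e
    exact pow_le_one₀ (by norm_num) (by norm_num)
  have h1 : v / (1 + v) - u / (1 + u) = (v - u) / ((1 + v) * (1 + u)) := by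
    field_simp
    ring
  have h2 : (v - u) / ((1 + v) * (1 + u)) ≤ v - u := by
    apply div_le_self (by linarith)
    nlinarith
  have h3 : 0 ≤ (v - u) / ((1 + v) * (1 + u)) := by
    apply div_nonneg (by linarith)
    nlinarith
  calc e n * (v / (1 + v)) - e n * (u / (1 + u)) = e n * ((v - u) / ((1 + v) * (1 + u))) := by
        rw [← h1]; ring
    _ ≤ 1 * ((v - u) / ((1 + v) * (1 + u))) := mul_le_mul_of_nonneg_right h0 h3
    _ ≤ v - u := by rw [one_mul]; exact h2

lemma eta_dist (n : ℕ) {u v : ℝ} (hu : 0 ≤ u) (hv : 0 ≤ v) : |eta n u - eta n v| ≤ |u - v| := by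
  rcases le_total u v with h | h
  · have h1 := eta_mono n hu h
    have h2 := eta_sub_le n hu h
    rw [abs_sub_comm, abs_of_nonneg (by linarith), abs_sub_comm u, abs_of_nonneg (by linarith)]
    exact h2
  · have h1 := eta_mono n hv h
    have h2 := eta_sub_le n hv h
    rw [abs_of_nonneg (by linarith), abs_of_nonneg (by linarith)]
    exact h2

lemma eta_dist' (n : ℕ) {u v : ℝ} (hu : 0 ≤ u) (hv : 0 ≤ v) : |eta n u - eta n v| ≤ e n := by
  have h1 := eta_nonneg n hu
  have h2 := eta_nonneg n hv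
  have h3 := eta_lt n hu
  have h4 := eta_lt n hv
  rw [abs_le]
  constructor <;> linarith

/-- inverse of `eta` -/
lemma eta_inv (n : ℕ) {v : ℝ} (hv : 0 ≤ v) (hv' : v < e n) :
    0 ≤ v / (e n - v) ∧ eta n (v / (e n - v)) = v := by
  have h0 : 0 < e n - v := by linarith
  have h1 : 0 ≤ v / (e n - v) := div_nonneg hv h0.le
  refine ⟨h1, ?_⟩
  unfold eta
  rw [abs_of_nonneg h1]
  have he := e_pos n
  have h2 : 1 + v / (e n - v) = e n / (e n - v) := by
    field_simp
    ring
  rw [h2]
  field_simp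

lemma eta_inv' (n : ℕ) {u : ℝ} (hu : 0 ≤ u) : eta n u / (e n - eta n u) = u := by
  have h1 := eta_lt n hu
  have h2 := eta_nonneg n hu
  obtain ⟨h3, h4⟩ := eta_inv n h2 h1
  exact le_antisymm (eta_strict n h3 hu h4.le) (eta_strict n hu h3 h4.ge)

/-! ### nested sums -/

/-- nested expression of depth `k` starting at `n` with terminal value `t` -/
noncomputable def T : ℕ → ℕ → (ℕ → ℝ) → ℝ → ℝ
  | 0, _, _, t => t
  | k + 1, n, y, t => max (y n) 0 + eta n (T k (n + 1) y t)

lemma T_nonneg (k : ℕ) : ∀ (n : ℕ) (y : ℕ → ℝ) {t : ℝ}, 0 ≤ t → 0 ≤ T k n y t := by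
  induction k with
  | zero => intro n y t ht; exact ht
  | succ k ih =>
    intro n y t ht
    have := eta_nonneg n (ih (n + 1) y ht)
    have h2 : 0 ≤ max (y n) 0 := le_max_right _ _
    simp only [T]
    linarith

lemma T_dist (k : ℕ) : ∀ (n : ℕ) (y : ℕ → ℝ) {t t' : ℝ}, 0 ≤ t → 0 ≤ t' →
    |T (k + 1) n y t - T (k + 1) n y t'| ≤ e (n + k) := by
  induction k with
  | zero =>
    intro n y t t' ht ht'
    simp only [T, add_sub_add_left_eq_sub, add_zero]
    exact eta_dist' n ht ht'
  | succ k ih =>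
    intro n y t t' ht ht'
    have h := ih (n + 1) y ht ht'
    have e1 : n + 1 + k = n + (k + 1) := by ring
    rw [e1] at h
    rw [show T (k + 1 + 1) n y t = max (y n) 0 + eta n (T (k + 1) (n + 1) y t) from rfl,
      show T (k + 1 + 1) n y t' = max (y n) 0 + eta n (T (k + 1) (n + 1) y t') from rfl,
      add_sub_add_left_eq_sub]
    exact (eta_dist n (T_nonneg _ _ _ ht) (T_nonneg _ _ _ ht')).trans h

lemma T_cont (k : ℕ) : ∀ (n : ℕ) (t : ℝ), Continuous fun y => T k n y t := by
  induction k with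
  | zero => intro n t; exact continuous_const
  | succ k ih =>
    intro n t
    simp only [T]
    exact ((continuous_apply n).max continuous_const).add ((eta_cont n).comp (ih (n + 1) t))

lemma T_mono (k : ℕ) : ∀ (n : ℕ) (y : ℕ → ℝ), T k n y 0 ≤ T (k + 1) n y 0 := by
  induction k with
  | zero =>
    intro n y
    simp only [T, eta_zero, add_zero]
    exact le_max_right _ _
  | succ k ih =>
    intro n y
    have := eta_mono n (T_nonneg k (n + 1) y le_rfl) (ih (n + 1) y)
    rw [show T (k + 1 + 1) n y 0 = max (y n) 0 + eta n (T (k + 1) (n + 1) y 0) from rfl,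
      show T (k + 1) n y 0 = max (y n) 0 + eta n (T k (n + 1) y 0) from rfl]
    linarith

lemma T_le (k n : ℕ) (y : ℕ → ℝ) : T k n y 0 ≤ max (y n) 0 + e n := by
  cases k with
  | zero =>
    have := e_pos n
    have h2 : 0 ≤ max (y n) 0 := le_max_right _ _
    simp only [T]
    linarith
  | succ k =>
    have := eta_lt n (T_nonneg k (n + 1) y le_rfl)
    simp only [T]
    linarith

/-- the limit of the nested expressions -/
noncomputable def Z (n : ℕ) (y : ℕ → ℝ) : ℝ := ⨆ k, T k n y 0

lemma Z_tendsto (n : ℕ) (y : ℕ → ℝ) : Tendsto (fun k => T k n y 0) atTop (𝓝 (Z n y)) :=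
  tendsto_atTop_ciSup (monotone_nat_of_le_succ fun k => T_mono k n y)
    ⟨max (y n) 0 + e n, by rintro _ ⟨k, rfl⟩; exact T_le k n y⟩

lemma Z_nonneg (n : ℕ) (y : ℕ → ℝ) : 0 ≤ Z n y :=
  ge_of_tendsto' (Z_tendsto n y) fun k => T_nonneg k n y le_rfl

lemma Z_eq (n : ℕ) (y : ℕ → ℝ) : Z n y = max (y n) 0 + eta n (Z (n + 1) y) := by
  have h1 : Tendsto (fun k => T (k + 1) n y 0) atTop (𝓝 (Z n y)) :=
    (Z_tendsto n y).comp (tendsto_add_atTop_nat 1)
  have h2 : Tendsto (fun k => T (k + 1) n y 0) atTop (𝓝 (max (y n) 0 + eta n (Z (n + 1) y))) := by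
    simp only [T]
    exact tendsto_const_nhds.add (((eta_cont n).tendsto _).comp (Z_tendsto (n + 1) y))
  exact tendsto_nhds_unique h1 h2

/-- fixed points of the nested recursion are nested expressions -/
lemma fix_T {y z : ℕ → ℝ} (hz : ∀ n, z n = max (y n) 0 + eta n (z (n + 1))) (k : ℕ) :
    ∀ n, z n = T k n y (z (n + k)) := by
  induction k with
  | zero => intro n; rfl
  | succ k ih =>
    intro n
    have h := ih (n + 1)
    have e1 : n + 1 + k = n + (k + 1) := by ring
    rw [e1] at h
    rw [show T (k + 1) n y (z (n + (k + 1))) = max (y n) 0 + eta n (T k (n + 1) y (z (n + (k + 1)))) from rfl,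
      ← h]
    exact hz n

lemma fix_unique {y z z' : ℕ → ℝ} (h0 : ∀ n, 0 ≤ z n) (h0' : ∀ n, 0 ≤ z' n)
    (hz : ∀ n, z n = max (y n) 0 + eta n (z (n + 1)))
    (hz' : ∀ n, z' n = max (y n) 0 + eta n (z' (n + 1))) (n : ℕ) : z n = z' n := by
  have h : ∀ k, |z n - z' n| ≤ e (n + k) := by
    intro k
    rw [fix_T hz (k + 1) n, fix_T hz' (k + 1) n]
    exact T_dist k n y (h0 _) (h0' _)
  have h1 : Tendsto (fun k => e (n + k)) atTop (𝓝 0) := by
    have := e_tendsto.comp (tendsto_add_atTop_nat n)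
    refine this.congr fun k => ?_
    simp [add_comm]
  have h2 : |z n - z' n| ≤ 0 := ge_of_tendsto' h1 h
  have h3 := abs_nonneg (z n - z' n)
  have h4 : |z n - z' n| = 0 := le_antisymm h2 h3
  have := abs_eq_zero.1 h4
  linarith

lemma Z_cont (n : ℕ) : Continuous (Z n) := by
  have hu : TendstoUniformly (fun k y => T (k + 1) n y 0) (Z n) atTop := by
    rw [Metric.tendstoUniformly_iff]
    intro ε hε
    have h1 : Tendsto (fun k => e (n + k)) atTop (𝓝 0) := by
      have := e_tendsto.comp (tendsto_add_atTop_nat n)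
      refine this.congr fun k => ?_
      simp [add_comm]
    filter_upwards [h1.eventually (gt_mem_nhds hε)] with k hk y
    rw [Real.dist_eq]
    have := fix_T (fun m => Z_eq m y) (k + 1) n
    have h2 : |T (k + 1) n y (Z (n + (k + 1)) y) - T (k + 1) n y 0| ≤ e (n + k) :=
      T_dist k n y (Z_nonneg _ _) le_rfl
    rw [← this] at h2
    exact h2.trans_lt hk
  exact hu.continuous (Frequently.of_forall fun k => T_cont (k + 1) n 0)

/-! ### the homeomorphism -/

/-- from real sequences to nonnegative sequences -/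
noncomputable def U (y : ℕ → ℝ) : ℕ → ℝ≥0
  | 0 => (Z 0 y).toNNReal
  | n + 1 => (max (-y n) 0 + Z (n + 1) y).toNNReal

lemma U_zero (y : ℕ → ℝ) : ((U y 0 : ℝ≥0) : ℝ) = Z 0 y := by
  simp only [U]
  exact Real.coe_toNNReal _ (Z_nonneg _ _)

lemma U_succ (y : ℕ → ℝ) (n : ℕ) : ((U y (n + 1) : ℝ≥0) : ℝ) = max (-y n) 0 + Z (n + 1) y := by
  simp only [U]
  refine Real.coe_toNNReal _ ?_
  have := Z_nonneg (n + 1) y
  have h2 : 0 ≤ max (-y n) 0 := le_max_right _ _
  linarith

lemma U_cont : Continuous U := by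
  refine continuous_pi fun n => ?_
  cases n with
  | zero => exact continuous_real_toNNReal.comp (Z_cont 0)
  | succ n =>
    refine continuous_real_toNNReal.comp ?_
    exact ((continuous_apply n).neg.max continuous_const).add (Z_cont (n + 1))

/-- recovering the carried value -/
noncomputable def zz (x : ℕ → ℝ≥0) : ℕ → ℝ
  | 0 => x 0
  | n + 1 => min (eta n (x (n + 1))) (zz x n) / (e n - min (eta n (x (n + 1))) (zz x n))

lemma zz_nonneg (x : ℕ → ℝ≥0) (n : ℕ) : 0 ≤ zz x n := by
  induction n with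
  | zero => exact (x 0).2
  | succ n ih =>
    simp only [zz]
    have h1 := eta_lt n (x (n + 1)).2
    have h2 := eta_nonneg n (x (n + 1)).2
    have h3 : min (eta n (x (n + 1))) (zz x n) ≤ eta n (x (n + 1)) := min_le_left _ _
    refine div_nonneg (le_min h2 ih) ?_
    have : eta n ((x (n+1) : ℝ≥0) : ℝ) < e n := h1
    linarith

lemma zz_cont (n : ℕ) : Continuous fun x => zz x n := by
  induction n with
  | zero => exact NNReal.continuous_coe.comp (continuous_apply 0)
  | succ n ih =>
    simp only [zz]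
    have h : Continuous fun x : ℕ → ℝ≥0 => min (eta n (x (n + 1))) (zz x n) :=
      (((eta_cont n).comp NNReal.continuous_coe).comp (continuous_apply (n + 1))).min ih
    refine h.div (continuous_const.sub h) fun x => ?_
    have h1 : eta n ((x (n + 1) : ℝ≥0) : ℝ) < e n := eta_lt n (x (n + 1)).2
    have h3 : min (eta n (x (n + 1))) (zz x n) ≤ eta n (x (n + 1)) := min_le_left _ _
    intro h4
    linarith

/-- from nonnegative sequences to real sequences -/
noncomputable def D (x : ℕ → ℝ≥0) (n : ℕ) : ℝ :=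
  max (zz x n - eta n (x (n + 1))) 0 - (x (n + 1) - zz x (n + 1))

lemma D_cont : Continuous D := by
  refine continuous_pi fun n => ?_
  unfold D
  have h1 : Continuous fun x : ℕ → ℝ≥0 => ((x (n + 1) : ℝ≥0) : ℝ) :=
    NNReal.continuous_coe.comp (continuous_apply (n + 1))
  exact (((zz_cont n).sub ((eta_cont n).comp h1)).max continuous_const).sub (h1.sub (zz_cont (n + 1)))

lemma zz_U (y : ℕ → ℝ) (n : ℕ) : zz (U y) n = Z n y := by
  induction n with
  | zero => simp only [zz]; exact U_zero y
  | succ n ih =>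
    simp only [zz]
    rw [ih, U_succ]
    have hZ := Z_eq n y
    have hZn := Z_nonneg (n + 1) y
    have key : min (eta n (max (-y n) 0 + Z (n + 1) y)) (Z n y) = eta n (Z (n + 1) y) := by
      rcases le_total 0 (y n) with h | h
      · rw [max_eq_right (by linarith : -y n ≤ 0), zero_add, hZ, min_eq_left]
        rw [max_eq_left h]
        linarith
      · rw [hZ, max_eq_right h, zero_add, min_eq_right]
        refine eta_mono n hZn ?_
        have : 0 ≤ max (-y n) 0 := le_max_right _ _
        linarith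
    rw [key, eta_inv' n hZn]

lemma D_U (y : ℕ → ℝ) : D (U y) = y := by
  funext n
  unfold D
  rw [zz_U, zz_U, U_succ]
  have hZ := Z_eq n y
  have hZn := Z_nonneg (n + 1) y
  rcases le_total 0 (y n) with h | h
  · rw [max_eq_right (by linarith : -y n ≤ 0), zero_add, hZ, max_eq_left h]
    rw [max_eq_left (by linarith)]
    ring
  · have h1 : eta n (Z (n + 1) y) ≤ eta n (max (-y n) 0 + Z (n + 1) y) := by
      refine eta_mono n hZn ?_
      have : 0 ≤ max (-y n) 0 := le_max_right _ _
      linarith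
    rw [max_eq_right (by rw [hZ, max_eq_right h]; linarith)]
    rw [max_eq_left (by linarith : 0 ≤ -y n)]
    ring

lemma zz_step (x : ℕ → ℝ≥0) (n : ℕ) :
    zz x n = max (D x n) 0 + eta n (zz x (n + 1)) ∧
    ((x (n + 1) : ℝ≥0) : ℝ) = max (-D x n) 0 + zz x (n + 1) := by
  have hx : (0 : ℝ) ≤ ((x (n + 1) : ℝ≥0) : ℝ) := (x (n + 1)).2
  have hz := zz_nonneg x n
  have hlt : eta n ((x (n + 1) : ℝ≥0) : ℝ) < e n := eta_lt n hx
  have hnn : 0 ≤ eta n ((x (n + 1) : ℝ≥0) : ℝ) := eta_nonneg n hx
  rcases le_total (eta n ((x (n + 1) : ℝ≥0) : ℝ)) (zz x n) with h | h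
  · have e1 : zz x (n + 1) = ((x (n + 1) : ℝ≥0) : ℝ) := by
      simp only [zz]
      rw [min_eq_left h]
      exact eta_inv' n hx
    have e2 : D x n = zz x n - eta n ((x (n + 1) : ℝ≥0) : ℝ) := by
      unfold D
      rw [e1, max_eq_left (by linarith)]
      ring
    rw [e1, e2, max_eq_left (by linarith), max_eq_right (by linarith)]
    constructor <;> ring
  · have hv : zz x n < e n := by linarith
    have e1 : zz x (n + 1) = zz x n / (e n - zz x n) := by
      simp only [zz]
      rw [min_eq_right h]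
    obtain ⟨h3, h4⟩ := eta_inv n hz hv
    rw [← e1] at h3 h4
    have h5 : zz x (n + 1) ≤ ((x (n + 1) : ℝ≥0) : ℝ) := by
      refine eta_strict n h3 hx ?_
      rw [h4]
      exact h
    have e2 : D x n = -(((x (n + 1) : ℝ≥0) : ℝ) - zz x (n + 1)) := by
      unfold D
      rw [max_eq_right (by linarith)]
      ring
    rw [e2, max_eq_right (by linarith), max_eq_left (by linarith), h4]
    constructor <;> ring

lemma Z_D (x : ℕ → ℝ≥0) (n : ℕ) : Z n (D x) = zz x n :=
  fix_unique (y := D x) (fun m => Z_nonneg m (D x)) (zz_nonneg x) (fun m => Z_eq m (D x))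
    (fun m => (zz_step x m).1) n

lemma U_D (x : ℕ → ℝ≥0) : U (D x) = x := by
  funext n
  apply NNReal.eq
  cases n with
  | zero => rw [U_zero, Z_D]; rfl
  | succ n =>
    rw [U_succ, Z_D]
    exact (zz_step x n).2.symm

/-- homeomorphism of the space of real sequences onto the space of nonnegative sequences -/
noncomputable def Sh : (ℕ → ℝ) ≃ₜ (ℕ → ℝ≥0) where
  toFun := U
  invFun := D
  left_inv := D_U
  right_inv := U_D
  continuous_toFun := U_cont
  continuous_invFun := D_cont

lemma Sh_tendsto (y : ℕ → ℝ) : Tendsto (Sh y) atTop (𝓝 0) ↔ Tendsto y atTop (𝓝 0) := by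
  have hUZ : ∀ n, ((Sh y (n + 1) : ℝ≥0) : ℝ) = max (-y n) 0 + Z (n + 1) y := U_succ y
  constructor
  · intro h
    have h1 : Tendsto (fun n => ((Sh y n : ℝ≥0) : ℝ)) atTop (𝓝 0) := by
      have := NNReal.tendsto_coe.2 h
      simpa using this
    have h2 : Tendsto (fun n => ((Sh y (n + 1) : ℝ≥0) : ℝ)) atTop (𝓝 0) :=
      h1.comp (tendsto_add_atTop_nat 1)
    have h3 : Tendsto (fun n => max (y n) 0) atTop (𝓝 0) := by
      refine squeeze_zero' (Eventually.of_forall fun n => le_max_right _ _) ?_ h1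
      filter_upwards [eventually_ge_atTop 1] with n hn
      obtain ⟨m, rfl⟩ : ∃ m, n = m + 1 := ⟨n - 1, by omega⟩
      have h4 := hUZ m
      have h5 := Z_eq (m + 1) y
      have h6 := eta_nonneg (m + 1) (Z_nonneg (m + 1 + 1) y)
      have h7 : 0 ≤ max (-y m) 0 := le_max_right _ _
      rw [h4]
      linarith
    have h3' : Tendsto (fun n => max (-y n) 0) atTop (𝓝 0) := by
      refine squeeze_zero (fun n => le_max_right _ _) (fun n => ?_) h2
      rw [hUZ]
      have := Z_nonneg (n + 1) y
      linarith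
    have h8 : Tendsto (fun n => max (y n) 0 - max (-y n) 0) atTop (𝓝 (0 - 0)) := h3.sub h3'
    rw [sub_zero] at h8
    refine h8.congr fun n => ?_
    rcases le_total 0 (y n) with h | h
    · rw [max_eq_left h, max_eq_right (by linarith)]; ring
    · rw [max_eq_right h, max_eq_left (by linarith)]; ring
  · intro h
    have hp : Tendsto (fun n => max (y n) 0) atTop (𝓝 0) := by
      have := h.max (tendsto_const_nhds (x := (0 : ℝ)))
      simpa using this
    have hm : Tendsto (fun n => max (-y n) 0) atTop (𝓝 0) := by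
      have := h.neg.max (tendsto_const_nhds (x := (0 : ℝ)))
      simpa using this
    have hZ : Tendsto (fun n => Z n y) atTop (𝓝 0) := by
      have h1 : Tendsto (fun n => max (y n) 0 + e n) atTop (𝓝 (0 + 0)) := hp.add e_tendsto
      rw [add_zero] at h1
      refine squeeze_zero (fun n => Z_nonneg n y) (fun n => ?_) h1
      have := Z_eq n y
      have h2 := eta_lt n (Z_nonneg (n + 1) y)
      linarith
    have h2 : Tendsto (fun n => ((Sh y (n + 1) : ℝ≥0) : ℝ)) atTop (𝓝 0) := by
      have := hm.add (hZ.comp (tendsto_add_atTop_nat 1))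
      rw [add_zero] at this
      refine this.congr fun n => ?_
      rw [hUZ]
      rfl
    have h3 : Tendsto (fun n => Sh y (n + 1)) atTop (𝓝 0) := by
      rw [← NNReal.tendsto_coe]
      simpa using h2
    exact (tendsto_add_atTop_iff_nat 1).1 h3

end Pool.Agent.Helper800.Shell
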