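import Mathlib
import Pool.Agent.Helper800.Shell
import Pool.Agent.Helper800.Merge

set_option autoImplicit false

namespace Pool.Agent.Helper800.AtEq

open Filter Topology Set OnePoint
open scoped NNReal
open Pool.Agent.Helper800.Shell Pool.Agent.Helper800.Merge

/-- the compact sequence plus a discrete sequence -/
abbrev X : Type := OnePoint ℕ ⊕ ℕ

/-- the topological sum of infinitely many convergent sequences -/
abbrev Y : Type := OnePoint ℕ × ℕ

instance t35X : T35Space X := by
  let _ : UniformSpace (OnePoint ℕ) := uniformSpaceOfCompactR1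
  have : CompletelyRegularSpace (OnePoint ℕ ⊕ ℕ) := UniformSpace.toCompletelyRegularSpace
  have : T1Space (OnePoint ℕ ⊕ ℕ) := inferInstance
  exact { }

instance t35Y : T35Space Y := by
  let _ : UniformSpace (OnePoint ℕ) := uniformSpaceOfCompactR1
  have : CompletelyRegularSpace (OnePoint ℕ × ℕ) := UniformSpace.toCompletelyRegularSpace
  have : T1Space (OnePoint ℕ × ℕ) := inferInstance
  exact { }

lemma cont_X (f : X → ℝ) : Continuous f ↔
    Tendsto (fun n : ℕ => f (Sum.inl (n : OnePoint ℕ)) - f (Sum.inl ∞)) atTop (𝓝 0) := by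
  rw [continuous_sum_dom]
  constructor
  · rintro ⟨h, -⟩
    have := (continuous_iff_from_nat _).1 h
    have h2 := this.sub_const (f (Sum.inl ∞))
    simpa using h2
  · intro h
    refine ⟨(continuous_iff_from_nat _).2 ?_, continuous_of_discreteTopology⟩
    have h2 := h.add_const (f (Sum.inl ∞))
    simpa using h2

lemma cont_Y (f : Y → ℝ) : Continuous f ↔
    ∀ i : ℕ, Tendsto (fun n : ℕ => f ((n : OnePoint ℕ), i) - f (∞, i)) atTop (𝓝 0) := by
  rw [continuous_prod_of_discrete_right]
  refine forall_congr' fun i => ?_
  constructor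
  · intro h
    have := (continuous_iff_from_nat _).1 h
    have h2 := this.sub_const (f (∞, i))
    simpa using h2
  · intro h
    refine (continuous_iff_from_nat _).2 ?_
    have h2 := h.add_const (f (∞, i))
    simpa using h2

/-- prepend a value to a sequence -/
def cns (a : ℝ) (g : ℕ → ℝ) : ℕ → ℝ
  | 0 => a
  | n + 1 => g n

/-- function on `X` from its coordinates -/
def mkX (y g : ℕ → ℝ) : X → ℝ
  | Sum.inl (OnePoint.infty) => g 0
  | Sum.inl (OnePoint.some n) => y n + g 0
  | Sum.inr n => g (n + 1)

/-- coordinates of a function on `X` -/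
def hX1 : (X → ℝ) ≃ₜ (ℕ → ℝ) × (ℕ → ℝ) where
  toFun f := (fun n => f (Sum.inl (n : OnePoint ℕ)) - f (Sum.inl ∞), cns (f (Sum.inl ∞)) fun n => f (Sum.inr n))
  invFun p := mkX p.1 p.2
  left_inv := by
    intro f
    funext x
    rcases x with x | n
    · induction x using OnePoint.rec with
      | infty => rfl
      | coe n =>
        show (f (Sum.inl (n : OnePoint ℕ)) - f (Sum.inl ∞)) + f (Sum.inl ∞) = _
        ring
    · rfl
  right_inv := by
    rintro ⟨y, g⟩
    refine Prod.ext ?_ ?_
    · funext n
      show (y n + g 0) - g 0 = y n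
      ring
    · funext n
      cases n <;> rfl
  continuous_toFun := by
    refine Continuous.prodMk ?_ ?_
    · exact continuous_pi fun n => (continuous_apply _).sub (continuous_apply _)
    · refine continuous_pi fun n => ?_
      cases n with
      | zero => exact continuous_apply _
      | succ n => exact continuous_apply _
  continuous_invFun := by
    refine continuous_pi fun x => ?_
    rcases x with x | n
    · induction x using OnePoint.rec with
      | infty => exact (continuous_apply 0).comp continuous_snd
      | coe n =>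
        exact ((continuous_apply n).comp continuous_fst).add ((continuous_apply 0).comp continuous_snd)
    · exact (continuous_apply (n + 1)).comp continuous_snd

/-- value at a coordinate of the second block format -/
def pick (x : ℕ → ℝ≥0) (r : ℝ≥0) : ℕ → ℝ≥0
  | 0 => r
  | i + 1 => x i

lemma pick_cont (k : ℕ) : Continuous fun p : (ℕ → ℝ≥0) × ℝ≥0 => pick p.1 p.2 k := by
  cases k with
  | zero => exact continuous_snd
  | succ k => exact (continuous_apply k).comp continuous_fst

/-- regrouping -/
def hX2 : (ℕ → ℝ≥0) × (ℕ → ℝ≥0) ≃ₜ (ℕ → B) where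
  toFun p := fun j => (p.1 j, fun i => p.2 (Nat.pair j (i + 1)), p.2 (Nat.pair j 0))
  invFun w := (fun j => (w j).1, fun m => pick (w (Nat.unpair m).1).2.1 (w (Nat.unpair m).1).2.2 (Nat.unpair m).2)
  left_inv := by
    rintro ⟨s, t⟩
    refine Prod.ext rfl ?_
    funext m
    dsimp only
    have h : ∀ k, pick (fun i => t (Nat.pair (Nat.unpair m).1 (i + 1))) (t (Nat.pair (Nat.unpair m).1 0)) k
        = t (Nat.pair (Nat.unpair m).1 k) := by
      intro k
      cases k <;> rfl
    rw [h, Nat.pair_unpair]
  right_inv := by
    intro w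
    funext j
    refine Prod.ext rfl (Prod.ext ?_ ?_)
    · funext i
      simp only [Nat.unpair_pair]
      rfl
    · simp only [Nat.unpair_pair]
      rfl
  continuous_toFun := by
    refine continuous_pi fun j => ?_
    exact ((continuous_apply j).comp continuous_fst).prodMk
      ((continuous_pi fun i => (continuous_apply _).comp continuous_snd).prodMk
        ((continuous_apply _).comp continuous_snd))
  continuous_invFun := by
    refine Continuous.prodMk ?_ ?_
    · exact continuous_pi fun j => continuous_fst.comp (continuous_apply j)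
    · refine continuous_pi fun m => ?_
      exact (pick_cont _).comp (continuous_snd.comp (continuous_apply _))

/-- homeomorphism of `ℝ^X` onto the block space -/
noncomputable def hX : (X → ℝ) ≃ₜ (ℕ → B) := (hX1.trans (Sh.prodCongr Sh)).trans hX2

lemma hX_iff (f : X → ℝ) : Continuous f ↔ Tendsto (fun j => (hX f j).1) atTop (𝓝 0) := by
  rw [cont_X]
  exact (Sh_tendsto (fun n : ℕ => f (Sum.inl (n : OnePoint ℕ)) - f (Sum.inl ∞))).symm

/-- function on `Y` from its coordinates -/
def mkY (y : ℕ → ℕ → ℝ) (g : ℕ → ℝ) : Y → ℝ
  | (OnePoint.infty, i) => g i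
  | (OnePoint.some n, i) => y i n + g i

/-- coordinates of a function on `Y` -/
def hY1 : (Y → ℝ) ≃ₜ (ℕ → ℕ → ℝ) × (ℕ → ℝ) where
  toFun f := (fun i n => f ((n : OnePoint ℕ), i) - f (∞, i), fun i => f (∞, i))
  invFun p := mkY p.1 p.2
  left_inv := by
    intro f
    funext x
    obtain ⟨x, i⟩ := x
    induction x using OnePoint.rec with
    | infty => rfl
    | coe n =>
      show (f ((n : OnePoint ℕ), i) - f (∞, i)) + f (∞, i) = _
      ring
  right_inv := by
    rintro ⟨y, g⟩
    refine Prod.ext ?_ ?_
    · funext i n
      show (y i n + g i) - g i = y i n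
      ring
    · rfl
  continuous_toFun := by
    refine Continuous.prodMk ?_ ?_
    · exact continuous_pi fun i => continuous_pi fun n => (continuous_apply _).sub (continuous_apply _)
    · exact continuous_pi fun n => continuous_apply _
  continuous_invFun := by
    refine continuous_pi fun x => ?_
    obtain ⟨x, i⟩ := x
    induction x using OnePoint.rec with
    | infty => exact (continuous_apply i).comp continuous_snd
    | coe n =>
      have h1 : Continuous fun p : (ℕ → ℕ → ℝ) × (ℕ → ℝ) => p.1 i n :=
        (continuous_apply n).comp ((continuous_apply i).comp continuous_fst)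
      have h2 : Continuous fun p : (ℕ → ℕ → ℝ) × (ℕ → ℝ) => p.2 i :=
        (continuous_apply i).comp continuous_snd
      exact h1.add h2

/-- regrouping -/
def hY2 : (ℕ → ℕ → ℝ≥0) × (ℕ → ℝ≥0) ≃ₜ (ℕ → B) where
  toFun p := fun j => (p.1 0 j, fun i => p.1 (i + 1) j, p.2 j)
  invFun w := (fun i j => pick (w j).2.1 (w j).1 i, fun j => (w j).2.2)
  left_inv := by
    rintro ⟨s, t⟩
    refine Prod.ext ?_ rfl
    funext i j
    cases i <;> rfl
  right_inv := by
    intro w
    rfl
  continuous_toFun := by
    refine continuous_pi fun j => ?_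
    exact ((continuous_apply j).comp ((continuous_apply 0).comp continuous_fst)).prodMk
      ((continuous_pi fun i => (continuous_apply j).comp ((continuous_apply (i + 1)).comp continuous_fst)).prodMk
        ((continuous_apply _).comp continuous_snd))
  continuous_invFun := by
    refine Continuous.prodMk ?_ ?_
    · refine continuous_pi fun i => continuous_pi fun j => ?_
      exact (pick_cont i).comp ((continuous_fst.comp (continuous_snd.comp (continuous_apply j))).prodMk
        (continuous_fst.comp (continuous_apply j)))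
    · exact continuous_pi fun j => continuous_snd.comp (continuous_snd.comp (continuous_apply j))

/-- homeomorphism of `ℝ^Y` onto the block space -/
noncomputable def hY : (Y → ℝ) ≃ₜ (ℕ → B) :=
  (hY1.trans ((Homeomorph.piCongrRight fun _ => Sh).prodCongr Sh)).trans hY2

lemma hY_iff (f : Y → ℝ) : Continuous f ↔
    Tendsto (fun j => (hY f j).1) atTop (𝓝 0) ∧ ∀ i, Tendsto (fun j => (hY f j).2.1 i) atTop (𝓝 0) := by
  rw [cont_Y]
  have h : ∀ i, Tendsto (fun n : ℕ => f ((n : OnePoint ℕ), i) - f (∞, i)) atTop (𝓝 0) ↔
      Tendsto (Sh (fun n : ℕ => f ((n : OnePoint ℕ), i) - f (∞, i))) atTop (𝓝 0) := fun i =>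
    (Sh_tendsto _).symm
  constructor
  · intro hf
    exact ⟨(h 0).1 (hf 0), fun i => (h (i + 1)).1 (hf (i + 1))⟩
  · rintro ⟨h0, h1⟩ i
    cases i with
    | zero => exact (h 0).2 h0
    | succ i => exact (h (i + 1)).2 (h1 i)

/-- the homeomorphism of `ℝ^X` onto `ℝ^Y` -/
noncomputable def phi : (X → ℝ) ≃ₜ (Y → ℝ) := (hX.trans Psi.symm).trans hY.symm

lemma phi_iff (f : X → ℝ) : Continuous (phi f) ↔ Continuous f := by
  rw [hY_iff, hX_iff]
  have h1 : hY (phi f) = Psi.symm (hX f) := by
    show hY (hY.symm (Psi.symm (hX f))) = _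
    rw [Homeomorph.apply_symm_apply]
  have h2 := Psi_tendsto (hY (phi f))
  have h3 : Psi (hY (phi f)) = hX f := by rw [h1, Homeomorph.apply_symm_apply]
  rw [← h2, h3]

theorem phi_image : phi '' {f : X → ℝ | Continuous f} = {g : Y → ℝ | Continuous g} := by
  ext g
  constructor
  · rintro ⟨f, hf, rfl⟩
    exact (phi_iff f).2 hf
  · intro hg
    refine ⟨phi.symm g, ?_, phi.apply_symm_apply g⟩
    have := phi_iff (phi.symm g)
    rw [phi.apply_symm_apply] at this
    exact this.1 hg

end Pool.Agent.Helper800.AtEq
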