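import Mathlib

set_option autoImplicit false

namespace Pool.Agent.Helper800.Cons

open Topology Set

/-- Scott-open families of open sets. -/
structure ScottOpen {X : Type} [TopologicalSpace X] (F : Set (Set X)) : Prop where
  isOpen : ∀ U ∈ F, IsOpen U
  upper : ∀ U ∈ F, ∀ V : Set X, IsOpen V → U ⊆ V → V ∈ F
  directed : ∀ D : Set (Set X), D.Nonempty → DirectedOn (· ⊆ ·) D → (∀ U ∈ D, IsOpen U) →
    ⋃₀ D ∈ F → ∃ U ∈ D, U ∈ F

/-- Consonance. -/
def Cons (X : Type) [TopologicalSpace X] : Prop :=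
  ∀ F : Set (Set X), ScottOpen F → ∀ U ∈ F, ∃ K : Set X, IsCompact K ∧ K ⊆ U ∧
    ∀ V : Set X, IsOpen V → K ⊆ V → V ∈ F

theorem ScottOpen.comap {X Y : Type} [TopologicalSpace X] [TopologicalSpace Y]
    {F : Set (Set X)} (hF : ScottOpen F) (B : Set Y → Set X) (hB : ∀ V, IsOpen V → IsOpen (B V))
    (hm : ∀ V V', V ⊆ V' → B V ⊆ B V')
    (hu : ∀ D : Set (Set Y), D.Nonempty → B (⋃₀ D) ⊆ ⋃₀ (B '' D)) :
    ScottOpen {V : Set Y | IsOpen V ∧ B V ∈ F} where
  isOpen := fun U hU => hU.1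
  upper := fun U hU V hV hUV => ⟨hV, hF.upper _ hU.2 _ (hB V hV) (hm _ _ hUV)⟩
  directed := by
    intro D hne hdir hop hmem
    have hopB : ∀ U ∈ B '' D, IsOpen U := by
      rintro _ ⟨V, hV, rfl⟩
      exact hB V (hop V hV)
    have h1 : ⋃₀ (B '' D) ∈ F := hF.upper _ hmem.2 _ (isOpen_sUnion hopB) (hu D hne)
    have h2 : DirectedOn (· ⊆ ·) (B '' D) := by
      rintro _ ⟨V, hV, rfl⟩ _ ⟨V', hV', rfl⟩
      obtain ⟨V'', hV'', h3, h4⟩ := hdir V hV V' hV'
      exact ⟨B V'', ⟨V'', hV'', rfl⟩, hm _ _ h3, hm _ _ h4⟩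
    obtain ⟨_, ⟨V, hV, rfl⟩, h5⟩ := hF.directed _ (hne.image B) h2 hopB h1
    exact ⟨V, hV, hop V hV, h5⟩

theorem ScottOpen.push {X Y : Type} [TopologicalSpace X] [TopologicalSpace Y]
    {F : Set (Set X)} (hF : ScottOpen F) (f : X → Y) (hf : Continuous f) :
    ScottOpen {V : Set Y | IsOpen V ∧ f ⁻¹' V ∈ F} := by
  apply hF.comap (fun V => f ⁻¹' V) (fun V hV => hV.preimage hf) (fun V V' h => preimage_mono h)
  intro D _ x hx
  obtain ⟨V, hV, hxV⟩ := hx
  exact ⟨_, ⟨V, hV, rfl⟩, hxV⟩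

theorem cons_of_locallyClosed {S P : Type} [TopologicalSpace S] [TopologicalSpace P]
    (j : S → P) (hj : Continuous j) (hj' : ∀ U : Set S, IsOpen U → ∃ W : Set P, IsOpen W ∧ j ⁻¹' W = U)
    (O C : Set P) (hO : IsOpen O) (hC : IsClosed C) (h1 : ∀ s, j s ∈ O) (h1' : ∀ s, j s ∈ C)
    (h2 : ∀ p ∈ O, p ∈ C → ∃ s, j s = p)
    (hP : Cons P) : Cons S := by
  have hind : IsInducing j := by
    refine ⟨le_antisymm hj.le_induced ?_⟩
    intro U hU
    obtain ⟨W, hW, h⟩ := hj' U hU
    exact ⟨W, hW, h⟩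
  intro F hF U hU
  obtain ⟨W0, hW0, hWU⟩ := hj' U (hF.isOpen U hU)
  have hW : W0 ∩ O ∈ {V : Set P | IsOpen V ∧ j ⁻¹' V ∈ F} := by
    refine ⟨hW0.inter hO, ?_⟩
    have : j ⁻¹' (W0 ∩ O) = U := by
      rw [preimage_inter, hWU]
      ext x
      exact ⟨fun h => h.1, fun h => ⟨h, h1 x⟩⟩
    rw [this]
    exact hU
  obtain ⟨K, hK, hKW, hKV⟩ := hP _ (hF.push j hj) _ hW
  refine ⟨j ⁻¹' (K ∩ C), ?_, ?_, ?_⟩
  · rw [hind.isCompact_preimage_iff]
    · exact hK.inter_right hC
    · rintro p ⟨hp1, hp2⟩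
      obtain ⟨s, hs⟩ := h2 p (hKW hp1).2 hp2
      exact ⟨s, hs⟩
  · intro x hx
    rw [← hWU]
    exact (hKW hx.1).1
  · intro V hV hKV'
    obtain ⟨V0, hV0, hV0V⟩ := hj' V hV
    have h3 := hKV (V0 ∪ Cᶜ) (hV0.union hC.isOpen_compl) (by
      intro p hp
      by_cases hpC : p ∈ C
      · left
        obtain ⟨s, rfl⟩ := h2 p (hKW hp).2 hpC
        have : s ∈ V := hKV' ⟨hp, hpC⟩
        rw [← hV0V] at this
        exact this
      · right; exact hpC)
    have h4 : j ⁻¹' (V0 ∪ Cᶜ) = V := by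
      rw [preimage_union, hV0V]
      ext x
      constructor
      · rintro (h | h)
        · exact h
        · exact absurd (h1' x) h
      · intro h; left; exact h
    rw [← h4]
    exact h3.2

/-! ### Spaces with one limit point -/

/-- The set N x N together with one further point. -/
def Fan (_ : Filter (ℕ × ℕ)) : Type := Option (ℕ × ℕ)

variable {N : Filter (ℕ × ℕ)}

def Fan.inf (N : Filter (ℕ × ℕ)) : Fan N := (none : Option (ℕ × ℕ))
def Fan.pt (N : Filter (ℕ × ℕ)) (x : ℕ × ℕ) : Fan N := some x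

theorem Fan.cases (p : Fan N) : p = Fan.inf N ∨ ∃ x, p = Fan.pt N x := by
  cases p with
  | none => exact Or.inl rfl
  | some a => exact Or.inr ⟨a, rfl⟩

theorem Fan.pt_ne (x : ℕ × ℕ) : Fan.pt N x ≠ Fan.inf N := Option.some_ne_none x

theorem Fan.pt_inj {x y : ℕ × ℕ} (h : Fan.pt N x = Fan.pt N y) : x = y := Option.some_injective _ h

instance (N : Filter (ℕ × ℕ)) : TopologicalSpace (Fan N) where
  IsOpen U := Fan.inf N ∈ U → {x | Fan.pt N x ∈ U} ∈ N
  isOpen_univ := fun _ => Filter.univ_mem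
  isOpen_inter := fun U V hU hV h => Filter.inter_mem (hU h.1) (hV h.2)
  isOpen_sUnion := fun S hS h => by
    obtain ⟨U, hU, hx⟩ := h
    exact Filter.mem_of_superset (hS U hU hx) fun x hx => ⟨U, hU, hx⟩

theorem Fan.isOpen_iff {U : Set (Fan N)} :
    IsOpen U ↔ (Fan.inf N ∈ U → {x | Fan.pt N x ∈ U} ∈ N) := Iff.rfl

theorem Fan.isOpen_pt (x : ℕ × ℕ) : IsOpen ({Fan.pt N x} : Set (Fan N)) := by
  rw [Fan.isOpen_iff]
  intro h
  exact absurd h.symm (Fan.pt_ne x)

theorem Fan.isOpen_of_notMem {U : Set (Fan N)} (h : Fan.inf N ∉ U) : IsOpen U :=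
  fun h' => absurd h' h

theorem Fan.t2 (hN : N ≤ Filter.cofinite) : T2Space (Fan N) := by
  have hop : ∀ x, IsOpen ({Fan.pt N x}ᶜ : Set (Fan N)) := by
    intro x
    rw [Fan.isOpen_iff]
    intro _
    have : {y | Fan.pt N y ∈ ({Fan.pt N x}ᶜ : Set (Fan N))} = {x}ᶜ := by
      ext y
      simp only [mem_ofPred_eq, mem_compl_iff, mem_singleton_iff]
      exact ⟨fun h1 h2 => h1 (h2 ▸ rfl), fun h1 h2 => h1 (Fan.pt_inj h2)⟩
    rw [this]
    exact hN (finite_singleton x).compl_mem_cofinite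
  refine ⟨fun p q hpq => ?_⟩
  rcases Fan.cases p with rfl | ⟨x, rfl⟩
  · rcases Fan.cases q with rfl | ⟨y, rfl⟩
    · exact absurd rfl hpq
    · exact ⟨{Fan.pt N y}ᶜ, {Fan.pt N y}, hop y, Fan.isOpen_pt y, hpq, rfl,
        disjoint_compl_left⟩
  · exact ⟨{Fan.pt N x}, {Fan.pt N x}ᶜ, Fan.isOpen_pt x, hop x, rfl, fun h => hpq h.symm,
      disjoint_compl_right⟩

theorem Fan.isCompact {K : Set (Fan N)} (hK : Fan.inf N ∈ K)
    (h : ∀ V : Set (Fan N), IsOpen V → Fan.inf N ∈ V → (K \ V).Finite) : IsCompact K := by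
  rw [isCompact_iff_ultrafilter_le_nhds]
  intro f hf
  by_cases hle : (f : Filter (Fan N)) ≤ 𝓝 (Fan.inf N)
  · exact ⟨Fan.inf N, hK, hle⟩
  · rw [(nhds_basis_opens (Fan.inf N)).ge_iff] at hle
    push Not at hle
    obtain ⟨V, ⟨hV1, hV2⟩, hV3⟩ := hle
    have h1 : K ∈ (f : Filter (Fan N)) := Filter.le_principal_iff.1 hf
    have h2 : Vᶜ ∈ (f : Filter (Fan N)) := by
      exact Ultrafilter.compl_mem_iff_notMem.2 hV3
    have h3 : K \ V ∈ f := Filter.inter_mem h1 h2
    obtain ⟨x, hx, hfx⟩ := Ultrafilter.eq_pure_of_finite_mem (h V hV2 hV1) h3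
    refine ⟨x, hx.1, ?_⟩
    rw [hfx]
    exact pure_le_nhds x

theorem Fan.compact_case_finite {F : Set (Set (Fan N))} (hF : ScottOpen F) {U : Set (Fan N)}
    (hU : U ∈ F) (hinf : Fan.inf N ∉ U) :
    ∃ K : Set (Fan N), IsCompact K ∧ K ⊆ U ∧ ∀ V : Set (Fan N), IsOpen V → K ⊆ V → V ∈ F := by
  have h1 : ∃ T ∈ {T : Set (Fan N) | T.Finite ∧ T ⊆ U}, T ∈ F := by
    apply hF.directed
    · exact ⟨∅, finite_empty, empty_subset _⟩
    · rintro S ⟨hS1, hS2⟩ T ⟨hT1, hT2⟩
      exact ⟨S ∪ T, ⟨hS1.union hT1, union_subset hS2 hT2⟩, subset_union_left, subset_union_right⟩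
    · rintro T ⟨hT1, hT2⟩
      exact Fan.isOpen_of_notMem fun h => hinf (hT2 h)
    · have : ⋃₀ {T : Set (Fan N) | T.Finite ∧ T ⊆ U} = U := by
        apply Subset.antisymm
        · exact sUnion_subset fun T hT => hT.2
        · intro x hx
          exact ⟨{x}, ⟨finite_singleton x, singleton_subset_iff.2 hx⟩, rfl⟩
      rw [this]
      exact hU
  obtain ⟨T, ⟨hT1, hT2⟩, hT⟩ := h1
  exact ⟨T, hT1.isCompact, hT2, fun V hV hTV => hF.upper T hT V hV hTV⟩

/-- Neighbourhood filter of the metric fan. -/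
def NM : Filter (ℕ × ℕ) := Filter.comap Prod.fst Filter.atTop

/-- Neighbourhood filter of the sequential fan. -/
def NS : Filter (ℕ × ℕ) := ⨆ i : ℕ, Filter.map (fun j => (i, j)) Filter.atTop

theorem mem_NM {s : Set (ℕ × ℕ)} : s ∈ NM ↔ ∃ k, ∀ i j, k ≤ i → (i, j) ∈ s := by
  unfold NM
  rw [Filter.mem_comap]
  constructor
  · rintro ⟨t, ht, hts⟩
    obtain ⟨k, hk⟩ := Filter.mem_atTop_sets.1 ht
    exact ⟨k, fun i j hi => hts (hk i hi)⟩
  · rintro ⟨k, hk⟩
    exact ⟨Ici k, Filter.mem_atTop k, fun x hx => hk x.1 x.2 hx⟩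

theorem mem_NS {s : Set (ℕ × ℕ)} : s ∈ NS ↔ ∀ i, ∃ m, ∀ j, m ≤ j → (i, j) ∈ s := by
  unfold NS
  rw [Filter.mem_iSup]
  constructor
  · intro h i
    have := h i
    rw [Filter.mem_map, Filter.mem_atTop_sets] at this
    exact this
  · intro h i
    rw [Filter.mem_map, Filter.mem_atTop_sets]
    exact h i

theorem NM_le : NM ≤ Filter.cofinite := by
  intro s hs
  rw [Filter.mem_cofinite] at hs
  rw [mem_NM]
  obtain ⟨B, hB⟩ := (hs.image Prod.fst).bddAbove
  refine ⟨B + 1, fun i j hi => ?_⟩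
  by_contra h
  have := hB ⟨(i, j), h, rfl⟩
  simp at this
  omega

theorem NS_le : NS ≤ Filter.cofinite := by
  intro s hs
  rw [Filter.mem_cofinite] at hs
  rw [mem_NS]
  intro i
  obtain ⟨B, hB⟩ := (hs.image Prod.snd).bddAbove
  refine ⟨B + 1, fun j hj => ?_⟩
  by_contra h
  have := hB ⟨(i, j), h, rfl⟩
  simp at this
  omega

instance : T2Space (Fan NM) := Fan.t2 NM_le
instance : T2Space (Fan NS) := Fan.t2 NS_le

/-- The metric fan is consonant. -/
theorem cons_M : Cons (Fan NM) := by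
  intro F hF U hU
  by_cases hinf : Fan.inf NM ∈ U
  swap
  · exact Fan.compact_case_finite hF hU hinf
  -- one step
  let cut (T : Set (Fan NM)) (i m : ℕ) : Set (Fan NM) := T \ {p | ∃ j, m < j ∧ p = Fan.pt NM (i, j)}
  have hinfcut : ∀ T i m, Fan.inf NM ∈ T → Fan.inf NM ∈ cut T i m := by
    intro T i m h
    refine ⟨h, ?_⟩
    rintro ⟨j, -, hj⟩
    exact Fan.pt_ne _ hj.symm
  have hopen : ∀ T i m, IsOpen T → Fan.inf NM ∈ T → IsOpen (cut T i m) := by
    intro T i m hT hTi
    rw [Fan.isOpen_iff]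
    intro _
    rw [mem_NM]
    obtain ⟨k, hk⟩ := mem_NM.1 (hT hTi)
    refine ⟨max k (i + 1), fun i' j' h => ⟨hk i' j' (le_trans (le_max_left _ _) h), ?_⟩⟩
    rintro ⟨j, -, hj⟩
    have h2 := Fan.pt_inj hj
    have h3 : i' = i := congrArg Prod.fst h2
    have h4 := le_trans (le_max_right k (i+1)) h
    omega
  have step : ∀ (T : {T : Set (Fan NM) // T ∈ F ∧ Fan.inf NM ∈ T}) (i : ℕ),
      ∃ m, cut T.1 i m ∈ F := by
    rintro ⟨T, hT, hTi⟩ i
    have h1 : ∃ S ∈ range (fun m => cut T i m), S ∈ F := by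
      apply hF.directed
      · exact ⟨_, ⟨0, rfl⟩⟩
      · rintro _ ⟨m, rfl⟩ _ ⟨m', rfl⟩
        refine ⟨_, ⟨max m m', rfl⟩, ?_, ?_⟩
        · rintro p ⟨hp1, hp2⟩
          refine ⟨hp1, ?_⟩
          rintro ⟨j, hj, rfl⟩
          exact hp2 ⟨j, lt_of_le_of_lt (le_max_left _ _) hj, rfl⟩
        · rintro p ⟨hp1, hp2⟩
          refine ⟨hp1, ?_⟩
          rintro ⟨j, hj, rfl⟩
          exact hp2 ⟨j, lt_of_le_of_lt (le_max_right _ _) hj, rfl⟩
      · rintro _ ⟨m, rfl⟩
        exact hopen T i m (hF.isOpen T hT) hTi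
      · have : ⋃₀ range (fun m => cut T i m) = T := by
          apply Subset.antisymm
          · apply sUnion_subset
            rintro _ ⟨m, rfl⟩
            exact sdiff_subset
          · intro p hp
            rcases Fan.cases p with rfl | ⟨⟨i', j'⟩, rfl⟩
            · exact ⟨_, ⟨0, rfl⟩, hinfcut T i 0 hp⟩
            · refine ⟨_, ⟨j', rfl⟩, hp, ?_⟩
              rintro ⟨j, hj, hj2⟩
              have := congrArg Prod.snd (Fan.pt_inj hj2)
              simp at this
              omega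
        rw [this]
        exact hT
    obtain ⟨_, ⟨m, rfl⟩, hm⟩ := h1
    exact ⟨m, hm⟩
  choose m hm using step
  let T : ℕ → {T : Set (Fan NM) // T ∈ F ∧ Fan.inf NM ∈ T} := fun n =>
    Nat.rec ⟨U, hU, hinf⟩ (fun i T => ⟨cut T.1 i (m T i), hm T i, hinfcut _ _ _ T.2.2⟩) n
  have hT0 : (T 0).1 = U := rfl
  have hTs : ∀ n, (T (n+1)).1 = cut (T n).1 n (m (T n) n) := fun n => rfl
  have hanti : ∀ n k, (T (n + k)).1 ⊆ (T n).1 := by
    intro n k
    induction k with
    | zero => exact Subset.rfl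
    | succ k ih =>
      have : (T (n + (k + 1))).1 ⊆ (T (n + k)).1 := by
        rw [← add_assoc, hTs]
        exact sdiff_subset
      exact this.trans ih
  have hmemT : ∀ n (p : Fan NM), p ∈ U → (∀ i, i < n → ∀ j, m (T i) i < j → p ≠ Fan.pt NM (i, j)) →
      p ∈ (T n).1 := by
    intro n
    induction n with
    | zero => intro p hp _; exact hp
    | succ n ih =>
      intro p hp h
      rw [hTs]
      refine ⟨ih p hp fun i hi => h i (Nat.lt_succ_of_lt hi), ?_⟩
      rintro ⟨j, hj, hj2⟩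
      exact h n (Nat.lt_succ_self n) j hj hj2
  refine ⟨⋂ n, (T n).1, ?_, ?_, ?_⟩
  · apply Fan.isCompact
    · exact mem_iInter.2 fun n => (T n).2.2
    · intro V hV hVi
      obtain ⟨k, hk⟩ := mem_NM.1 (hV hVi)
      have : (⋂ n, (T n).1) \ V ⊆ ⋃ i ∈ Finset.range k, ⋃ j ∈ Finset.range (m (T i) i + 1),
          {Fan.pt NM (i, j)} := by
        rintro p ⟨hp1, hp2⟩
        rcases Fan.cases p with rfl | ⟨⟨i, j⟩, rfl⟩
        · exact absurd hVi hp2
        · have hi : i < k := by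
            by_contra hcon
            exact hp2 (hk i j (not_lt.1 hcon))
          have hj : j < m (T i) i + 1 := by
            by_contra hcon
            have h1 := mem_iInter.1 hp1 (i + 1)
            rw [hTs] at h1
            exact h1.2 ⟨j, by omega, rfl⟩
          simp only [mem_iUnion, Finset.mem_range, mem_singleton_iff]
          exact ⟨i, hi, j, hj, rfl⟩
      refine Finite.subset ?_ this
      apply Set.Finite.biUnion (Finset.finite_toSet _)
      intro i _
      apply Set.Finite.biUnion (Finset.finite_toSet _)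
      intro j _
      exact finite_singleton _
  · exact iInter_subset _ 0
  · intro V hV hKV
    have hVi : Fan.inf NM ∈ V := hKV (mem_iInter.2 fun n => (T n).2.2)
    obtain ⟨k, hk⟩ := mem_NM.1 (hV hVi)
    apply hF.upper _ (T k).2.1 V hV
    intro p hp
    rcases Fan.cases p with rfl | ⟨⟨i, j⟩, rfl⟩
    · exact hVi
    · by_cases hi : k ≤ i
      · exact hk i j hi
      · apply hKV
        rw [mem_iInter]
        intro n
        apply hmemT
        · exact hanti 0 k (by simpa using hp)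
        · intro i' hi' j' hj' heq
          have h1 := Fan.pt_inj heq
          simp only [Prod.mk.injEq] at h1
          obtain ⟨rfl, rfl⟩ := h1
          have h2 : (T k).1 ⊆ (T (i + 1)).1 := by
            have : k = (i + 1) + (k - (i + 1)) := by omega
            rw [this]
            exact hanti _ _
          have h3 := h2 hp
          rw [hTs] at h3
          exact h3.2 ⟨j, hj', rfl⟩

/-- The sequential fan is consonant. -/
theorem cons_S : Cons (Fan NS) := by
  intro F hF U hU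
  by_cases hinf : Fan.inf NS ∈ U
  swap
  · exact Fan.compact_case_finite hF hU hinf
  let K : ℕ → Set (Fan NS) := fun n => {p | p = Fan.inf NS ∨ p ∈ U ∧ ∃ i j, i < n ∧ p = Fan.pt NS (i, j)}
  have hKc : ∀ n, IsCompact (K n) := by
    intro n
    apply Fan.isCompact
    · exact Or.inl rfl
    · intro V hV hVi
      have h1 := mem_NS.1 (hV hVi)
      choose m hm using h1
      have : K n \ V ⊆ ⋃ i ∈ Finset.range n, ⋃ j ∈ Finset.range (m i), {Fan.pt NS (i, j)} := by
        rintro p ⟨hp1, hp2⟩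
        rcases hp1 with rfl | ⟨-, i, j, hi, rfl⟩
        · exact absurd hVi hp2
        · simp only [mem_iUnion, Finset.mem_range, mem_singleton_iff]
          refine ⟨i, hi, j, ?_, rfl⟩
          by_contra hcon
          exact hp2 (hm i j (not_lt.1 hcon))
      refine Finite.subset ?_ this
      apply Set.Finite.biUnion (Finset.finite_toSet _)
      intro i _
      apply Set.Finite.biUnion (Finset.finite_toSet _)
      intro j _
      exact finite_singleton _
  have hKU : ∀ n, K n ⊆ U := by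
    rintro n p (rfl | ⟨h, -⟩)
    · exact hinf
    · exact h
  by_contra hcon
  push Not at hcon
  choose W hWo hKW hWF using fun n => hcon (K n) (hKc n) (hKU n)
  let V : ℕ → Set (Fan NS) := fun n => {p | p ∈ U ∧ ∀ m, n ≤ m → p ∈ W m}
  have hVo : ∀ n, IsOpen (V n) := by
    intro n
    rw [Fan.isOpen_iff]
    intro _
    rw [mem_NS]
    intro i
    obtain ⟨m0, hm0⟩ := mem_NS.1 (hF.isOpen U hU hinf) i
    have hW : ∀ l, Fan.inf NS ∈ W l := fun l => hKW l (Or.inl rfl)
    choose mm hmm using fun l => mem_NS.1 (hWo l (hW l)) i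
    refine ⟨m0 + ∑ l ∈ Finset.range (i + 1), mm l, fun j hj => ⟨hm0 j (by omega), ?_⟩⟩
    intro m hm
    by_cases hmi : i < m
    · exact hKW m (Or.inr ⟨hm0 j (by omega), i, j, hmi, rfl⟩)
    · apply hmm m j
      have : mm m ≤ ∑ l ∈ Finset.range (i + 1), mm l :=
        Finset.single_le_sum (f := mm) (fun _ _ => Nat.zero_le _) (Finset.mem_range.2 (by omega))
      omega
  have h1 : ∃ S ∈ range V, S ∈ F := by
    apply hF.directed
    · exact ⟨_, ⟨0, rfl⟩⟩
    · rintro _ ⟨n, rfl⟩ _ ⟨n', rfl⟩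
      refine ⟨_, ⟨max n n', rfl⟩, ?_, ?_⟩
      · rintro p ⟨hp1, hp2⟩
        exact ⟨hp1, fun m hm => hp2 m (le_trans (le_max_left _ _) hm)⟩
      · rintro p ⟨hp1, hp2⟩
        exact ⟨hp1, fun m hm => hp2 m (le_trans (le_max_right _ _) hm)⟩
    · rintro _ ⟨n, rfl⟩
      exact hVo n
    · have : ⋃₀ range V = U := by
        apply Subset.antisymm
        · apply sUnion_subset
          rintro _ ⟨n, rfl⟩ p hp
          exact hp.1
        · intro p hp
          rcases Fan.cases p with rfl | ⟨⟨i, j⟩, rfl⟩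
          · exact ⟨_, ⟨0, rfl⟩, hp, fun m _ => hKW m (Or.inl rfl)⟩
          · exact ⟨_, ⟨i + 1, rfl⟩, hp, fun m hm => hKW m (Or.inr ⟨hp, i, j, by omega, rfl⟩)⟩
      rw [this]
      exact hU
  obtain ⟨_, ⟨n, rfl⟩, hn⟩ := h1
  exact hWF n (hF.upper _ hn _ (hWo n) fun p hp => hp.2 n le_rfl)

/-! ### The sum is not consonant -/

/-- The family on the sum. -/
def FF : Set (Set (Fan NM ⊕ Fan NS)) :=
  {W | IsOpen W ∧ Sum.inl (Fan.inf NM) ∈ W ∧ Sum.inr (Fan.inf NS) ∈ W ∧
    ∃ g : ℕ → ℕ, (∀ i j, j ≤ g i → Sum.inl (Fan.pt NM (i, j)) ∈ W) ∧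
      ∀ i j, g i ≤ j → Sum.inr (Fan.pt NS (i, j)) ∈ W}

theorem FF_scott : ScottOpen FF where
  isOpen := fun U hU => hU.1
  upper := by
    rintro U ⟨hU, h1, h2, g, hg1, hg2⟩ V hV hUV
    exact ⟨hV, hUV h1, hUV h2, g, fun i j h => hUV (hg1 i j h), fun i j h => hUV (hg2 i j h)⟩
  directed := by
    rintro D hne hdir hop ⟨hU, ⟨D0, hD0, h1⟩, ⟨D1, hD1, h2⟩, g, hg1, hg2⟩
    obtain ⟨D2, hD2, hD02, hD12⟩ := hdir D0 hD0 D1 hD1
    have h1' : Sum.inl (Fan.inf NM) ∈ D2 := hD02 h1
    have h2' : Sum.inr (Fan.inf NS) ∈ D2 := hD12 h2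
    obtain ⟨k, hk⟩ := mem_NM.1 ((isOpen_sum_iff.1 (hop D2 hD2)).1 h1')
    choose mm hmm using mem_NS.1 ((isOpen_sum_iff.1 (hop D2 hD2)).2 h2')
    let P : Set (Fan NM ⊕ Fan NS) :=
      (⋃ i ∈ Finset.range k, ⋃ j ∈ Finset.range (g i + 1), {Sum.inl (Fan.pt NM (i, j))}) ∪
      (⋃ i ∈ Finset.range k, ⋃ j ∈ (Finset.range (mm i)).filter (fun j => g i ≤ j),
        {Sum.inr (Fan.pt NS (i, j))})
    have hPfin : P.Finite := by
      apply Set.Finite.union
      · apply Set.Finite.biUnion (Finset.finite_toSet _)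
        intro i _
        apply Set.Finite.biUnion (Finset.finite_toSet _)
        intro j _
        exact finite_singleton _
      · apply Set.Finite.biUnion (Finset.finite_toSet _)
        intro i _
        apply Set.Finite.biUnion (Finset.finite_toSet _)
        intro j _
        exact finite_singleton _
    have hPD : P ⊆ ⋃₀ D := by
      rintro p (hp | hp)
      · simp only [mem_iUnion, Finset.mem_range, mem_singleton_iff] at hp
        obtain ⟨i, hi, j, hj, rfl⟩ := hp
        exact hg1 i j (by omega)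
      · simp only [mem_iUnion, Finset.mem_range, Finset.mem_filter, mem_singleton_iff] at hp
        obtain ⟨i, hi, j, ⟨hj1, hj2⟩, rfl⟩ := hp
        exact hg2 i j hj2
    obtain ⟨D3, hD3, hPD3⟩ :=
      DirectedOn.exists_mem_subset_of_finite_of_subset_sUnion hne hdir hPfin hPD
    obtain ⟨D4, hD4, hD24, hD34⟩ := hdir D2 hD2 D3 hD3
    refine ⟨D4, hD4, hop D4 hD4, hD24 h1', hD24 h2', fun i => if i < k then g i else mm i, ?_, ?_⟩
    · intro i j hj
      dsimp only at hj
      by_cases hi : i < k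
      · rw [if_pos hi] at hj
        apply hD34
        apply hPD3
        left
        simp only [mem_iUnion, Finset.mem_range, mem_singleton_iff]
        exact ⟨i, hi, j, by omega, rfl⟩
      · exact hD24 (hk i j (not_lt.1 hi))
    · intro i j hj
      dsimp only at hj
      by_cases hi : i < k
      · rw [if_pos hi] at hj
        by_cases hj2 : j < mm i
        · apply hD34
          apply hPD3
          right
          simp only [mem_iUnion, Finset.mem_range, Finset.mem_filter, mem_singleton_iff]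
          exact ⟨i, hi, j, ⟨hj2, hj⟩, rfl⟩
        · exact hD24 (hmm i j (not_lt.1 hj2))
      · rw [if_neg hi] at hj
        exact hD24 (hmm i j hj)

theorem not_cons_sum : ¬ Cons (Fan NM ⊕ Fan NS) := by
  intro H
  have huniv : (univ : Set (Fan NM ⊕ Fan NS)) ∈ FF :=
    ⟨isOpen_univ, trivial, trivial, fun _ => 0, fun _ _ _ => trivial, fun _ _ _ => trivial⟩
  obtain ⟨K, hK, -, hKV⟩ := H FF FF_scott univ huniv
  -- some column of the sequential fan is missed
  have h1 : ∃ n, ∀ j, Sum.inr (Fan.pt NS (n, j)) ∉ K := by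
    by_contra hcon
    push Not at hcon
    choose jj hjj using hcon
    let O : ℕ → Set (Fan NM ⊕ Fan NS) := fun k => {x | ∀ n, k ≤ n → x ≠ Sum.inr (Fan.pt NS (n, jj n))}
    obtain ⟨k, hk⟩ := hK.elim_directed_cover O (by
      intro k
      rw [isOpen_sum_iff]
      constructor
      · have : (Sum.inl ⁻¹' O k : Set (Fan NM)) = univ := by
          ext x
          simp [O]
        rw [this]
        exact isOpen_univ
      · rw [Fan.isOpen_iff]
        intro _
        rw [mem_NS]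
        intro i
        refine ⟨jj i + 1, fun j hj => ?_⟩
        intro n _ heq
        have h2 := Fan.pt_inj (Sum.inr_injective heq)
        simp only [Prod.mk.injEq] at h2
        obtain ⟨rfl, rfl⟩ := h2
        omega) (by
      intro x _
      rw [mem_iUnion]
      rcases x with x | x
      · exact ⟨0, fun n _ => by simp⟩
      · rcases Fan.cases x with rfl | ⟨⟨i, j⟩, rfl⟩
        · exact ⟨0, fun n _ h => Fan.pt_ne _ (Sum.inr_injective h).symm⟩
        · refine ⟨i + 1, fun n hn h => ?_⟩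
          have h2 := Fan.pt_inj (Sum.inr_injective h)
          simp only [Prod.mk.injEq] at h2
          omega) (by
      intro a b
      exact ⟨max a b, fun x hx n hn => hx n (le_trans (le_max_left _ _) hn),
        fun x hx n hn => hx n (le_trans (le_max_right _ _) hn)⟩)
    exact hk (hjj k) k le_rfl rfl
  obtain ⟨n, hn⟩ := h1
  -- the same column of the metric fan is bounded
  have h2 : ∃ b, ∀ j, Sum.inl (Fan.pt NM (n, j)) ∈ K → j < b := by
    let O : ℕ → Set (Fan NM ⊕ Fan NS) := fun k => {x | ∀ j, k ≤ j → x ≠ Sum.inl (Fan.pt NM (n, j))}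
    obtain ⟨k, hk⟩ := hK.elim_directed_cover O (by
      intro k
      rw [isOpen_sum_iff]
      constructor
      · rw [Fan.isOpen_iff]
        intro _
        rw [mem_NM]
        refine ⟨n + 1, fun i j hi => ?_⟩
        intro j' _ heq
        have h2 := Fan.pt_inj (Sum.inl_injective heq)
        simp only [Prod.mk.injEq] at h2
        omega
      · have : (Sum.inr ⁻¹' O k : Set (Fan NS)) = univ := by
          ext x
          simp [O]
        rw [this]
        exact isOpen_univ) (by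
      intro x _
      rw [mem_iUnion]
      rcases x with x | x
      · rcases Fan.cases x with rfl | ⟨⟨i, j⟩, rfl⟩
        · exact ⟨0, fun n _ h => Fan.pt_ne _ (Sum.inl_injective h).symm⟩
        · refine ⟨j + 1, fun j' hj' h => ?_⟩
          have h2 := Fan.pt_inj (Sum.inl_injective h)
          simp only [Prod.mk.injEq] at h2
          omega
      · exact ⟨0, fun n _ => by simp⟩) (by
      intro a b
      exact ⟨max a b, fun x hx n hn => hx n (le_trans (le_max_left _ _) hn),
        fun x hx n hn => hx n (le_trans (le_max_right _ _) hn)⟩)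
    refine ⟨k, fun j hj => ?_⟩
    by_contra hcon
    exact hk hj j (not_lt.1 hcon) rfl
  obtain ⟨b, hb⟩ := h2
  let V : Set (Fan NM ⊕ Fan NS) := {x | (∀ j, b ≤ j → x ≠ Sum.inl (Fan.pt NM (n, j))) ∧
    ∀ j, j < b → x ≠ Sum.inr (Fan.pt NS (n, j))}
  have hVo : IsOpen V := by
    rw [isOpen_sum_iff]
    constructor
    · rw [Fan.isOpen_iff]
      intro _
      rw [mem_NM]
      refine ⟨n + 1, fun i j hi => ⟨?_, ?_⟩⟩
      · intro j' _ heq
        have h2 := Fan.pt_inj (Sum.inl_injective heq)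
        simp only [Prod.mk.injEq] at h2
        omega
      · intro j' _
        simp
    · rw [Fan.isOpen_iff]
      intro _
      rw [mem_NS]
      intro i
      refine ⟨b, fun j hj => ⟨?_, ?_⟩⟩
      · intro j' _
        simp
      · intro j' hj' heq
        have h2 := Fan.pt_inj (Sum.inr_injective heq)
        simp only [Prod.mk.injEq] at h2
        omega
  have hKV' : K ⊆ V := by
    intro x hx
    refine ⟨?_, ?_⟩
    · rintro j hj rfl
      have := hb j hx
      omega
    · rintro j hj rfl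
      exact hn j hx
  obtain ⟨-, -, -, g, hg1, hg2⟩ := hKV V hVo hKV'
  have h3 := (hg1 n (g n) le_rfl).1
  have h4 := (hg2 n (g n) le_rfl).2
  by_cases hgb : b ≤ g n
  · exact h3 (g n) hgb rfl
  · exact h4 (g n) (not_le.1 hgb) rfl

end Pool.Agent.Helper800.Cons
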