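import Pool.Agent.Helper800.ConsL

set_option autoImplicit false

namespace Pool.Agent.Helper800.ConsH

open Topology Set Pool.Agent.Helper800.Cons Pool.Agent.Helper800.ConsL

/-- Nonempty closed subsets. -/
def PH (X : Type) [TopologicalSpace X] : Type := {C : Set X // IsClosed C ∧ C.Nonempty}

def dia {X : Type} [TopologicalSpace X] (U : Set X) : Set (PH X) := {C | (C.1 ∩ U).Nonempty}

instance tPH (X : Type) [TopologicalSpace X] : TopologicalSpace (PH X) :=
  TopologicalSpace.generateFrom {S | ∃ U : Set X, IsOpen U ∧ S = dia U}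

theorem isOpen_dia {X : Type} [TopologicalSpace X] {U : Set X} (hU : IsOpen U) :
    IsOpen (dia U) := TopologicalSpace.isOpen_generateFrom_of_mem ⟨U, hU, rfl⟩

variable {Y1 Y2 : Type} [TopologicalSpace Y1] [TopologicalSpace Y2] [T2Space Y1] [T2Space Y2]

def f1 (y : Y1) : PH (L Y1 Y2) := ⟨{x | match x with
    | L.a => False
    | L.l y' => y' = y
    | L.r _ => True}, by
  constructor
  · rw [← isOpen_compl_iff]
    have : ({x : L Y1 Y2 | match x with
      | L.a => False
      | L.l y' => y' = y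
      | L.r _ => True}ᶜ : Set (L Y1 Y2)) = up True {y}ᶜ := by
      ext x
      cases x with
      | a => exact ⟨fun _ => trivial, fun _ h => h⟩
      | l y => exact Iff.rfl
      | r z => exact ⟨fun h => h trivial, fun h => h.elim⟩
    rw [this]
    exact isOpen_up isOpen_compl_singleton
  · exact ⟨L.l y, rfl⟩⟩

def f2 (z : Y2) : PH (L Y1 Y2) := ⟨{x | match x with
    | L.a => True
    | L.l _ => False
    | L.r z' => z' = z}, by
  constructor
  · rw [← isOpen_compl_iff]
    have : ({x : L Y1 Y2 | match x with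
      | L.a => True
      | L.l _ => False
      | L.r z' => z' = z}ᶜ : Set (L Y1 Y2)) = lo False {z}ᶜ := by
      ext x
      cases x with
      | a => exact ⟨fun h => h trivial, fun h => h.elim⟩
      | l y => exact ⟨fun _ => trivial, fun _ h => h⟩
      | r z => exact Iff.rfl
    rw [this]
    exact isOpen_lo isOpen_compl_singleton
  · exact ⟨L.r z, rfl⟩⟩

theorem f1_dia (y : Y1) (U : Set (L Y1 Y2)) :
    (f1 y : PH (L Y1 Y2)) ∈ dia U ↔ (L.l y ∈ U ∨ ∃ z, L.r z ∈ U) := by
  constructor
  · rintro ⟨x, hx, hxU⟩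
    cases x with
    | a => exact hx.elim
    | l y' => left; rw [← show y' = y from hx]; exact hxU
    | r z => right; exact ⟨z, hxU⟩
  · rintro (h | ⟨z, h⟩)
    · exact ⟨L.l y, rfl, h⟩
    · exact ⟨L.r z, trivial, h⟩

theorem f2_dia (z : Y2) (U : Set (L Y1 Y2)) :
    (f2 z : PH (L Y1 Y2)) ∈ dia U ↔ (L.r z ∈ U ∨ L.a ∈ U) := by
  constructor
  · rintro ⟨x, hx, hxU⟩
    cases x with
    | a => right; exact hxU
    | l y' => exact hx.elim
    | r z' => left; rw [← show z' = z from hx]; exact hxU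
  · rintro (h | h)
    · exact ⟨L.r z, rfl, h⟩
    · exact ⟨L.a, trivial, h⟩

def j : Y1 ⊕ Y2 → PH (L Y1 Y2) := Sum.elim f1 f2

theorem continuous_j : Continuous (j : Y1 ⊕ Y2 → PH (L Y1 Y2)) := by
  apply continuous_generateFrom_iff.2
  rintro _ ⟨U, hU, rfl⟩
  rw [isOpen_sum_iff]
  constructor
  · have : (Sum.inl ⁻¹' (j ⁻¹' (dia U : Set (PH (L Y1 Y2)))) : Set Y1) =
        (L.l ⁻¹' U) ∪ {_y | ∃ z : Y2, L.r z ∈ U} := by
      ext y
      exact f1_dia y U
    rw [this]
    exact hU.1.union isOpen_const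
  · have : (Sum.inr ⁻¹' (j ⁻¹' (dia U : Set (PH (L Y1 Y2)))) : Set Y2) =
        (L.r ⁻¹' U) ∪ {_z | L.a ∈ U} := by
      ext z
      exact f2_dia z U
    rw [this]
    exact hU.2.1.union isOpen_const

/-- The open set of the hyperspace that corresponds to a pair of open sets. -/
def big (U1 : Set Y1) (U2 : Set Y2) : Set (PH (L Y1 Y2)) :=
  dia (up False U1) ∪ (dia (lo False U2) ∩ dia (up True ∅))

theorem isOpen_big {U1 : Set Y1} {U2 : Set Y2} (h1 : IsOpen U1) (h2 : IsOpen U2) :
    IsOpen (big U1 U2) :=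
  (isOpen_dia (isOpen_up h1)).union
    ((isOpen_dia (isOpen_lo h2)).inter (isOpen_dia (isOpen_up isOpen_empty)))

theorem f1_big (y : Y1) (U1 : Set Y1) (U2 : Set Y2) :
    (f1 y : PH (L Y1 Y2)) ∈ big U1 U2 ↔ y ∈ U1 := by
  constructor
  · rintro (h | ⟨-, h⟩)
    · rcases (f1_dia y _).1 h with h | ⟨z, h⟩
      · exact h
      · exact h.elim
    · rcases (f1_dia y _).1 h with h | ⟨z, h⟩
      · exact h.elim
      · exact h.elim
  · intro h
    exact Or.inl ((f1_dia y _).2 (Or.inl h))

theorem f2_big (z : Y2) (U1 : Set Y1) (U2 : Set Y2) :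
    (f2 z : PH (L Y1 Y2)) ∈ big U1 U2 ↔ z ∈ U2 := by
  constructor
  · rintro (h | ⟨h, -⟩)
    · rcases (f2_dia z _).1 h with h | h
      · exact h.elim
      · exact h.elim
    · rcases (f2_dia z _).1 h with h | h
      · exact h
      · exact h.elim
  · intro h
    exact Or.inr ⟨(f2_dia z _).2 (Or.inl h), (f2_dia z _).2 (Or.inr trivial)⟩

/-- The closed set. -/
def CC : Set (PH (L Y1 Y2)) :=
  {A | L.a ∉ A.1 ∧ ∀ y y' : Y1, L.l y ∈ A.1 → L.l y' ∈ A.1 → y = y'} ∪
  {A | (∀ y : Y1, L.l y ∉ A.1) ∧ ∀ z z' : Y2, L.r z ∈ A.1 → L.r z' ∈ A.1 → z = z'}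

theorem isClosed_CC : IsClosed (CC : Set (PH (L Y1 Y2))) := by
  apply IsClosed.union
  · rw [← isOpen_compl_iff, isOpen_iff_forall_mem_open]
    intro A hA
    by_cases ha : L.a ∈ A.1
    · refine ⟨dia (up True ∅), ?_, isOpen_dia (isOpen_up isOpen_empty), ⟨L.a, ha, trivial⟩⟩
      rintro B ⟨x, hx, hx2⟩ hB
      cases x with
      | a => exact hB.1 hx
      | l y => exact hx2.elim
      | r z => exact hx2.elim
    · have hA2 : ¬ (∀ y y' : Y1, L.l y ∈ A.1 → L.l y' ∈ A.1 → y = y') := fun h => hA ⟨ha, h⟩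
      push Not at hA2
      obtain ⟨y, y', hy, hy', hne⟩ := hA2
      obtain ⟨u, v, hu, hv, hyu, hyv, huv⟩ := t2_separation hne
      refine ⟨dia (up False u) ∩ dia (up False v), ?_,
        (isOpen_dia (isOpen_up hu)).inter (isOpen_dia (isOpen_up hv)),
        ⟨L.l y, hy, hyu⟩, ⟨L.l y', hy', hyv⟩⟩
      rintro B ⟨⟨x, hx, hx2⟩, ⟨x', hx', hx2'⟩⟩ hB
      cases x with
      | a => exact hx2.elim
      | r z => exact hx2.elim
      | l w =>
        cases x' with
        | a => exact hx2'.elim
        | r z => exact hx2'.elim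
        | l w' =>
          have := hB.2 w w' hx hx'
          subst this
          exact Set.disjoint_left.1 huv hx2 hx2'
  · rw [← isOpen_compl_iff, isOpen_iff_forall_mem_open]
    intro A hA
    by_cases ha : ∃ y : Y1, L.l y ∈ A.1
    · obtain ⟨y, hy⟩ := ha
      refine ⟨dia (up False univ), ?_, isOpen_dia (isOpen_up isOpen_univ), ⟨L.l y, hy, trivial⟩⟩
      rintro B ⟨x, hx, hx2⟩ hB
      cases x with
      | a => exact hx2.elim
      | l y => exact hB.1 y hx
      | r z => exact hx2.elim
    · push Not at ha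
      have hA2 : ¬ (∀ y y' : Y2, L.r y ∈ A.1 → L.r y' ∈ A.1 → y = y') := fun h => hA ⟨ha, h⟩
      push Not at hA2
      obtain ⟨y, y', hy, hy', hne⟩ := hA2
      obtain ⟨u, v, hu, hv, hyu, hyv, huv⟩ := t2_separation hne
      refine ⟨dia (lo False u) ∩ dia (lo False v), ?_,
        (isOpen_dia (isOpen_lo hu)).inter (isOpen_dia (isOpen_lo hv)),
        ⟨L.r y, hy, hyu⟩, ⟨L.r y', hy', hyv⟩⟩
      rintro B ⟨⟨x, hx, hx2⟩, ⟨x', hx', hx2'⟩⟩ hB
      cases x with
      | a => exact hx2.elim
      | l z => exact hB.1 z hx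
      | r w =>
        cases x' with
        | a => exact hx2'.elim
        | l z => exact hB.1 z hx'
        | r w' =>
          have := hB.2 w w' hx hx'
          subst this
          exact Set.disjoint_left.1 huv hx2 hx2'

theorem cons_sum_of_PH (h : Cons (PH (L Y1 Y2))) : Cons (Y1 ⊕ Y2) := by
  apply cons_of_locallyClosed j continuous_j ?_ (big univ univ) CC
    (isOpen_big isOpen_univ isOpen_univ) isClosed_CC ?_ ?_ ?_ h
  · intro U hU
    obtain ⟨h1, h2⟩ := isOpen_sum_iff.1 hU
    refine ⟨big (Sum.inl ⁻¹' U) (Sum.inr ⁻¹' U), isOpen_big h1 h2, ?_⟩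
    ext x
    rcases x with y | z
    · exact f1_big y _ _
    · exact f2_big z _ _
  · rintro (y | z)
    · exact (f1_big y _ _).2 trivial
    · exact (f2_big z _ _).2 trivial
  · rintro (y | z)
    · left
      refine ⟨fun h => h, ?_⟩
      intro w w' hw hw'
      exact (show w = y from hw).trans (show w' = y from hw').symm
    · right
      refine ⟨fun _ h => h, ?_⟩
      intro w w' hw hw'
      exact (show w = z from hw).trans (show w' = z from hw').symm
  · rintro A hO (hA | hA)
    · -- type one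
      have h1 : ∃ y : Y1, L.l y ∈ A.1 := by
        rcases hO with ⟨x, hx, hx2⟩ | ⟨-, ⟨x, hx, hx2⟩⟩
        · cases x with
          | a => exact hx2.elim
          | l y => exact ⟨y, hx⟩
          | r z => exact hx2.elim
        · cases x with
          | a => exact absurd hx hA.1
          | l y => exact hx2.elim
          | r z => exact hx2.elim
      obtain ⟨y, hy⟩ := h1
      refine ⟨Sum.inl y, ?_⟩
      apply Subtype.ext
      ext x
      cases x with
      | a => exact ⟨fun h => h.elim, fun h => hA.1 h⟩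
      | l w => exact ⟨fun h => by rw [show w = y from h]; exact hy, fun h => hA.2 w y h hy⟩
      | r z =>
        refine ⟨fun _ => ?_, fun _ => trivial⟩
        by_contra hz
        have hop : IsOpen (A.1ᶜ : Set (L Y1 Y2)) := A.2.1.isOpen_compl
        exact hop.2.2 ⟨z, hz⟩ y hy
    · -- type two
      have h1 : (∃ z : Y2, L.r z ∈ A.1) ∧ L.a ∈ A.1 := by
        rcases hO with ⟨x, hx, hx2⟩ | ⟨⟨x, hx, hx2⟩, ⟨x', hx', hx2'⟩⟩
        · cases x with
          | a => exact hx2.elim
          | l y => exact absurd hx (hA.1 y)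
          | r z => exact hx2.elim
        · constructor
          · cases x with
            | a => exact hx2.elim
            | l y => exact absurd hx (hA.1 y)
            | r z => exact ⟨z, hx⟩
          · cases x' with
            | a => exact hx'
            | l y => exact hx2'.elim
            | r z => exact hx2'.elim
      obtain ⟨⟨z, hz⟩, ha⟩ := h1
      refine ⟨Sum.inr z, ?_⟩
      apply Subtype.ext
      ext x
      cases x with
      | a => exact ⟨fun _ => ha, fun _ => trivial⟩
      | l w => exact ⟨fun h => h.elim, fun h => hA.1 w h⟩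
      | r w => exact ⟨fun h => by rw [show w = z from h]; exact hz, fun h => hA.2 w z h hz⟩

theorem not_cons_PH : ¬ Cons (PH (L (Fan NM) (Fan NS))) :=
  fun h => not_cons_sum (cons_sum_of_PH h)

end Pool.Agent.Helper800.ConsH
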