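import Pool.Agent.Helper800.Cons

set_option autoImplicit false

namespace Pool.Agent.Helper800.ConsL

open Topology Set Pool.Agent.Helper800.Cons

/-- A point a together with the lexicographic sum of two spaces: open sets that meet the
second space contain the first. -/
inductive L (Y1 Y2 : Type) : Type
  | a : L Y1 Y2
  | l : Y1 → L Y1 Y2
  | r : Y2 → L Y1 Y2

variable {Y1 Y2 : Type} [TopologicalSpace Y1] [TopologicalSpace Y2]

instance : TopologicalSpace (L Y1 Y2) where
  IsOpen U := IsOpen (L.l ⁻¹' U) ∧ IsOpen (L.r ⁻¹' U) ∧ ((L.r ⁻¹' U).Nonempty → ∀ y, L.l y ∈ U)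
  isOpen_univ := ⟨isOpen_univ, isOpen_univ, fun _ _ => trivial⟩
  isOpen_inter := by
    rintro U V ⟨h1, h2, h3⟩ ⟨h4, h5, h6⟩
    refine ⟨h1.inter h4, h2.inter h5, ?_⟩
    rintro ⟨z, hz1, hz2⟩ y
    exact ⟨h3 ⟨z, hz1⟩ y, h6 ⟨z, hz2⟩ y⟩
  isOpen_sUnion := by
    intro S hS
    refine ⟨?_, ?_, ?_⟩
    · rw [preimage_sUnion]
      exact isOpen_biUnion fun U hU => (hS U hU).1
    · rw [preimage_sUnion]
      exact isOpen_biUnion fun U hU => (hS U hU).2.1
    · rintro ⟨z, U, hU, hz⟩ y
      exact ⟨U, hU, (hS U hU).2.2 ⟨z, hz⟩ y⟩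

theorem isOpen_L {U : Set (L Y1 Y2)} : IsOpen U ↔
    IsOpen (L.l ⁻¹' U) ∧ IsOpen (L.r ⁻¹' U) ∧ ((L.r ⁻¹' U).Nonempty → ∀ y, L.l y ∈ U) := Iff.rfl

theorem continuous_l : Continuous (L.l : Y1 → L Y1 Y2) := continuous_def.2 fun _ hU => hU.1
theorem continuous_r : Continuous (L.r : Y2 → L Y1 Y2) := continuous_def.2 fun _ hU => hU.2.1

/-- Open sets without points of the second space. -/
def up (P : Prop) (V : Set Y1) : Set (L Y1 Y2) :=
  {x | match x with
    | L.a => P
    | L.l y => y ∈ V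
    | L.r _ => False}

/-- Open sets containing all of the first space. -/
def lo (P : Prop) (V : Set Y2) : Set (L Y1 Y2) :=
  {x | match x with
    | L.a => P
    | L.l _ => True
    | L.r z => z ∈ V}

theorem isOpen_up {P : Prop} {V : Set Y1} (hV : IsOpen V) : IsOpen (up P V : Set (L Y1 Y2)) := by
  refine ⟨hV, ?_, ?_⟩
  · have : (L.r ⁻¹' (up P V) : Set Y2) = ∅ := by
      ext z
      exact ⟨fun h => h, fun h => h.elim⟩
    rw [this]
    exact isOpen_empty
  · rintro ⟨z, hz⟩
    exact hz.elim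

theorem isOpen_lo {P : Prop} {V : Set Y2} (hV : IsOpen V) : IsOpen (lo P V : Set (L Y1 Y2)) := by
  refine ⟨?_, hV, fun _ y => trivial⟩
  have : (L.l ⁻¹' (lo P V) : Set Y1) = univ := by
    ext z
    exact ⟨fun _ => trivial, fun _ => trivial⟩
  rw [this]
  exact isOpen_univ

theorem cons_L (h1 : Cons Y1) (h2 : Cons Y2) : Cons (L Y1 Y2) := by
  intro F hF U hU
  have hUo := hF.isOpen U hU
  have hfin : ({x : L Y1 Y2 | x = L.a ∧ L.a ∈ U}).Finite :=
    (finite_singleton (L.a : L Y1 Y2)).subset fun x hx => hx.1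
  by_cases hr : (L.r ⁻¹' U).Nonempty
  · obtain ⟨z0, hz0⟩ := hr
    have hl : ∀ y, L.l y ∈ U := hUo.2.2 ⟨z0, hz0⟩
    have hF2 := hF.comap (fun V : Set Y2 => (lo (L.a ∈ U) V : Set (L Y1 Y2)))
      (fun V hV => isOpen_lo hV)
      (by
        intro V V' hV x hx
        cases x with
        | a => exact hx
        | l y => exact hx
        | r z => exact hV hx)
      (by
        rintro D ⟨V0, hV0⟩ x hx
        cases x with
        | a => exact ⟨_, ⟨V0, hV0, rfl⟩, hx⟩
        | l y => exact ⟨_, ⟨V0, hV0, rfl⟩, trivial⟩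
        | r z =>
          obtain ⟨V, hV, hz⟩ := hx
          exact ⟨_, ⟨V, hV, rfl⟩, hz⟩)
    have hmem : L.r ⁻¹' U ∈ {V : Set Y2 | IsOpen V ∧ (lo (L.a ∈ U) V : Set (L Y1 Y2)) ∈ F} := by
      refine ⟨hUo.2.1, ?_⟩
      have : (lo (L.a ∈ U) (L.r ⁻¹' U) : Set (L Y1 Y2)) = U := by
        ext x
        cases x with
        | a => exact Iff.rfl
        | l y => exact ⟨fun _ => hl y, fun _ => trivial⟩
        | r z => exact Iff.rfl
      rw [this]
      exact hU
    obtain ⟨K, hK, hKU, hKV⟩ := h2 _ hF2 _ hmem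
    refine ⟨{x : L Y1 Y2 | x = L.a ∧ L.a ∈ U} ∪ L.r '' (K ∪ {z0}), ?_, ?_, ?_⟩
    · exact hfin.isCompact.union ((hK.union isCompact_singleton).image continuous_r)
    · rintro x (⟨rfl, hx⟩ | ⟨z, (hz | rfl), rfl⟩)
      · exact hx
      · exact hKU hz
      · exact hz0
    · intro V hV hKV'
      have hz0V : z0 ∈ L.r ⁻¹' V := hKV' (Or.inr ⟨z0, Or.inr rfl, rfl⟩)
      have hlV : ∀ y, L.l y ∈ V := hV.2.2 ⟨z0, hz0V⟩
      have h3 := hKV (L.r ⁻¹' V) hV.2.1 fun z hz => hKV' (Or.inr ⟨z, Or.inl hz, rfl⟩)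
      apply hF.upper _ h3.2 V hV
      intro x hx
      cases x with
      | a => exact hKV' (Or.inl ⟨rfl, hx⟩)
      | l y => exact hlV y
      | r z => exact hx
  · have hF1 := hF.comap (fun V : Set Y1 => (up (L.a ∈ U) V : Set (L Y1 Y2)))
      (fun V hV => isOpen_up hV)
      (by
        intro V V' hV x hx
        cases x with
        | a => exact hx
        | l y => exact hV hx
        | r z => exact hx)
      (by
        rintro D ⟨V0, hV0⟩ x hx
        cases x with
        | a => exact ⟨_, ⟨V0, hV0, rfl⟩, hx⟩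
        | l z =>
          obtain ⟨V, hV, hz⟩ := hx
          exact ⟨_, ⟨V, hV, rfl⟩, hz⟩
        | r y => exact hx.elim)
    have hmem : L.l ⁻¹' U ∈ {V : Set Y1 | IsOpen V ∧ (up (L.a ∈ U) V : Set (L Y1 Y2)) ∈ F} := by
      refine ⟨hUo.1, ?_⟩
      have : (up (L.a ∈ U) (L.l ⁻¹' U) : Set (L Y1 Y2)) = U := by
        ext x
        cases x with
        | a => exact Iff.rfl
        | l y => exact Iff.rfl
        | r z => exact ⟨fun h => h.elim, fun h => hr ⟨z, h⟩⟩
      rw [this]
      exact hU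
    obtain ⟨K, hK, hKU, hKV⟩ := h1 _ hF1 _ hmem
    refine ⟨{x : L Y1 Y2 | x = L.a ∧ L.a ∈ U} ∪ L.l '' K, ?_, ?_, ?_⟩
    · exact hfin.isCompact.union (hK.image continuous_l)
    · rintro x (⟨rfl, hx⟩ | ⟨z, hz, rfl⟩)
      · exact hx
      · exact hKU hz
    · intro V hV hKV'
      have h3 := hKV (L.l ⁻¹' V) hV.1 fun z hz => hKV' (Or.inr ⟨z, hz, rfl⟩)
      apply hF.upper _ h3.2 V hV
      intro x hx
      cases x with
      | a => exact hKV' (Or.inl ⟨rfl, hx⟩)
      | l y => exact hx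
      | r z => exact hx.elim

theorem t0_L [T2Space Y1] [T2Space Y2] : T0Space (L Y1 Y2) := by
  rw [t0Space_iff_inseparable]
  have key : ∀ x y : L Y1 Y2, (∀ U : Set (L Y1 Y2), IsOpen U → (x ∈ U ↔ y ∈ U)) → x = y := by
    intro x y h
    cases x with
    | a =>
      have h1 := (h (up True ∅) (isOpen_up isOpen_empty)).1 trivial
      cases y with
      | a => rfl
      | l y => exact h1.elim
      | r z => exact h1.elim
    | l x =>
      have h1 := (h (up False univ) (isOpen_up isOpen_univ)).1 trivial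
      cases y with
      | a => exact h1.elim
      | l y =>
        by_contra hne
        have h2 := (h (up False {y}ᶜ) (isOpen_up isOpen_compl_singleton)).1
          (fun h => hne (by rw [show x = y from h]))
        exact h2 rfl
      | r z => exact h1.elim
    | r x =>
      have h1 := (h (lo False univ) (isOpen_lo isOpen_univ)).1 trivial
      cases y with
      | a => exact h1.elim
      | l y =>
        have h2 := (h (up False univ) (isOpen_up isOpen_univ)).2 trivial
        exact h2.elim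
      | r z =>
        by_contra hne
        have h2 := (h (lo False {z}ᶜ) (isOpen_lo isOpen_compl_singleton)).1
          (fun h => hne (by rw [show x = z from h]))
        exact h2 rfl
  intro x y h
  apply key
  rw [inseparable_iff_forall_isOpen] at h
  exact h

end Pool.Agent.Helper800.ConsL
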