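import Pool.Agent.Helper800.ConsL

set_option autoImplicit false

namespace Pool.Agent.Helper800.ConsS

open Topology Set Pool.Agent.Helper800.Cons Pool.Agent.Helper800.ConsL

/-- Nonempty compact saturated subsets. -/
def PS (X : Type) [TopologicalSpace X] : Type :=
  {K : Set X // K.Nonempty ∧ IsCompact K ∧
    ∀ x : X, (∀ U : Set X, IsOpen U → K ⊆ U → x ∈ U) → x ∈ K}

def box {X : Type} [TopologicalSpace X] (U : Set X) : Set (PS X) := {K | K.1 ⊆ U}

instance tPS (X : Type) [TopologicalSpace X] : TopologicalSpace (PS X) :=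
  TopologicalSpace.generateFrom {S | ∃ U : Set X, IsOpen U ∧ S = box U}

theorem isOpen_box {X : Type} [TopologicalSpace X] {U : Set X} (hU : IsOpen U) :
    IsOpen (box U) := TopologicalSpace.isOpen_generateFrom_of_mem ⟨U, hU, rfl⟩

/-- The union of a compact family of compact saturated sets is compact. -/
theorem union_compact {X : Type} [TopologicalSpace X] {C : Set (PS X)} (hC : IsCompact C) :
    IsCompact (⋃ K ∈ C, (K : PS X).1) := by
  apply isCompact_of_finite_subcover
  intro ι U hU hcov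
  let O : Finset ι → Set (PS X) := fun t => box (⋃ i ∈ t, U i)
  obtain ⟨t, ht⟩ := hC.elim_directed_cover O
    (fun t => isOpen_box (isOpen_biUnion fun i _ => hU i))
    (by
      intro K hK
      obtain ⟨t, ht⟩ := K.2.2.1.elim_finite_subcover U hU
        (fun x hx => hcov (mem_biUnion hK hx))
      exact mem_iUnion.2 ⟨t, ht⟩)
    (by
      classical
      intro s t
      refine ⟨s ∪ t, ?_, ?_⟩
      · intro K hK x hx
        obtain ⟨i, hi, hxi⟩ := mem_iUnion₂.1 (hK hx)
        exact mem_iUnion₂.2 ⟨i, Finset.mem_union_left _ hi, hxi⟩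
      · intro K hK x hx
        obtain ⟨i, hi, hxi⟩ := mem_iUnion₂.1 (hK hx)
        exact mem_iUnion₂.2 ⟨i, Finset.mem_union_right _ hi, hxi⟩)
  refine ⟨t, ?_⟩
  intro x hx
  obtain ⟨K, hK, hxK⟩ := mem_iUnion₂.1 hx
  exact ht hK hxK

variable {Y1 Y2 : Type} [TopologicalSpace Y1] [TopologicalSpace Y2]

def g1 [T2Space Y1] (y : Y1) : PS (L Y1 Y2) := ⟨{x | match x with
    | L.a => True
    | L.l y' => y' = y
    | L.r _ => False}, by
  refine ⟨⟨L.a, trivial⟩, ?_, ?_⟩
  · apply Set.Finite.isCompact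
    apply Set.Finite.subset (toFinite ({L.a, L.l y} : Set (L Y1 Y2)))
    intro x hx
    cases x with
    | a => left; rfl
    | l w => right; rw [show w = y from hx]; rfl
    | r z => exact hx.elim
  · intro x hx
    cases x with
    | a => trivial
    | l w =>
      by_contra hne
      have h := hx (up True {w}ᶜ) (isOpen_up isOpen_compl_singleton) (by
        intro x' hx'
        cases x' with
        | a => trivial
        | l w' =>
          intro h2
          apply hne
          exact (show w = w' from (show w' = w from h2).symm).trans hx'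
        | r z => exact hx'.elim)
      exact h rfl
    | r z =>
      have h := hx (up True univ) (isOpen_up isOpen_univ) (by
        intro x' hx'
        cases x' with
        | a => trivial
        | l w' => trivial
        | r z => exact hx'.elim)
      exact h.elim⟩

def g2 [T2Space Y2] (z : Y2) : PS (L Y1 Y2) := ⟨{x | match x with
    | L.a => False
    | L.l _ => True
    | L.r z' => z' = z}, by
  refine ⟨⟨L.r z, rfl⟩, ?_, ?_⟩
  · rw [isCompact_iff_ultrafilter_le_nhds]
    intro f hf
    refine ⟨L.r z, rfl, le_trans hf ?_⟩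
    rw [(nhds_basis_opens (L.r z : L Y1 Y2)).ge_iff]
    rintro V ⟨hzV, hV⟩
    rw [Filter.mem_principal]
    intro x hx
    cases x with
    | a => exact hx.elim
    | l w => exact hV.2.2 ⟨z, hzV⟩ w
    | r w => rw [show w = z from hx]; exact hzV
  · intro x hx
    cases x with
    | a =>
      have h := hx (lo False univ) (isOpen_lo isOpen_univ) (by
        intro x' hx'
        cases x' with
        | a => exact hx'.elim
        | l w' => trivial
        | r z => trivial)
      exact h.elim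
    | l w => trivial
    | r w =>
      by_contra hne
      have h := hx (lo False {w}ᶜ) (isOpen_lo isOpen_compl_singleton) (by
        intro x' hx'
        cases x' with
        | a => exact hx'.elim
        | l w' => trivial
        | r w' =>
          intro h2
          apply hne
          exact (show w = w' from (show w' = w from h2).symm).trans hx')
      exact h rfl⟩

theorem g1_box [T2Space Y1] (y : Y1) (U : Set (L Y1 Y2)) :
    (g1 y : PS (L Y1 Y2)) ∈ box U ↔ (L.l y ∈ U ∧ L.a ∈ U) := by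
  constructor
  · intro h
    exact ⟨h (show L.l y ∈ (g1 y : PS (L Y1 Y2)).1 from rfl), h (show L.a ∈ (g1 y : PS (L Y1 Y2)).1 from trivial)⟩
  · rintro ⟨h1, h2⟩ x hx
    cases x with
    | a => exact h2
    | l w => rw [show w = y from hx]; exact h1
    | r z => exact hx.elim

theorem g2_box [T2Space Y2] (z : Y2) (U : Set (L Y1 Y2)) :
    (g2 z : PS (L Y1 Y2)) ∈ box U ↔ (L.r z ∈ U ∧ ∀ y, L.l y ∈ U) := by
  constructor
  · intro h
    exact ⟨h (show L.r z ∈ (g2 z : PS (L Y1 Y2)).1 from rfl),
      fun y => h (show L.l y ∈ (g2 z : PS (L Y1 Y2)).1 from trivial)⟩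
  · rintro ⟨h1, h2⟩ x hx
    cases x with
    | a => exact hx.elim
    | l w => exact h2 w
    | r w => rw [show w = z from hx]; exact h1

variable [T2Space Y1] [T2Space Y2]

def j : Y1 ⊕ Y2 → PS (L Y1 Y2) := Sum.elim g1 g2

theorem continuous_j : Continuous (j : Y1 ⊕ Y2 → PS (L Y1 Y2)) := by
  apply continuous_generateFrom_iff.2
  rintro _ ⟨U, hU, rfl⟩
  rw [isOpen_sum_iff]
  constructor
  · have : (Sum.inl ⁻¹' (j ⁻¹' (box U : Set (PS (L Y1 Y2)))) : Set Y1) =
        (L.l ⁻¹' U) ∩ {_y | L.a ∈ U} := by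
      ext y
      exact g1_box y U
    rw [this]
    exact hU.1.inter isOpen_const
  · have : (Sum.inr ⁻¹' (j ⁻¹' (box U : Set (PS (L Y1 Y2)))) : Set Y2) =
        (L.r ⁻¹' U) ∩ {_z | ∀ y, L.l y ∈ U} := by
      ext z
      exact g2_box z U
    rw [this]
    exact hU.2.1.inter isOpen_const

/-- The open set of the hyperspace that corresponds to a pair of open sets. -/
def big (U1 : Set Y1) (U2 : Set Y2) : Set (PS (L Y1 Y2)) :=
  box (up True U1) ∪ box (lo False U2)

omit [T2Space Y1] [T2Space Y2] in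
theorem isOpen_big {U1 : Set Y1} {U2 : Set Y2} (h1 : IsOpen U1) (h2 : IsOpen U2) :
    IsOpen (big U1 U2) :=
  (isOpen_box (isOpen_up h1)).union (isOpen_box (isOpen_lo h2))

theorem j_big (U1 : Set Y1) (U2 : Set Y2) (U : Set (Y1 ⊕ Y2)) (h1 : Sum.inl ⁻¹' U = U1)
    (h2 : Sum.inr ⁻¹' U = U2) : j ⁻¹' (big U1 U2 : Set (PS (L Y1 Y2))) = U := by
  ext x
  rcases x with y | z
  · have h3 : Sum.inl y ∈ U ↔ y ∈ U1 := by rw [← h1]; rfl
    rw [h3]
    constructor
    · rintro (h | h)
      · exact ((g1_box y _).1 h).1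
      · exact ((g1_box y _).1 h).2.elim
    · intro h
      exact Or.inl ((g1_box y _).2 ⟨h, trivial⟩)
  · have h3 : Sum.inr z ∈ U ↔ z ∈ U2 := by rw [← h2]; rfl
    rw [h3]
    constructor
    · rintro (h | h)
      · exact ((g2_box z _).1 h).1.elim
      · exact ((g2_box z _).1 h).1
    · intro h
      exact Or.inr ((g2_box z _).2 ⟨h, fun _ => trivial⟩)

omit [T2Space Y1] [T2Space Y2] in
theorem inducing_l : IsInducing (L.l : Y1 → L Y1 Y2) := by
  refine ⟨le_antisymm continuous_l.le_induced ?_⟩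
  intro U hU
  exact ⟨up False U, isOpen_up hU, rfl⟩

omit [T2Space Y1] [T2Space Y2] in
theorem inducing_r : IsInducing (L.r : Y2 → L Y1 Y2) := by
  refine ⟨le_antisymm continuous_r.le_induced ?_⟩
  intro U hU
  exact ⟨lo False U, isOpen_lo hU, rfl⟩

theorem cons_sum_of_PS (h : Cons (PS (L Y1 Y2))) : Cons (Y1 ⊕ Y2) := by
  intro F hF U hU
  obtain ⟨hU1, hU2⟩ := isOpen_sum_iff.1 (hF.isOpen U hU)
  have hmem : big (Sum.inl ⁻¹' U) (Sum.inr ⁻¹' U) ∈
      {V : Set (PS (L Y1 Y2)) | IsOpen V ∧ j ⁻¹' V ∈ F} := by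
    refine ⟨isOpen_big hU1 hU2, ?_⟩
    rw [j_big _ _ U rfl rfl]
    exact hU
  obtain ⟨C, hC, hCU, hCV⟩ := h _ (hF.push j continuous_j) _ hmem
  -- first part
  have hcl1 : IsClosed {K : PS (L Y1 Y2) | L.a ∈ K.1} := by
    rw [← isOpen_compl_iff]
    have : ({K : PS (L Y1 Y2) | L.a ∈ K.1}ᶜ : Set (PS (L Y1 Y2))) = box (lo False univ) := by
      ext K
      constructor
      · intro hK x hx
        cases x with
        | a => exact (hK hx).elim
        | l y => trivial
        | r z => trivial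
      · intro hK ha
        exact (hK ha).elim
    rw [this]
    exact isOpen_box (isOpen_lo isOpen_univ)
  have hT1 : IsCompact (⋃ K ∈ C ∩ {K : PS (L Y1 Y2) | L.a ∈ K.1}, (K : PS (L Y1 Y2)).1) :=
    union_compact (hC.inter_right hcl1)
  have hcl2 : IsClosed {K : PS (L Y1 Y2) | ∃ z, L.r z ∈ K.1} := by
    rw [← isOpen_compl_iff]
    have : ({K : PS (L Y1 Y2) | ∃ z, L.r z ∈ K.1}ᶜ : Set (PS (L Y1 Y2))) = box (up True univ) := by
      ext K
      constructor
      · intro hK x hx
        cases x with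
        | a => trivial
        | l y => trivial
        | r z => exact (hK ⟨z, hx⟩).elim
      · rintro hK ⟨z, hz⟩
        exact (hK hz).elim
    rw [this]
    exact isOpen_box (isOpen_up isOpen_univ)
  have hT2 : IsCompact (⋃ K ∈ C ∩ {K : PS (L Y1 Y2) | ∃ z, L.r z ∈ K.1}, (K : PS (L Y1 Y2)).1) :=
    union_compact (hC.inter_right hcl2)
  let K1 : Set Y1 := {y | ∃ K ∈ C, L.a ∈ K.1 ∧ L.l y ∈ K.1}
  let K2 : Set Y2 := {z | ∃ K ∈ C, L.r z ∈ K.1}
  have hCase : ∀ K ∈ C, K.1 ⊆ up True (Sum.inl ⁻¹' U) ∨ K.1 ⊆ lo False (Sum.inr ⁻¹' U) :=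
    fun K hK => hCU hK
  have hK1 : IsCompact K1 := by
    have hc : IsClosed ({L.a}ᶜ : Set (L Y1 Y2)) := by
      rw [isClosed_compl_iff]
      have : ({L.a} : Set (L Y1 Y2)) = up True ∅ := by
        ext x
        cases x with
        | a => exact ⟨fun _ => trivial, fun _ => rfl⟩
        | l y => exact ⟨fun h => (by cases h), fun h => h.elim⟩
        | r z => exact ⟨fun h => (by cases h), fun h => h.elim⟩
      rw [this]
      exact isOpen_up isOpen_empty
    have h1 := hT1.inter_right hc
    have h2 : K1 = L.l ⁻¹' ((⋃ K ∈ C ∩ {K : PS (L Y1 Y2) | L.a ∈ K.1}, (K : PS (L Y1 Y2)).1) ∩ {L.a}ᶜ) := by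
      ext y
      constructor
      · rintro ⟨K, hK, ha, hy⟩
        refine ⟨mem_biUnion (show K ∈ C ∩ {K : PS (L Y1 Y2) | L.a ∈ K.1} from ⟨hK, ha⟩) hy, ?_⟩
        intro h
        cases h
      · rintro ⟨hy, -⟩
        obtain ⟨K, ⟨hK, ha⟩, hyK⟩ := mem_iUnion₂.1 hy
        exact ⟨K, hK, ha, hyK⟩
    rw [h2, inducing_l.isCompact_preimage_iff]
    · exact h1
    · rintro x ⟨hx, hxa⟩
      obtain ⟨K, ⟨hK, ha⟩, hxK⟩ := mem_iUnion₂.1 hx
      cases x with
      | a => exact absurd rfl hxa
      | l y => exact ⟨y, rfl⟩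
      | r z =>
        rcases hCase K hK with h | h
        · exact (h hxK).elim
        · exact (h ha).elim
  have hK2 : IsCompact K2 := by
    have hc : IsClosed (range (L.r : Y2 → L Y1 Y2)) := by
      rw [← isOpen_compl_iff]
      have : ((range (L.r : Y2 → L Y1 Y2))ᶜ : Set (L Y1 Y2)) = up True univ := by
        ext x
        cases x with
        | a => exact ⟨fun _ => trivial, fun _ ⟨z, hz⟩ => (by cases hz)⟩
        | l y => exact ⟨fun _ => trivial, fun _ ⟨z, hz⟩ => (by cases hz)⟩
        | r z => exact ⟨fun h => (h ⟨z, rfl⟩).elim, fun h => h.elim⟩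
      rw [this]
      exact isOpen_up isOpen_univ
    have h1 := hT2.inter_right hc
    have h2 : K2 = L.r ⁻¹' ((⋃ K ∈ C ∩ {K : PS (L Y1 Y2) | ∃ z, L.r z ∈ K.1}, (K : PS (L Y1 Y2)).1) ∩
        range (L.r : Y2 → L Y1 Y2)) := by
      ext z
      constructor
      · rintro ⟨K, hK, hz⟩
        exact ⟨mem_biUnion (show K ∈ C ∩ {K : PS (L Y1 Y2) | ∃ z, L.r z ∈ K.1} from
          ⟨hK, z, hz⟩) hz, ⟨z, rfl⟩⟩
      · rintro ⟨hz, -⟩
        obtain ⟨K, ⟨hK, -⟩, hzK⟩ := mem_iUnion₂.1 hz
        exact ⟨K, hK, hzK⟩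
    rw [h2, inducing_r.isCompact_preimage_iff]
    · exact h1
    · rintro x ⟨-, hx⟩
      exact hx
  refine ⟨Sum.inl '' K1 ∪ Sum.inr '' K2,
    (hK1.image continuous_inl).union (hK2.image continuous_inr), ?_, ?_⟩
  · rintro x (⟨y, ⟨K, hK, ha, hy⟩, rfl⟩ | ⟨z, ⟨K, hK, hz⟩, rfl⟩)
    · rcases hCase K hK with h | h
      · exact h hy
      · exact (h ha).elim
    · rcases hCase K hK with h | h
      · exact (h hz).elim
      · exact h hz
  · intro V hV hKV
    obtain ⟨hV1, hV2⟩ := isOpen_sum_iff.1 hV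
    have h3 := hCV (big (Sum.inl ⁻¹' V) (Sum.inr ⁻¹' V)) (isOpen_big hV1 hV2) (by
      intro K hK
      rcases hCase K hK with h | h
      · by_cases ha : L.a ∈ K.1
        · left
          intro x hx
          cases x with
          | a => trivial
          | l y => exact hKV (Or.inl ⟨y, ⟨K, hK, ha, hx⟩, rfl⟩)
          | r z => exact (h hx).elim
        · right
          intro x hx
          cases x with
          | a => exact ha hx
          | l y => trivial
          | r z => exact (h hx).elim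
      · right
        intro x hx
        cases x with
        | a => exact (h hx).elim
        | l y => trivial
        | r z => exact hKV (Or.inr ⟨z, ⟨K, hK, hx⟩, rfl⟩))
    have h4 := h3.2
    rw [j_big _ _ V rfl rfl] at h4
    exact h4

theorem not_cons_PS : ¬ Cons (PS (L (Fan NM) (Fan NS))) :=
  fun h => not_cons_sum (cons_sum_of_PS h)

end Pool.Agent.Helper800.ConsS
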