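import Mathlib

set_option autoImplicit false

/-! Michael's theorem: a regular space in which every open cover has a sigma-locally finite open
refinement is paracompact. Then: a criterion with a coarser metrizable topology. -/

namespace Pool.Agent.Helper800.Michael

open Set Topology Filter

universe v

section

variable {X : Type v} [TopologicalSpace X]

/-- Every open cover has a locally finite closed refinement. -/
def ClosedRef (X : Type v) [TopologicalSpace X] : Prop :=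
  ∀ (α : Type v) (s : α → Set X), (∀ a, IsOpen (s a)) → (⋃ a, s a = univ) →
    ∃ (β : Type v) (t : β → Set X),
      (∀ b, IsClosed (t b)) ∧ (⋃ b, t b = univ) ∧ LocallyFinite t ∧ ∀ b, ∃ a, t b ⊆ s a

/-- Every open cover has a sigma-locally finite open refinement. -/
def SigmaRef (X : Type v) [TopologicalSpace X] : Prop :=
  ∀ (α : Type v) (s : α → Set X), (∀ a, IsOpen (s a)) → (⋃ a, s a = univ) →
    ∃ (β : ℕ → Type v) (t : ∀ n, β n → Set X),
      (∀ n b, IsOpen (t n b)) ∧ (⋃ n, ⋃ b, t n b = univ) ∧ (∀ n, LocallyFinite (t n)) ∧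
        ∀ n b, ∃ a, t n b ⊆ s a

theorem closedRef_of_sigmaRef [RegularSpace X] (H : SigmaRef X) : ClosedRef X := by
  intro α s hs hcov
  let α' : Type v := {W : Set X // IsOpen W ∧ ∃ a, closure W ⊆ s a}
  obtain ⟨β, t, ht, htc, htf, hts⟩ := H α' (fun W => W.1) (fun W => W.2.1) (by
    rw [eq_univ_iff_forall]
    intro x
    obtain ⟨a, ha⟩ := mem_iUnion.1 (hcov.ge (mem_univ x))
    obtain ⟨K, ⟨hK, hKc⟩, hKs⟩ := (closed_nhds_basis x).mem_iff.1 ((hs a).mem_nhds ha)
    refine mem_iUnion.2 ⟨⟨interior K, isOpen_interior, a, ?_⟩, mem_interior_iff_mem_nhds.2 hK⟩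
    exact (closure_minimal interior_subset hKc).trans hKs)
  let t0 : (Σ n, β n) → Set X := fun p => t p.1 p.2 \ ⋃ m < p.1, ⋃ c, t m c
  have hlf : LocallyFinite t0 := by
    intro x
    obtain ⟨n0, hx⟩ := mem_iUnion.1 (htc.ge (mem_univ x))
    obtain ⟨b0, hx⟩ := mem_iUnion.1 hx
    choose N hN hNf using fun m => htf m x
    refine ⟨t n0 b0 ∩ ⋂ m ∈ Finset.range (n0 + 1), N m, ?_, ?_⟩
    · refine inter_mem ((ht n0 b0).mem_nhds hx) ?_
      exact (Filter.biInter_finset_mem _).2 fun m _ => hN m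
    · have : (⋃ m ∈ Finset.range (n0 + 1), (Sigma.mk m) '' {b | (t m b ∩ N m).Nonempty}).Finite := by
        refine Set.Finite.biUnion (Finset.finite_toSet _) fun m _ => ?_
        exact (hNf m).image _
      refine this.subset ?_
      rintro ⟨m, b⟩ ⟨y, ⟨hy1, hy2⟩, hy3, hy4⟩
      have hm : m < n0 + 1 := by
        by_contra hm
        apply hy2
        refine mem_iUnion₂.2 ⟨n0, by show n0 < m; omega, mem_iUnion.2 ⟨b0, hy3⟩⟩
      refine mem_iUnion₂.2 ⟨m, Finset.mem_range.2 hm, b, ⟨y, hy1, ?_⟩, rfl⟩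
      exact mem_iInter₂.1 hy4 m (Finset.mem_range.2 hm)
  refine ⟨Σ n, β n, fun p => closure (t0 p), fun _ => isClosed_closure, ?_, hlf.closure, ?_⟩
  · rw [eq_univ_iff_forall]
    intro x
    have hex : ∃ n, x ∈ ⋃ b, t n b := mem_iUnion.1 (htc.ge (mem_univ x))
    classical
    obtain ⟨b, hb⟩ := mem_iUnion.1 (Nat.find_spec hex)
    refine mem_iUnion.2 ⟨⟨Nat.find hex, b⟩, subset_closure ⟨hb, ?_⟩⟩
    intro h
    obtain ⟨m, hm, hxm⟩ := mem_iUnion₂.1 h
    exact Nat.find_min hex hm hxm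
  · rintro ⟨n, b⟩
    obtain ⟨W, hW⟩ := hts n b
    obtain ⟨a, ha⟩ := W.2.2
    exact ⟨a, (closure_mono (sdiff_subset.trans hW)).trans ha⟩

theorem paracompact_of_closedRef (H : ClosedRef X) : ParacompactSpace X := by
  refine ⟨?_⟩
  intro α s hs hcov
  obtain ⟨β, A, hA, hAc, hAf, hAs⟩ := H α s hs hcov
  choose W hW hWf using hAf
  obtain ⟨γ, C, hC, hCc, hCf, hCs⟩ := H X (fun x => interior (W x)) (fun _ => isOpen_interior) (by
    rw [eq_univ_iff_forall]
    exact fun x => mem_iUnion.2 ⟨x, mem_interior_iff_mem_nhds.2 (hW x)⟩)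
  choose g hg using hAs
  let star : β → Set X := fun b => (⋃ c ∈ {c | Disjoint (C c) (A b)}, C c)ᶜ
  have hstar : ∀ b, IsOpen (star b) := fun b => by
    have : IsClosed (⋃ c : {c // Disjoint (C c) (A b)}, C c.1) :=
      (hCf.comp_injective Subtype.val_injective).isClosed_iUnion fun c => hC c.1
    have h2 : (⋃ c ∈ {c | Disjoint (C c) (A b)}, C c) = ⋃ c : {c // Disjoint (C c) (A b)}, C c.1 := by
      ext x
      simp
    show IsOpen (⋃ c ∈ {c | Disjoint (C c) (A b)}, C c)ᶜ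
    rw [h2]
    exact this.isOpen_compl
  have hAstar : ∀ b, A b ⊆ star b := fun b x hx h => by
    obtain ⟨c, hc, hxc⟩ := mem_iUnion₂.1 h
    exact (Set.disjoint_left.1 hc) hxc hx
  refine ⟨β, fun b => star b ∩ s (g b), fun b => (hstar b).inter (hs _), ?_, ?_,
    fun b => ⟨g b, inter_subset_right⟩⟩
  · rw [eq_univ_iff_forall]
    intro x
    obtain ⟨b, hb⟩ := mem_iUnion.1 (hAc.ge (mem_univ x))
    exact mem_iUnion.2 ⟨b, hAstar b hb, hg b hb⟩
  · intro x
    obtain ⟨N, hN, hNf⟩ := hCf x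
    refine ⟨N, hN, ?_⟩
    choose y hy using hCs
    have hfin : (⋃ c ∈ {c | (C c ∩ N).Nonempty}, {b | (A b ∩ W (y c)).Nonempty}).Finite :=
      Set.Finite.biUnion hNf fun c _ => hWf (y c)
    refine hfin.subset ?_
    rintro b ⟨z, ⟨hz1, -⟩, hz2⟩
    obtain ⟨c, hc⟩ := mem_iUnion.1 (hCc.ge (mem_univ z))
    refine mem_iUnion₂.2 ⟨c, ⟨z, hc, hz2⟩, ?_⟩
    have hnd : ¬ Disjoint (C c) (A b) := fun hd => hz1 (mem_iUnion₂.2 ⟨c, hd, hc⟩)
    obtain ⟨w, hw1, hw2⟩ := Set.not_disjoint_iff.1 hnd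
    exact ⟨w, hw2, interior_subset (hy c hw1)⟩

/-- **Michael's theorem**. -/
theorem paracompact_of_sigmaRef [RegularSpace X] (H : SigmaRef X) : ParacompactSpace X :=
  paracompact_of_closedRef (closedRef_of_sigmaRef H)

end

/-- A criterion: a regular space with a coarser paracompact topology and countably many sets covering
it such that the closed subsets of each of them are closed in the coarser topology. -/
theorem paracompact_of_coarser {X : Type v} (t t0 : TopologicalSpace X)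
    (hreg : @RegularSpace X t) (hle : t ≤ t0) (hpc : @ParacompactSpace X t0) (F : ℕ → Set X)
    (hF : ∀ x, ∃ k, x ∈ F k)
    (hcl : ∀ k, ∀ C : Set X, IsClosed[t] C → IsClosed[t0] (C ∩ F k)) :
    @ParacompactSpace X t := by
  refine @paracompact_of_sigmaRef X t hreg ?_
  intro α s hs hcov
  have key : ∀ k : ℕ, ∃ (β : Type v) (u : β → Set X), (∀ b, IsOpen[t0] (u b)) ∧
      (⋃ b, u b = univ) ∧ @LocallyFinite β X t0 u ∧ ∀ b, ∃ a, u b ⊆ (F k \ s a)ᶜ := by
    intro k
    refine hpc.locallyFinite_refinement α (fun a => (F k \ s a)ᶜ) ?_ ?_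
    · intro a
      have h1 : IsClosed[t] (s a)ᶜ := by
        rw [@isClosed_compl_iff X t]
        exact hs a
      have h2 := hcl k _ h1
      have h3 : F k \ s a = (s a)ᶜ ∩ F k := by
        ext x
        simp [and_comm]
      rw [h3, @isOpen_compl_iff X _ t0]
      exact h2
    · rw [eq_univ_iff_forall]
      intro x
      obtain ⟨a, ha⟩ := mem_iUnion.1 (hcov.ge (mem_univ x))
      exact mem_iUnion.2 ⟨a, fun h => h.2 ha⟩
  choose β u hu huc huf hus using key
  choose g hg using hus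
  refine ⟨β, fun k b => u k b ∩ s (g k b), ?_, ?_, ?_, fun k b => ⟨g k b, inter_subset_right⟩⟩
  · intro k b
    exact @IsOpen.inter X t _ _ (hle _ (hu k b)) (hs _)
  · rw [eq_univ_iff_forall]
    intro x
    obtain ⟨k, hk⟩ := hF x
    obtain ⟨b, hb⟩ := mem_iUnion.1 ((huc k).ge (mem_univ x))
    refine mem_iUnion.2 ⟨k, mem_iUnion.2 ⟨b, hb, ?_⟩⟩
    have := hg k b hb
    by_contra hns
    exact this ⟨hk, hns⟩
  · intro k x
    obtain ⟨N, hN, hNf⟩ := huf k x
    refine ⟨N, ?_, hNf.subset ?_⟩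
    · exact nhds_mono hle hN
    · rintro b ⟨y, ⟨hy1, -⟩, hy2⟩
      exact ⟨y, hy1, hy2⟩

end Pool.Agent.Helper800.Michael
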