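import Mathlib
import Pool.Agent.Helper800.Michael

set_option autoImplicit false

/-! Evaluation maps on Lipschitz functions and the main closedness lemma. -/

namespace Pool.Agent.Helper800.FreeLip

open Set Topology Filter Pool.Agent.Helper800.Michael

universe u

/-- The 1-Lipschitz real functions bounded by one. -/
def Lip (Z : Type u) [MetricSpace Z] : Type u :=
  {f : Z → ℝ // (∀ x y, |f x - f y| ≤ dist x y) ∧ ∀ x, |f x| ≤ 1}

instance (Z : Type u) [MetricSpace Z] : TopologicalSpace (Lip Z) := ⊥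
instance (Z : Type u) [MetricSpace Z] : DiscreteTopology (Lip Z) := ⟨rfl⟩

/-- Bounded functions on `Lip Z`. -/
abbrev EE (Z : Type u) [MetricSpace Z] : Type u := BoundedContinuousFunction (Lip Z) ℝ

variable {Z : Type u} [MetricSpace Z]

/-- Evaluation at `z`. -/
noncomputable def ev (z : Z) : EE Z :=
  BoundedContinuousFunction.mkOfDiscrete (fun f => f.1 z) 2 (by
    intro f g
    rw [Real.dist_eq]
    have h1 := abs_le.1 (f.2.2 z)
    have h2 := abs_le.1 (g.2.2 z)
    rw [abs_le]
    constructor <;> linarith)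

theorem ev_apply (z : Z) (f : Lip Z) : ev z f = f.1 z := rfl

theorem dist_ev_le (z w : Z) : dist (ev z) (ev w) ≤ dist z w := by
  rw [BoundedContinuousFunction.dist_le dist_nonneg]
  intro f
  rw [ev_apply, ev_apply, Real.dist_eq]
  exact f.2.1 z w

theorem continuous_ev : Continuous (ev : Z → EE Z) :=
  (LipschitzWith.of_dist_le_mul (K := 1) (fun z w => by
    rw [NNReal.coe_one, one_mul]
    exact dist_ev_le z w)).continuous

/-- The bump function at `p` of radius `δ`. -/
noncomputable def bump (p : Z) (δ : ℝ) (_h0 : 0 ≤ δ) (h1 : δ ≤ 1) : Lip Z :=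
  ⟨fun x => max 0 (δ - dist x p), by
    refine ⟨fun x y => ?_, fun x => ?_⟩
    · refine (abs_max_sub_max_le_max _ _ _ _).trans ?_
      rw [sub_self, abs_zero, sub_sub_sub_cancel_left]
      refine max_le dist_nonneg ?_
      rw [abs_le]
      have h2 := dist_triangle x y p
      have h3 := dist_triangle y x p
      rw [dist_comm y x] at h3
      constructor <;> linarith
    · rw [abs_le]
      have := dist_nonneg (x := x) (y := p)
      exact ⟨by linarith [le_max_left 0 (δ - dist x p)], max_le zero_le_one (by linarith)⟩⟩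

theorem bump_self (p : Z) (δ : ℝ) (h0 : 0 ≤ δ) (h1 : δ ≤ 1) : (bump p δ h0 h1).1 p = δ := by
  show max 0 (δ - dist p p) = δ
  rw [dist_self, sub_zero, max_eq_right h0]

theorem bump_far (p x : Z) (δ : ℝ) (h0 : 0 ≤ δ) (h1 : δ ≤ 1) (h : δ ≤ dist x p) :
    (bump p δ h0 h1).1 x = 0 := by
  show max 0 (δ - dist x p) = 0
  exact max_eq_left (by linarith)

/-- The linear extension of `ev`. -/
noncomputable def Phi : (Z →₀ ℝ) →ₗ[ℝ] EE Z := Finsupp.linearCombination ℝ ev

theorem Phi_apply (c : Z →₀ ℝ) (f : Lip Z) : Phi c f = c.sum fun z r => r * f.1 z := by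
  classical
  unfold Phi
  rw [Finsupp.linearCombination_apply, Finsupp.sum, BoundedContinuousFunction.sum_apply]
  rfl

theorem exists_sep (s : Finset Z) (p : Z) : ∃ δ : ℝ, 0 < δ ∧ δ ≤ 1 ∧ ∀ y ∈ s, y ≠ p → δ ≤ dist y p := by
  classical
  have h : ∀ᶠ δ in 𝓝[>] (0 : ℝ), δ ≤ 1 ∧ ∀ y ∈ s, y ≠ p → δ ≤ dist y p := by
    refine Filter.Eventually.and ?_ ?_
    · exact nhdsWithin_le_nhds (Iic_mem_nhds one_pos)
    · rw [Filter.eventually_all_finset]
      intro y _
      by_cases hy : y = p
      · exact Eventually.of_forall fun _ h => absurd hy h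
      · filter_upwards [nhdsWithin_le_nhds (Iic_mem_nhds (dist_pos.2 hy))] with δ hδ _
        exact hδ
  obtain ⟨δ, h1, h2⟩ := (h.and self_mem_nhdsWithin).exists
  exact ⟨δ, h2, h1.1, h1.2⟩

theorem Phi_injective : Function.Injective (Phi : (Z →₀ ℝ) → EE Z) := by
  classical
  rw [injective_iff_map_eq_zero (Phi : (Z →₀ ℝ) →ₗ[ℝ] EE Z)]
  intro c hc
  by_contra hne
  obtain ⟨p, hp⟩ := Finsupp.support_nonempty_iff.2 hne
  obtain ⟨δ, h0, h1, hδ⟩ := exists_sep c.support p
  have h2 : Phi c (bump p δ h0.le h1) = 0 := by rw [hc]; rfl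
  rw [Phi_apply, Finsupp.sum, Finset.sum_eq_single p] at h2
  · rw [bump_self] at h2
    exact (mul_ne_zero (Finsupp.mem_support_iff.1 hp) h0.ne') h2
  · intro y hy hyp
    rw [bump_far _ _ _ _ _ (hδ y hy hyp), mul_zero]
  · intro h
    exact absurd hp h

variable {L : Type u} [AddCommGroup L] [Module ℚ L]

/-- Casting the coefficients. -/
noncomputable def castMap (Z : Type u) : (Z →₀ ℚ) →+ (Z →₀ ℝ) :=
  Finsupp.mapRange.addMonoidHom (Rat.castHom ℝ).toAddMonoidHom

theorem castMap_injective : Function.Injective (castMap Z) := by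
  intro c d h
  ext z
  have := DFunLike.congr_fun h z
  exact Rat.cast_injective this

/-- The additive map `L → EE Z` defined by a rational basis. -/
noncomputable def ppi (b : Module.Basis Z ℚ L) : L →+ EE Z where
  toFun v := Phi (castMap Z (b.repr v))
  map_zero' := by rw [map_zero, map_zero, map_zero]
  map_add' v w := by rw [map_add, map_add, map_add]

theorem ppi_injective (b : Module.Basis Z ℚ L) : Function.Injective (ppi b) := by
  intro v w h
  exact b.repr.injective (castMap_injective (Phi_injective h))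

theorem ppi_basis (b : Module.Basis Z ℚ L) (q : ℚ) (z : Z) : ppi b (q • b z) = (q : ℝ) • ev z := by
  have h1 : castMap Z (Finsupp.single z q) = Finsupp.single z (q : ℝ) :=
    Finsupp.mapRange_single (hf := map_zero _)
  show Phi (castMap Z (b.repr (q • b z))) = _
  rw [map_smul, b.repr_self, Finsupp.smul_single, smul_eq_mul, mul_one, h1]
  unfold Phi
  rw [Finsupp.linearCombination_single]

theorem ppi_apply (b : Module.Basis Z ℚ L) (v : L) (f : Lip Z) :
    ppi b v f = ∑ z ∈ (b.repr v).support, (b.repr v z : ℝ) * f.1 z := by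
  classical
  show Phi (castMap Z (b.repr v)) f = _
  rw [Phi_apply]
  have : castMap Z (b.repr v) = Finsupp.mapRange (fun q : ℚ => (q : ℝ)) Rat.cast_zero (b.repr v) := rfl
  rw [this, Finsupp.sum_mapRange_index]
  · rfl
  · intro z
    rw [zero_mul]

/-- The coarser topology. -/
@[reducible] noncomputable def top0 (b : Module.Basis Z ℚ L) : TopologicalSpace L := TopologicalSpace.induced (ppi b) inferInstance

/-- The sets covering `L`. -/
def FF (b : Module.Basis Z ℚ L) (n : ℕ) (q : Fin n → ℚ) (m : ℕ) : Set L :=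
  {v | ∃ z : Fin n → Z, (∀ i j, i ≠ j → 1 / ((m : ℝ) + 1) ≤ dist (z i) (z j)) ∧ (∀ i, q i ≠ 0) ∧
    v = ∑ i, q i • b (z i)}

theorem mem_FF (b : Module.Basis Z ℚ L) (v : L) : ∃ n q m, v ∈ FF b n q m := by
  classical
  let e := (b.repr v).support.equivFin.symm
  have hsep : ∀ᶠ δ in 𝓝[>] (0 : ℝ), ∀ i j, i ≠ j → δ ≤ dist (e i : Z) (e j : Z) := by
    rw [Filter.eventually_all]
    intro i
    rw [Filter.eventually_all]
    intro j
    by_cases hij : i = j
    · exact Eventually.of_forall fun _ h => absurd hij h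
    · have : (e i : Z) ≠ (e j : Z) := fun h => hij (e.injective (Subtype.ext h))
      filter_upwards [nhdsWithin_le_nhds (Iic_mem_nhds (dist_pos.2 this))] with δ hδ _
      exact hδ
  obtain ⟨δ, h1, h2⟩ := (hsep.and self_mem_nhdsWithin).exists
  obtain ⟨m, hm⟩ := exists_nat_one_div_lt (show (0:ℝ) < δ from h2)
  refine ⟨_, fun i => b.repr v (e i), m, fun i => (e i : Z), ?_, ?_, ?_⟩
  · intro i j hij
    exact hm.le.trans (h1 i j hij)
  · intro i
    exact Finsupp.mem_support_iff.1 (e i).2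
  · conv_lhs => rw [← b.linearCombination_repr v, Finsupp.linearCombination_apply, Finsupp.sum]
    rw [← Finset.sum_coe_sort]
    exact (Equiv.sum_comp e (fun z : (b.repr v).support => b.repr v z • b z)).symm

/-- The main lemma. -/
theorem isClosed_inter (b : Module.Basis Z ℚ L) (t : TopologicalSpace L)
    (hs : ∀ (n : ℕ) (q : Fin n → ℚ), @Continuous _ _ _ t fun z : Fin n → Z => ∑ i, q i • b (z i))
    (hle : t ≤ top0 b) (n : ℕ) (q : Fin n → ℚ) (m : ℕ) (C : Set L) (hC : IsClosed[t] C) :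
    IsClosed[top0 b] (C ∩ FF b n q m) := by
  classical
  rw [@isClosed_iff_ultrafilter _ _ (top0 b)]
  intro v U hU hCU
  set s : (Fin n → Z) → L := fun z => ∑ i, q i • b (z i) with hsdef
  set S : Set (Fin n → Z) := {z | ∀ i j, i ≠ j → 1 / ((m : ℝ) + 1) ≤ dist (z i) (z j)} with hS
  have hq : ∀ i, q i ≠ 0 := by
    obtain ⟨w, -, z, -, hq, -⟩ := U.nonempty_of_mem hCU
    exact hq
  have himg : s '' S ∈ U := by
    refine Filter.mem_of_superset hCU ?_
    rintro w ⟨-, z, hz, -, rfl⟩
    exact ⟨z, hz, rfl⟩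
  let V : Ultrafilter (Fin n → Z) := Ultrafilter.ofComapInfPrincipal himg
  have hVS : S ∈ V := Ultrafilter.ofComapInfPrincipal_mem himg
  have hVU : Ultrafilter.map s V = U := Ultrafilter.ofComapInfPrincipal_eq_of_map himg
  have hpi : Tendsto (fun z => ppi b (s z)) V (𝓝 (ppi b v)) := by
    have h1 : Tendsto (ppi b) (U : Filter L) (𝓝 (ppi b v)) := by
      rw [tendsto_iff_comap]
      refine hU.trans ?_
      rw [@nhds_induced]
    rw [← hVU] at h1
    exact h1
  have hex : ∀ i, ∃ y : Z, Tendsto (fun z : Fin n → Z => z i) V (𝓝 y) := by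
    intro i
    by_contra hcon
    push Not at hcon
    have h1 : ∀ y : Z, ∃ ε > 0, ∀ᶠ z in (V : Filter (Fin n → Z)), ε ≤ dist (z i) y := by
      intro y
      have h2 := hcon y
      rw [Metric.tendsto_nhds] at h2
      push Not at h2
      obtain ⟨ε, hε, h3⟩ := h2
      exact ⟨ε, hε, h3⟩
    choose ε hε hεV using h1
    have hm : 0 < 1 / ((m : ℝ) + 1) := by positivity
    have hδ : ∀ᶠ δ in 𝓝[>] (0 : ℝ), (δ ≤ 1 ∧ δ ≤ 1 / ((m : ℝ) + 1)) ∧
        ∀ y ∈ (b.repr v).support, δ ≤ ε y := by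
      have e1 : ∀ᶠ δ in 𝓝[>] (0 : ℝ), δ ≤ 1 := nhdsWithin_le_nhds (Iic_mem_nhds one_pos)
      have e2 : ∀ᶠ δ in 𝓝[>] (0 : ℝ), δ ≤ 1 / ((m : ℝ) + 1) :=
        nhdsWithin_le_nhds (Iic_mem_nhds hm)
      refine (e1.and e2).and ?_
      rw [Filter.eventually_all_finset]
      intro y _
      exact nhdsWithin_le_nhds (Iic_mem_nhds (hε y))
    obtain ⟨δ, ⟨⟨hδ1, hδm⟩, hδy⟩, hδ0⟩ := (hδ.and self_mem_nhdsWithin).exists
    replace hδ0 : 0 < δ := hδ0
    have hqi : 0 < |(q i : ℝ)| := abs_pos.2 (by exact_mod_cast hq i)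
    have h2 : ∀ᶠ z in (V : Filter (Fin n → Z)), dist (ppi b (s z)) (ppi b v) < |(q i : ℝ)| * δ :=
      (Metric.tendsto_nhds.1 hpi) _ (mul_pos hqi hδ0)
    have h3 : ∀ᶠ z in (V : Filter (Fin n → Z)), ∀ y ∈ (b.repr v).support, ε y ≤ dist (z i) y := by
      rw [Filter.eventually_all_finset]
      intro y _
      exact hεV y
    obtain ⟨z, ⟨hz1, hz2⟩, hz3⟩ := ((h2.and h3).and hVS).exists
    replace hz3 : z ∈ S := hz3
    have h4 := (BoundedContinuousFunction.dist_coe_le_dist (f := ppi b (s z)) (g := ppi b v)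
      (bump (z i) δ hδ0.le hδ1)).trans_lt hz1
    have h5 : ppi b v (bump (z i) δ hδ0.le hδ1) = 0 := by
      rw [ppi_apply]
      refine Finset.sum_eq_zero fun y hy => ?_
      rw [bump_far, mul_zero]
      rw [dist_comm]
      exact (hδy y hy).trans (hz2 y hy)
    have h6 : ppi b (s z) (bump (z i) δ hδ0.le hδ1) = q i * δ := by
      rw [hsdef]
      simp only
      rw [map_sum, BoundedContinuousFunction.sum_apply, Finset.sum_eq_single i]
      · rw [ppi_basis]
        show (q i : ℝ) * (bump (z i) δ hδ0.le hδ1).1 (z i) = _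
        rw [bump_self]
      · intro j _ hji
        rw [ppi_basis]
        show (q j : ℝ) * (bump (z i) δ hδ0.le hδ1).1 (z j) = _
        rw [bump_far, mul_zero]
        exact hδm.trans (hz3 j i hji)
      · intro h
        exact absurd (Finset.mem_univ i) h
    rw [h5, h6, Real.dist_eq, sub_zero, abs_mul, abs_of_pos hδ0] at h4
    exact lt_irrefl _ h4
  choose y hy using hex
  have hzy : Tendsto (fun z : Fin n → Z => z) V (𝓝 y) := tendsto_pi_nhds.2 hy
  have hsy : Tendsto s V (@nhds _ t (s y)) := ((@Continuous.tendsto _ _ _ t _ (hs n q) y)).comp hzy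
  have hUt : (U : Filter L) ≤ @nhds _ t (s y) := by
    rw [← hVU]
    exact hsy
  have hUt0 : (U : Filter L) ≤ @nhds _ (top0 b) (s y) := hUt.trans (nhds_mono hle)
  have hv : v = s y := by
    apply ppi_injective b
    refine tendsto_nhds_unique hpi ?_
    have h1 : Tendsto (ppi b) (U : Filter L) (𝓝 (ppi b (s y))) := by
      rw [tendsto_iff_comap]
      refine hUt0.trans ?_
      rw [@nhds_induced]
    rw [← hVU] at h1
    exact h1
  refine ⟨?_, y, ?_, hq, hv⟩
  · rw [hv]
    exact (@isClosed_iff_ultrafilter _ _ t).1 hC (s y) U hUt (Filter.mem_of_superset hCU inter_subset_left)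
  · intro i j hij
    refine ge_of_tendsto ((hy i).dist (hy j)) ?_
    filter_upwards [hVS] with z hz
    exact hz i j hij

/-- The paracompactness theorem for a group topology finer than `top0`. -/
theorem paracompact (b : Module.Basis Z ℚ L) (t : TopologicalSpace L) (hreg : @RegularSpace L t)
    (hs : ∀ (n : ℕ) (q : Fin n → ℚ), @Continuous _ _ _ t fun z : Fin n → Z => ∑ i, q i • b (z i))
    (hle : t ≤ top0 b) : @ParacompactSpace L t := by
  have hne : Nonempty (Σ n : ℕ, (Fin n → ℚ) × ℕ) := ⟨⟨0, fun _ => 0, 0⟩⟩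
  obtain ⟨g, hg⟩ := exists_surjective_nat (Σ n : ℕ, (Fin n → ℚ) × ℕ)
  refine paracompact_of_coarser t (top0 b) hreg hle ?_ (fun k => FF b (g k).1 (g k).2.1 (g k).2.2)
    ?_ ?_
  · let i1 : PseudoMetricSpace L := PseudoMetricSpace.induced (ppi b) inferInstance
    exact @Metric.instParacompactSpace L i1.toPseudoEMetricSpace
  · intro v
    obtain ⟨n, q, m, h⟩ := mem_FF b v
    obtain ⟨k, hk⟩ := hg ⟨n, q, m⟩
    refine ⟨k, ?_⟩
    rw [hk]
    exact h
  · intro k C hC
    exact isClosed_inter b t hs hle _ _ _ C hC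

end Pool.Agent.Helper800.FreeLip
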