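import Mathlib

set_option autoImplicit false

namespace Pool.Agent.Helper800.KL

open Topology Set
open Cardinal hiding univ

/-- A type of cardinality aleph_(n+1). -/
def A (n : ℕ) : Type := (ℵ_ ((n : Ordinal) + 1)).out

theorem mk_A (n : ℕ) : #(A n) = ℵ_ ((n : Ordinal) + 1) := Cardinal.mk_out _

theorem lt_mk_A (n : ℕ) : ℵ_ (n : Ordinal) < #(A n) := by
  rw [mk_A, aleph_lt_aleph]
  exact Order.lt_add_one_iff.2 le_rfl

theorem mk_A_le {n m : ℕ} (h : n < m) : #(A n) ≤ ℵ_ (m : Ordinal) := by
  rw [mk_A, aleph_le_aleph]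
  exact_mod_cast h

theorem small_union {X ι : Type} (n : ℕ) (f : ι → Set X) (hι : #ι ≤ ℵ_ (n : Ordinal))
    (hf : ∀ i, #(f i) ≤ ℵ_ (n : Ordinal)) : #(⋃ i, f i) ≤ ℵ_ (n : Ordinal) := by
  calc #(⋃ i, f i) ≤ Cardinal.sum (fun i => #(f i)) := mk_iUnion_le_sum_mk
    _ ≤ Cardinal.sum (fun _ : ι => ℵ_ (n : Ordinal)) := Cardinal.sum_le_sum _ _ hf
    _ = #ι * ℵ_ (n : Ordinal) := Cardinal.sum_const' _ _
    _ ≤ ℵ_ (n : Ordinal) * ℵ_ (n : Ordinal) := mul_le_mul_left hι _
    _ = ℵ_ (n : Ordinal) := mul_eq_self (aleph0_le_aleph _)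

theorem small_union2 {X : Type} (n : ℕ) (s t : Set X) (hs : #s ≤ ℵ_ (n : Ordinal))
    (ht : #t ≤ ℵ_ (n : Ordinal)) : #(s ∪ t : Set X) ≤ ℵ_ (n : Ordinal) := by
  calc #(s ∪ t : Set X) ≤ #s + #t := mk_union_le _ _
    _ ≤ ℵ_ (n : Ordinal) + ℵ_ (n : Ordinal) := add_le_add hs ht
    _ = ℵ_ (n : Ordinal) := add_eq_self (aleph0_le_aleph _)

instance topA (n : ℕ) : TopologicalSpace (A n) where
  IsOpen U := U = ∅ ∨ #(Uᶜ : Set (A n)) ≤ ℵ_ (n : Ordinal)
  isOpen_univ := Or.inr (by simp)
  isOpen_inter := by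
    rintro U V (rfl | hU) (rfl | hV)
    · left; simp
    · left; simp
    · left; simp
    · right
      rw [compl_inter]
      exact small_union2 n _ _ hU hV
  isOpen_sUnion := by
    intro S hS
    by_cases h : ∃ U ∈ S, #(Uᶜ : Set (A n)) ≤ ℵ_ (n : Ordinal)
    · obtain ⟨U, hU, hc⟩ := h
      right
      exact le_trans (mk_le_mk_of_subset (compl_subset_compl.2 (subset_sUnion_of_mem hU))) hc
    · left
      push Not at h
      rw [sUnion_eq_empty]
      intro U hU
      rcases hS U hU with h1 | h1
      · exact h1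
      · exact absurd h1 (not_le.2 (h U hU))

theorem isOpen_A {n : ℕ} {U : Set (A n)} :
    IsOpen U ↔ U = ∅ ∨ #(Uᶜ : Set (A n)) ≤ ℵ_ (n : Ordinal) := Iff.rfl

theorem isClosed_A {n : ℕ} {C : Set (A n)} :
    IsClosed C ↔ C = univ ∨ #C ≤ ℵ_ (n : Ordinal) := by
  rw [← isOpen_compl_iff, isOpen_A, compl_empty_iff, compl_compl]

/-- The extended space: a generic point none is added. -/
def R (n : ℕ) : Type := Option (A n)

def inc {n : ℕ} (a : A n) : R n := some a
def top (n : ℕ) : R n := (none : Option (A n))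

theorem R_cases {n : ℕ} (p : R n) : p = top n ∨ ∃ a, p = inc a := by
  cases p with
  | none => exact Or.inl rfl
  | some a => exact Or.inr ⟨a, rfl⟩

theorem inc_ne_top {n : ℕ} (a : A n) : inc a ≠ top n := Option.some_ne_none a

theorem inc_inj {n : ℕ} {a b : A n} (h : inc a = inc b) : a = b := Option.some_injective _ h

theorem inter_nonempty {n : ℕ} {U V : Set (A n)} (hU : IsOpen U) (hV : IsOpen V)
    (hU' : U.Nonempty) (hV' : V.Nonempty) : (U ∩ V).Nonempty := by
  rcases hU with rfl | hU
  · exact absurd hU' (by simp)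
  rcases hV with rfl | hV
  · exact absurd hV' (by simp)
  by_contra h
  rw [not_nonempty_iff_eq_empty] at h
  have h1 : (Uᶜ ∪ Vᶜ : Set (A n)) = univ := by rw [← compl_inter, h, compl_empty]
  have h2 := small_union2 n _ _ hU hV
  rw [h1, mk_univ] at h2
  exact absurd h2 (not_le.2 (lt_mk_A n))

instance nonempty_A (n : ℕ) : Nonempty (A n) := by
  rw [← mk_ne_zero_iff]
  exact (lt_of_le_of_lt zero_le (lt_mk_A n)).ne'

instance topR (n : ℕ) : TopologicalSpace (R n) where
  IsOpen U := IsOpen (inc ⁻¹' U) ∧ (top n ∈ U ↔ (inc ⁻¹' U).Nonempty)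
  isOpen_univ := ⟨by simp, by simp⟩
  isOpen_inter := by
    rintro U V ⟨hU, hU'⟩ ⟨hV, hV'⟩
    refine ⟨hU.inter hV, ?_⟩
    constructor
    · rintro ⟨h1, h2⟩
      exact inter_nonempty hU hV (hU'.1 h1) (hV'.1 h2)
    · rintro ⟨a, ha1, ha2⟩
      exact ⟨hU'.2 ⟨a, ha1⟩, hV'.2 ⟨a, ha2⟩⟩
  isOpen_sUnion := by
    intro S hS
    refine ⟨?_, ?_⟩
    · rw [preimage_sUnion]
      exact isOpen_biUnion fun U hU => (hS U hU).1
    · constructor
      · rintro ⟨U, hU, h⟩
        obtain ⟨a, ha⟩ := (hS U hU).2.1 h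
        exact ⟨a, U, hU, ha⟩
      · rintro ⟨a, U, hU, ha⟩
        exact ⟨U, hU, (hS U hU).2.2 ⟨a, ha⟩⟩

theorem isOpen_R {n : ℕ} {U : Set (R n)} :
    IsOpen U ↔ IsOpen (inc ⁻¹' U) ∧ (top n ∈ U ↔ (inc ⁻¹' U).Nonempty) := Iff.rfl

theorem continuous_inc (n : ℕ) : Continuous (inc : A n → R n) :=
  continuous_def.2 fun _ hU => hU.1

theorem top_mem {n : ℕ} {U : Set (R n)} (hU : IsOpen U) (h : U.Nonempty) : top n ∈ U := by
  obtain ⟨p, hp⟩ := h
  rcases R_cases p with rfl | ⟨a, rfl⟩
  · exact hp
  · exact hU.2.2 ⟨a, hp⟩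

theorem top_specializes {n : ℕ} (p : R n) : top n ⤳ p := by
  rw [specializes_iff_forall_open]
  intro U hU hp
  exact top_mem hU ⟨p, hp⟩

/-- Image of a small subset is closed. -/
theorem closed_small {n : ℕ} {B : Set (A n)} (hB : #B ≤ ℵ_ (n : Ordinal)) :
    IsClosed (inc '' B : Set (R n)) := by
  rw [← isOpen_compl_iff, isOpen_R]
  have h1 : (inc ⁻¹' (inc '' B)ᶜ : Set (A n)) = Bᶜ := by
    ext a
    simp only [mem_preimage, mem_compl_iff, mem_image, not_exists, not_and]
    constructor
    · intro h ha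
      exact h a ha rfl
    · intro h b hb hba
      exact h (inc_inj hba ▸ hb)
  rw [h1]
  refine ⟨Or.inr (by rw [compl_compl]; exact hB), ?_⟩
  constructor
  · intro _
    by_contra h
    rw [not_nonempty_iff_eq_empty, compl_empty_iff] at h
    rw [h, mk_univ] at hB
    exact absurd hB (not_le.2 (lt_mk_A n))
  · rintro - ⟨a, -, h⟩
    exact inc_ne_top a h

theorem closed_single {n : ℕ} (a : A n) : IsClosed ({inc a} : Set (R n)) := by
  have : ({inc a} : Set (R n)) = inc '' {a} := by simp
  rw [this]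
  apply closed_small
  rw [mk_singleton]
  exact le_trans one_le_aleph0 (aleph0_le_aleph _)

instance t0R (n : ℕ) : T0Space (R n) := by
  rw [t0Space_iff_inseparable]
  intro p q h
  rcases R_cases p with rfl | ⟨a, rfl⟩
  · rcases R_cases q with rfl | ⟨b, rfl⟩
    · rfl
    · have := (h.mem_closed_iff (closed_single b)).2 rfl
      exact this
  · have := (h.mem_closed_iff (closed_single a)).1 rfl
    exact this.symm

instance t0A (n : ℕ) : T0Space (A n) := by
  rw [t0Space_iff_inseparable]
  intro a b h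
  have h2 : Inseparable (inc a : R n) (inc b) := h.map (continuous_inc n)
  exact inc_inj h2.eq

instance sobR (n : ℕ) : QuasiSober (R n) := by
  constructor
  intro C hC hcl
  by_cases htop : top n ∈ C
  · refine ⟨top n, ?_⟩
    rw [isGenericPoint_iff_specializes]
    intro y
    constructor
    · intro h
      exact h.mem_closed hcl htop
    · intro _
      exact top_specializes y
  · -- C is small
    obtain ⟨p, hp⟩ := hC.1
    rcases R_cases p with rfl | ⟨a, rfl⟩
    · exact absurd hp htop
    have hsub : C = inc '' (inc ⁻¹' C) := by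
      ext q
      constructor
      · intro hq
        rcases R_cases q with rfl | ⟨b, rfl⟩
        · exact absurd hq htop
        · exact ⟨b, hq, rfl⟩
      · rintro ⟨b, hb, rfl⟩
        exact hb
    have hsmall : #(inc ⁻¹' C : Set (A n)) ≤ ℵ_ (n : Ordinal) := by
      have hcl' : IsClosed (inc ⁻¹' C : Set (A n)) := hcl.preimage (continuous_inc n)
      rcases isClosed_A.1 hcl' with h | h
      · exfalso
        have h2 := (isOpen_compl_iff.2 hcl).2.1 htop
        obtain ⟨b, hb⟩ := h2
        have : b ∈ (inc ⁻¹' C : Set (A n)) := by rw [h]; trivial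
        exact hb this
      · exact h
    -- C \ {a} is closed
    have hcl2 : IsClosed (inc '' ((inc ⁻¹' C) \ {a}) : Set (R n)) :=
      closed_small (le_trans (mk_le_mk_of_subset sdiff_subset) hsmall)
    have hcov : C ⊆ {inc a} ∪ inc '' ((inc ⁻¹' C) \ {a}) := by
      intro q hq
      rw [hsub] at hq
      obtain ⟨b, hb, rfl⟩ := hq
      by_cases hba : b = a
      · left; rw [hba]; rfl
      · right; exact ⟨b, ⟨hb, hba⟩, rfl⟩
    have hirr := isPreirreducible_iff_isClosed_union_isClosed.1 hC.2 _ _ (closed_single a) hcl2 hcov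
    rcases hirr with h | h
    · refine ⟨inc a, ?_⟩
      have : C = {inc a} := Subset.antisymm h (singleton_subset_iff.2 hp)
      rw [this]
      exact (closed_single a).closure_eq
    · exfalso
      obtain ⟨b, hb, hb2⟩ := h hp
      exact hb.2 (inc_inj hb2)

/-- The class K: T0 spaces into which every continuous map from A m extends over R m. -/
def K (X : Type) [TopologicalSpace X] : Prop :=
  T0Space X ∧ ∀ (m : ℕ) (g : A m → X), Continuous g →
    ∃ h : R m → X, Continuous h ∧ ∀ a, h (inc a) = g a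

theorem ext_unique {X : Type} [TopologicalSpace X] [T0Space X] {m : ℕ} {h h' : R m → X}
    (hh : Continuous h) (hh' : Continuous h') (he : ∀ a, h (inc a) = h' (inc a)) : h = h' := by
  funext p
  rcases R_cases p with rfl | ⟨a, rfl⟩
  · apply Inseparable.eq
    rw [inseparable_iff_forall_isOpen]
    intro V hV
    have h1 := (hV.preimage hh).2
    have h2 := (hV.preimage hh').2
    have h3 : (inc ⁻¹' (h ⁻¹' V) : Set (A m)) = inc ⁻¹' (h' ⁻¹' V) := by
      ext a
      simp only [mem_preimage, he a]
    rw [h3] at h1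
    exact h1.trans h2.symm
  · exact he a

theorem continuous_ext {X : Type} [TopologicalSpace X] {m : ℕ} {h : R m → X}
    (h1 : Continuous (fun a : A m => h (inc a)))
    (h2 : ∀ V : Set X, IsOpen V → (h (top m) ∈ V ↔ ∃ a, h (inc a) ∈ V)) : Continuous h := by
  rw [continuous_def]
  intro V hV
  refine ⟨hV.preimage h1, ?_⟩
  exact h2 V hV

instance irredA (n : ℕ) : IrreducibleSpace (A n) where
  isPreirreducible_univ := by
    intro U V hU hV hU' hV'
    simp only [univ_inter] at *
    exact inter_nonempty hU hV hU' hV'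
  toNonempty := nonempty_A n

theorem K_sober (X : Type) [TopologicalSpace X] [T0Space X] [QuasiSober X] : K X := by
  refine ⟨inferInstance, fun m g hg => ?_⟩
  have hirr : IsIrreducible (range g) := by
    rw [← image_univ]
    exact IsIrreducible.image (IrreducibleSpace.isIrreducible_univ (A m)) g hg.continuousOn
  have hirr' : IsIrreducible (closure (range g)) := hirr.closure
  obtain ⟨x, hx⟩ := QuasiSober.sober hirr' isClosed_closure
  refine ⟨fun p => Option.elim (p : Option (A m)) x g, ?_, fun a => rfl⟩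
  apply continuous_ext
  · exact hg
  · intro V hV
    show x ∈ V ↔ ∃ a, g a ∈ V
    have h1 := hx.mem_open_set_iff hV
    rw [h1, closure_inter_open_nonempty_iff hV]
    constructor
    · rintro ⟨y, ⟨a, rfl⟩, hy⟩
      exact ⟨a, hy⟩
    · rintro ⟨a, ha⟩
      exact ⟨g a, ⟨a, rfl⟩, ha⟩

theorem K_R (n : ℕ) : K (R n) := K_sober (R n)

theorem K_homeo (X Y : Type) [TopologicalSpace X] [TopologicalSpace Y] (e : X ≃ₜ Y) (h : K X) :
    K Y := by
  obtain ⟨h0, h1⟩ := h
  refine ⟨e.symm.isEmbedding.t0Space, fun m g hg => ?_⟩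
  obtain ⟨h, hh, he⟩ := h1 m (e.symm ∘ g) (e.symm.continuous.comp hg)
  refine ⟨e ∘ h, e.continuous.comp hh, fun a => ?_⟩
  simp [he a]

theorem K_inter (Y : Type) [TopologicalSpace Y] [T0Space Y] [QuasiSober Y] (S : Set (Set Y))
    (hS : ∀ B ∈ S, K ↥B) : K ↥(⋂₀ S) := by
  refine ⟨inferInstance, fun m g hg => ?_⟩
  obtain ⟨h, hh, he⟩ := (K_sober Y).2 m (fun a => (g a : Y)) (continuous_subtype_val.comp hg)
  have hmem : ∀ p, h p ∈ ⋂₀ S := by
    intro p
    rcases R_cases p with rfl | ⟨a, rfl⟩
    · intro B hB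
      obtain ⟨hB', hhB, heB⟩ := (hS B hB).2 m (fun a => ⟨(g a : Y), (g a).2 B hB⟩)
        (Continuous.subtype_mk (continuous_subtype_val.comp hg) _)
      have heq : h = fun p => (hB' p : Y) := by
        apply ext_unique hh (continuous_subtype_val.comp hhB)
        intro a
        show h (inc a) = (hB' (inc a) : Y)
        rw [he a, heB a]
      rw [heq]
      exact (hB' (top m)).2
    · rw [he a]
      exact (g a).2
  refine ⟨fun p => ⟨h p, hmem p⟩, hh.subtype_mk _, fun a => ?_⟩
  exact Subtype.ext (he a)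

theorem K_preimage (X Y : Type) [TopologicalSpace X] [TopologicalSpace Y] [T0Space X] [QuasiSober X]
    [T0Space Y] [QuasiSober Y] (f : X → Y) (hf : Continuous f) (B : Set Y) (hB : K ↥B) :
    K ↥(f ⁻¹' B) := by
  refine ⟨inferInstance, fun m g hg => ?_⟩
  obtain ⟨h, hh, he⟩ := (K_sober X).2 m (fun a => (g a : X)) (continuous_subtype_val.comp hg)
  obtain ⟨h', hh', he'⟩ := hB.2 m (fun a => ⟨f (g a : X), (g a).2⟩)
    (Continuous.subtype_mk (hf.comp (continuous_subtype_val.comp hg)) _)
  have heq : (fun p => f (h p)) = fun p => (h' p : Y) := by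
    apply ext_unique (hf.comp hh) (continuous_subtype_val.comp hh')
    intro a
    show f (h (inc a)) = (h' (inc a) : Y)
    rw [he' a, he a]
  have hmem : ∀ p, h p ∈ f ⁻¹' B := by
    intro p
    have : f (h p) = (h' p : Y) := congrFun heq p
    show f (h p) ∈ B
    rw [this]
    exact (h' p).2
  refine ⟨fun p => ⟨h p, hmem p⟩, hh.subtype_mk _, fun a => ?_⟩
  exact Subtype.ext (he a)

/-- The universal property of inc. -/
theorem refl_inc (n : ℕ) (Z : Type) [TopologicalSpace Z] (hZ : K Z) (g : A n → Z)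
    (hg : Continuous g) : ∃! h : R n → Z, Continuous h ∧ h ∘ inc = g := by
  obtain ⟨h, hh, he⟩ := hZ.2 n g hg
  have := hZ.1
  refine ⟨h, ⟨hh, funext he⟩, ?_⟩
  rintro h' ⟨hh', he'⟩
  apply ext_unique hh' hh
  intro a
  rw [he a, ← he']
  rfl

/-- Points of the product with only finitely many generic coordinates. -/
def Z : Type := {x : ∀ n, R n // {n | x n = top n}.Finite}

instance : TopologicalSpace Z := instTopologicalSpaceSubtype

theorem small_fiber {m n : ℕ} {h : R m → R n} (hh : Continuous h) (htop : h (top m) = top n)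
    (C : Set (R n)) (hC : IsClosed C) (hCt : top n ∉ C) :
    #{a : A m | h (inc a) ∈ C} ≤ ℵ_ (m : Ordinal) := by
  have hcl : IsClosed {a : A m | h (inc a) ∈ C} :=
    (hC.preimage hh).preimage (continuous_inc m)
  rcases isClosed_A.1 hcl with h1 | h1
  · exfalso
    have hop : IsOpen (h ⁻¹' C)ᶜ := (hC.preimage hh).isOpen_compl
    have hmem : top m ∈ (h ⁻¹' C)ᶜ := by
      intro h2
      apply hCt
      rw [← htop]
      exact h2
    obtain ⟨a, ha⟩ := hop.2.1 hmem
    apply ha
    have : a ∈ {a : A m | h (inc a) ∈ C} := by rw [h1]; trivial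
    exact this
  · exact h1

theorem key_small {m n : ℕ} (hmn : m ≠ n) {h : R m → R n} (hh : Continuous h)
    (htop : h (top m) = top n) : #{a : A m | h (inc a) ≠ top n} ≤ ℵ_ (m : Ordinal) := by
  rcases lt_or_gt_of_ne hmn with hlt | hgt
  · -- m < n
    have hB : #{b : A n | ∃ a : A m, h (inc a) = inc b} ≤ ℵ_ (n : Ordinal) := by
      have : {b : A n | ∃ a : A m, h (inc a) = inc b} ⊆
          range (fun a : A m => Option.getD (h (inc a) : Option (A n)) (Classical.arbitrary (A n))) := by
        rintro b ⟨a, ha⟩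
        refine ⟨a, ?_⟩
        show Option.getD (h (inc a) : Option (A n)) _ = b
        rw [ha]
        rfl
      exact le_trans (mk_le_mk_of_subset this) (le_trans mk_range_le (mk_A_le hlt))
    have hC := closed_small hB
    refine le_trans (mk_le_mk_of_subset ?_) (small_fiber hh htop _ hC ?_)
    · intro a ha
      rcases R_cases (h (inc a)) with h1 | ⟨b, hb⟩
      · exact absurd h1 ha
      · exact ⟨b, ⟨a, hb⟩, hb.symm⟩
    · rintro ⟨b, -, hb⟩
      exact inc_ne_top b hb
  · -- n < m
    have hsub : {a : A m | h (inc a) ≠ top n} ⊆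
        ⋃ b : A n, {a : A m | h (inc a) ∈ ({inc b} : Set (R n))} := by
      intro a ha
      rcases R_cases (h (inc a)) with h1 | ⟨b, hb⟩
      · exact absurd h1 ha
      · exact mem_iUnion.2 ⟨b, hb⟩
    refine le_trans (mk_le_mk_of_subset hsub) (small_union m _ (mk_A_le hgt) fun b => ?_)
    exact small_fiber hh htop _ (closed_single b) (fun h => inc_ne_top b h.symm)

theorem K_Z : K Z := by
  refine ⟨inferInstanceAs (T0Space {x : ∀ n, R n // {n | x n = top n}.Finite}), fun m g hg => ?_⟩
  have hgc : ∀ n, Continuous (fun a => (g a).1 n) := fun n =>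
    (continuous_apply n).comp (continuous_subtype_val.comp hg)
  choose h hh he using fun n => (K_R n).2 m _ (hgc n)
  have hfin : {n | h n (top m) = top n}.Finite := by
    by_contra hinf
    -- a common point
    have hsm : #(⋃ n : {n : ℕ // h n (top m) = top n ∧ m ≠ n},
        {a : A m | h n.1 (inc a) ≠ top n.1}) ≤ ℵ_ (m : Ordinal) := by
      apply small_union
      · exact le_trans (mk_le_aleph0) (aleph0_le_aleph _)
      · rintro ⟨n, hn1, hn2⟩
        exact key_small hn2 (hh n) hn1
    have hne : ∃ a : A m, a ∉ (⋃ n : {n : ℕ // h n (top m) = top n ∧ m ≠ n},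
        {a : A m | h n.1 (inc a) ≠ top n.1}) := by
      by_contra hall
      push Not at hall
      rw [eq_univ_of_forall hall, mk_univ] at hsm
      exact absurd hsm (not_le.2 (lt_mk_A m))
    obtain ⟨a, ha⟩ := hne
    rw [mem_iUnion, not_exists] at ha
    apply hinf
    apply ((g a).2.union (finite_singleton m)).subset
    intro n hn
    by_cases hmn : m = n
    · right; exact hmn.symm
    · left
      have h1 := ha ⟨n, hn, hmn⟩
      simp only [mem_ofPred_eq, not_not] at h1
      rw [he n a] at h1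
      exact h1
  have hmem : ∀ p : R m, {n | h n p = top n}.Finite := by
    intro p
    rcases R_cases p with rfl | ⟨a, rfl⟩
    · exact hfin
    · have : {n | h n (inc a) = top n} = {n | (g a).1 n = top n} := by
        ext n
        simp only [mem_ofPred_eq, he n a]
      rw [this]
      exact (g a).2
  refine ⟨fun p => ⟨fun n => h n p, hmem p⟩, ?_, fun a => ?_⟩
  · exact Continuous.subtype_mk (continuous_pi fun n => hh n) _
  · apply Subtype.ext
    funext n
    exact he n a

/-- The map of the product of the A n into Z. -/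
def gZ (x : ∀ n, A n) : Z := ⟨fun n => inc (x n), by
  have : {n | (inc (x n) : R n) = top n} = ∅ := by
    ext n
    simp only [mem_ofPred_eq, mem_empty_iff_false, iff_false]
    exact inc_ne_top _
  show {n | (inc (x n) : R n) = top n}.Finite
  rw [this]
  exact finite_empty⟩

theorem continuous_gZ : Continuous gZ :=
  Continuous.subtype_mk (continuous_pi fun n => (continuous_inc n).comp (continuous_apply n)) _

theorem exists_ne_A {n : ℕ} (a : A n) : ∃ b : A n, b ≠ a := by
  by_contra h
  push Not at h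
  have h1 : #(A n) ≤ 1 := by
    rw [Cardinal.le_one_iff_subsingleton]
    exact ⟨fun x y => (h x).trans (h y).symm⟩
  have h2 : (1 : Cardinal) < #(A n) :=
    lt_of_le_of_lt (le_trans one_le_aleph0 (aleph0_le_aleph _)) (lt_mk_A n)
  exact absurd h1 (not_le.2 h2)

/-- No continuous map from the product of the R n to Z extends gZ. -/
theorem no_ext (h : (∀ n, R n) → Z) (hh : Continuous h)
    (he : (h ∘ fun (x : ∀ n, A n) (n : ℕ) => (inc (x n) : R n)) = gZ) : False := by
  have key : ∀ n, (h (fun n => top n)).1 n = top n := by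
    intro n
    rcases R_cases ((h (fun n => top n)).1 n) with h1 | ⟨a, ha⟩
    · exact h1
    · exfalso
      obtain ⟨b, hb⟩ := exists_ne_A a
      let y : ∀ n, A n := Function.update (fun n => Classical.arbitrary (A n)) n b
      have hy : y n = b := by simp [y]
      have h2 : (fun n => top n : ∀ n, R n) ⤳ (fun n => inc (y n)) :=
        specializes_pi.2 fun n => top_specializes _
      have h3 := h2.map hh
      have h4 : h (fun n => inc (y n)) = gZ y := congrFun he y
      rw [h4] at h3
      have h5 : (h (fun n => top n)).1 n ⤳ (gZ y).1 n :=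
        h3.map ((continuous_apply n).comp continuous_subtype_val)
      rw [ha] at h5
      have h6 : (gZ y).1 n = inc b := by
        show inc (y n) = inc b
        rw [hy]
      rw [h6] at h5
      have h7 : (inc b : R n) ∈ ({inc a} : Set (R n)) := h5.mem_closed (closed_single a) rfl
      exact hb (inc_inj h7)
  have hfin := (h (fun n => top n)).2
  have huniv : {n | (h (fun n => top n)).1 n = top n} = univ := eq_univ_of_forall key
  rw [huniv] at hfin
  exact infinite_univ hfin

end Pool.Agent.Helper800.KL
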