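import Pool.Agent.Helper800.KL

set_option autoImplicit false

namespace Pool.Agent.Helper800.KLAd

open Topology Set Pool.Agent.Helper800.KL

theorem closure_eq_of_open {Y : Type} [TopologicalSpace Y] {S T : Set Y}
    (h : ∀ V, IsOpen V → ((S ∩ V).Nonempty ↔ (T ∩ V).Nonempty)) : closure S = closure T := by
  ext y
  rw [mem_closure_iff, mem_closure_iff]
  constructor
  · intro h1 o ho hy
    have h2 := h1 o ho hy
    rw [inter_comm] at h2 ⊢
    exact (h o ho).1 h2
  · intro h1 o ho hy
    have h2 := h1 o ho hy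
    rw [inter_comm] at h2 ⊢
    exact (h o ho).2 h2

theorem open_of_closure_eq {Y : Type} [TopologicalSpace Y] {S T : Set Y}
    (h : closure S = closure T) (V : Set Y) (hV : IsOpen V) :
    (S ∩ V).Nonempty ↔ (T ∩ V).Nonempty := by
  rw [← closure_inter_open_nonempty_iff hV, h, closure_inter_open_nonempty_iff hV]

/-- The closed K-determined subsets. -/
abbrev KD (X : Type) [TopologicalSpace X] : Type :=
  {A : Set X // IsClosed A ∧ ∀ (Y : Type) [TopologicalSpace Y], K Y →
            ∀ f : X → Y, Continuous f → ∃! y : Y, closure (f '' A) = closure {y}}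

/-- The lower Vietoris topology. -/
abbrev tKD (X : Type) [TopologicalSpace X] : TopologicalSpace (KD X) :=
  TopologicalSpace.generateFrom
          {S | ∃ U : Set X, IsOpen U ∧ S = {A | (A.1 ∩ U).Nonempty}}

theorem isOpen_dia {X : Type} [TopologicalSpace X] (U : Set X) (hU : IsOpen U) :
    @IsOpen (KD X) (tKD X) {A | (A.1 ∩ U).Nonempty} :=
  TopologicalSpace.isOpen_generateFrom_of_mem ⟨U, hU, rfl⟩

theorem union_mem {X : Type} [TopologicalSpace X] {m : ℕ} (g : A m → KD X)
    (hg : @Continuous _ _ _ (tKD X) g) (Y : Type) [TopologicalSpace Y] (hY : K Y)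
    (f : X → Y) (hf : Continuous f) :
    ∃! y : Y, closure (f '' (closure (⋃ a, (g a).1))) = closure {y} := by
  choose yy hyy using fun a => ((g a).2.2 Y hY f hf).exists
  have hT0 := hY.1
  have h1 : ∀ (V : Set Y), IsOpen V → ∀ a, (yy a ∈ V ↔ ((g a).1 ∩ f ⁻¹' V).Nonempty) := by
    intro V hV a
    have h2 := open_of_closure_eq (hyy a) V hV
    rw [singleton_inter_nonempty] at h2
    rw [← h2, image_inter_nonempty_iff]
  have hc : Continuous yy := by
    rw [continuous_def]
    intro V hV
    have h3 : yy ⁻¹' V = g ⁻¹' {B : KD X | (B.1 ∩ f ⁻¹' V).Nonempty} := by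
      ext a
      exact h1 V hV a
    rw [h3]
    exact @Continuous.isOpen_preimage _ _ _ (tKD X) g hg _ (isOpen_dia _ (hV.preimage hf))
  obtain ⟨h, hh, he⟩ := hY.2 m yy hc
  refine ⟨h (top m), ?_, ?_⟩
  · apply closure_eq_of_open
    intro V hV
    rw [singleton_inter_nonempty, image_inter_nonempty_iff,
      closure_inter_open_nonempty_iff (hV.preimage hf)]
    have h4 := (hV.preimage hh).2
    have h5 : (h (top m) ∈ V) ↔ ∃ a, yy a ∈ V := by
      constructor
      · intro h6
        obtain ⟨a, ha⟩ := h4.1 h6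
        exact ⟨a, he a ▸ ha⟩
      · rintro ⟨a, ha⟩
        apply h4.2
        refine ⟨a, ?_⟩
        show h (inc a) ∈ V
        rw [he a]
        exact ha
    rw [h5, iUnion_inter, nonempty_iUnion]
    exact exists_congr fun a => (h1 V hV a).symm
  · intro y hy
    apply Inseparable.eq
    rw [inseparable_iff_forall_isOpen]
    intro V hV
    have h6 := open_of_closure_eq hy V hV
    rw [singleton_inter_nonempty] at h6
    rw [← h6, image_inter_nonempty_iff,
      closure_inter_open_nonempty_iff (hV.preimage hf)]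
    have h4 := (hV.preimage hh).2
    have h5 : (h (top m) ∈ V) ↔ ∃ a, yy a ∈ V := by
      constructor
      · intro h6
        obtain ⟨a, ha⟩ := h4.1 h6
        exact ⟨a, he a ▸ ha⟩
      · rintro ⟨a, ha⟩
        apply h4.2
        refine ⟨a, ?_⟩
        show h (inc a) ∈ V
        rw [he a]
        exact ha
    rw [h5, iUnion_inter, nonempty_iUnion]
    exact exists_congr fun a => (h1 V hV a).symm

theorem K_adequate (X : Type) [TopologicalSpace X] : @K (KD X) (tKD X) := by
  letI := tKD X
  refine ⟨?_, ?_⟩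
  · rw [t0Space_iff_inseparable]
    intro B C h
    rw [inseparable_iff_forall_isOpen] at h
    have key : ∀ B C : KD X, (∀ s : Set (KD X), IsOpen s → (B ∈ s ↔ C ∈ s)) → B.1 ⊆ C.1 := by
      intro B C h x hx
      by_contra hxC
      have h1 := (h _ (isOpen_dia (C.1ᶜ) C.2.1.isOpen_compl)).1 ⟨x, hx, hxC⟩
      obtain ⟨y, hy, hy2⟩ := h1
      exact hy2 hy
    exact Subtype.ext (Subset.antisymm (key B C h) (key C B fun s hs => (h s hs).symm))
  · intro m g hg
    let T : KD X := ⟨closure (⋃ a, (g a).1), isClosed_closure,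
      fun Y _ hY f hf => union_mem g hg Y hY f hf⟩
    refine ⟨fun p => Option.elim (p : Option (A m)) T g, ?_, fun a => rfl⟩
    rw [continuous_generateFrom_iff]
    rintro _ ⟨U, hU, rfl⟩
    refine ⟨(isOpen_dia U hU).preimage hg, ?_⟩
    show (closure (⋃ a, (g a).1) ∩ U).Nonempty ↔ _
    rw [closure_inter_open_nonempty_iff hU, iUnion_inter, nonempty_iUnion]
    rfl

end Pool.Agent.Helper800.KLAd
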