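import Pool.Agent.Helper800.KLAd

set_option autoImplicit false

namespace Pool.Agent.Helper800.KLBack

open Topology Set Pool.Agent.Helper800.KL Pool.Agent.Helper800.KLAd

/-- No space through which all maps into Z factor is homeomorphic to the product of the R n. -/
theorem not_homeo (W : Type) [TopologicalSpace W] (μ : (∀ n, A n) → W)
    (hμ : ∃ h : W → Z, Continuous h ∧ h ∘ μ = gZ) (e : W ≃ₜ ∀ n, R n) : False := by
  obtain ⟨h, hh, he⟩ := hμ
  have key : ∀ n, (h (e.symm fun n => top n)).1 n = top n := by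
    intro n
    rcases R_cases ((h (e.symm fun n => top n)).1 n) with h1 | ⟨a, ha⟩
    · exact h1
    · exfalso
      obtain ⟨b, hb⟩ := exists_ne_A a
      let y : ∀ n, A n := Function.update (fun n => Classical.arbitrary (A n)) n b
      have hy : y n = b := by simp [y]
      have h2 : (fun n => top n : ∀ n, R n) ⤳ e (μ y) :=
        specializes_pi.2 fun n => top_specializes _
      have h3 := (h2.map e.symm.continuous).map hh
      rw [e.symm_apply_apply] at h3
      have h4 : h (μ y) = gZ y := congrFun he y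
      rw [h4] at h3
      have h5 : (h (e.symm fun n => top n)).1 n ⤳ (gZ y).1 n :=
        h3.map ((continuous_apply n).comp continuous_subtype_val)
      rw [ha] at h5
      have h6 : (gZ y).1 n = inc b := by
        show inc (y n) = inc b
        rw [hy]
      rw [h6] at h5
      have h7 : (inc b : R n) ∈ ({inc a} : Set (R n)) := h5.mem_closed (closed_single a) rfl
      exact hb (inc_inj h7)
  have hfin := (h (e.symm fun n => top n)).2
  have huniv : {n | (h (e.symm fun n => top n)).1 n = top n} = univ := eq_univ_of_forall key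
  rw [huniv] at hfin
  exact infinite_univ hfin

theorem K_Prop : K Prop := by
  refine ⟨inferInstance, fun m g hg => ?_⟩
  have hU : IsOpen {a | g a} := by
    have := isOpen_singleton_true.preimage hg
    have h2 : g ⁻¹' {True} = {a | g a} := by
      ext a; simp
    rwa [h2] at this
  let V : Set (R m) := {p | (p = top m ∧ ∃ a, g a) ∨ ∃ a, p = inc a ∧ g a}
  have h1 : inc ⁻¹' V = {a | g a} := by
    ext a
    constructor
    · rintro (⟨h, -⟩ | ⟨b, h, h'⟩)
      · exact absurd h (inc_ne_top a)
      · have := inc_inj h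
        rw [this]; exact h'
    · intro h
      exact Or.inr ⟨a, rfl, h⟩
  have hV : IsOpen V := by
    rw [isOpen_R, h1]
    refine ⟨hU, ?_⟩
    constructor
    · rintro (⟨-, a, h⟩ | ⟨a, h, -⟩)
      · exact ⟨a, h⟩
      · exact absurd h.symm (inc_ne_top a)
    · rintro ⟨a, h⟩
      exact Or.inl ⟨rfl, a, h⟩
  refine ⟨fun p => p ∈ V, isOpen_iff_continuous_mem.1 hV, fun a => ?_⟩
  have : (inc a ∈ V) ↔ g a := by
    have := Set.ext_iff.1 h1 a
    exact this
  exact propext this

theorem K_prod (X Y : Type) [TopologicalSpace X] [TopologicalSpace Y] (hX : K X) (hY : K Y) :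
    K (X × Y) := by
  have := hX.1
  have := hY.1
  refine ⟨inferInstance, fun m g hg => ?_⟩
  obtain ⟨h1, hh1, he1⟩ := hX.2 m _ (continuous_fst.comp hg)
  obtain ⟨h2, hh2, he2⟩ := hY.2 m _ (continuous_snd.comp hg)
  exact ⟨fun p => (h1 p, h2 p), hh1.prodMk hh2, fun a => Prod.ext (he1 a) (he2 a)⟩

/-- Determined sets are irreducible. -/
theorem irr {X : Type} [TopologicalSpace X] (B : KD X) (U V : Set X) (hU : IsOpen U)
    (hV : IsOpen V) (h1 : (B.1 ∩ U).Nonempty) (h2 : (B.1 ∩ V).Nonempty) :
    (B.1 ∩ (U ∩ V)).Nonempty := by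
  have hc : Continuous (fun x : X => ((x ∈ U : Prop), (x ∈ V : Prop))) :=
    (isOpen_iff_continuous_mem.1 hU).prodMk (isOpen_iff_continuous_mem.1 hV)
  obtain ⟨y, hy, -⟩ := B.2.2 (Prop × Prop) (K_prod _ _ K_Prop K_Prop) _ hc
  have hy : closure ((fun x : X => ((x ∈ U : Prop), (x ∈ V : Prop))) '' B.1) = closure {y} := hy
  have ho1 : IsOpen {p : Prop × Prop | p.1} := by
    have := isOpen_singleton_true.preimage (continuous_fst : Continuous (Prod.fst : Prop × Prop → Prop))
    convert this using 1
    ext p; simp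
  have ho2 : IsOpen {p : Prop × Prop | p.2} := by
    have := isOpen_singleton_true.preimage (continuous_snd : Continuous (Prod.snd : Prop × Prop → Prop))
    convert this using 1
    ext p; simp
  have a1 := open_of_closure_eq hy _ ho1
  have a2 := open_of_closure_eq hy _ ho2
  have a3 := open_of_closure_eq hy _ (ho1.inter ho2)
  rw [singleton_inter_nonempty, image_inter_nonempty_iff] at a1 a2 a3
  have b1 : y.1 := a1.1 h1
  have b2 : y.2 := a2.1 h2
  exact a3.2 ⟨b1, b2⟩

/-- The unit. -/
def unit {X : Type} [TopologicalSpace X] (x : X) : KD X :=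
  ⟨closure {x}, isClosed_closure, fun Y _ hY f hf => by
    have h1 : closure (f '' closure {x}) = closure {f x} := by
      rw [closure_image_closure hf, image_singleton]
    refine ⟨f x, h1, fun y hy => ?_⟩
    have := hY.1
    apply Inseparable.eq
    rw [inseparable_iff_closure_eq, ← hy, h1]⟩

theorem meet_unit {X : Type} [TopologicalSpace X] (x : X) (U : Set X) (hU : IsOpen U) :
    ((unit x).1 ∩ U).Nonempty ↔ x ∈ U := by
  show (closure {x} ∩ U).Nonempty ↔ x ∈ U
  rw [closure_inter_open_nonempty_iff hU, singleton_inter_nonempty]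

theorem continuous_unit (X : Type) [TopologicalSpace X] :
    @Continuous _ _ _ (tKD X) (unit : X → KD X) := by
  let _ := tKD X
  rw [continuous_generateFrom_iff]
  rintro _ ⟨U, hU, rfl⟩
  have : unit ⁻¹' {A : KD X | (A.1 ∩ U).Nonempty} = U := by
    ext x
    exact meet_unit x U hU
  rw [this]
  exact hU

/-- Every open neighbourhood of a determined set contains a unit of one of its points. -/
theorem dense_unit {X : Type} [TopologicalSpace X] (B : KD X) (hB : B.1.Nonempty)
    (O : Set (KD X)) (hO : @IsOpen _ (tKD X) O) (hBO : B ∈ O) : ∃ x ∈ B.1, unit x ∈ O := by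
  have key : ∀ O : Set (KD X), TopologicalSpace.GenerateOpen
      {S | ∃ U : Set X, IsOpen U ∧ S = {A : KD X | (A.1 ∩ U).Nonempty}} O → B ∈ O →
      ∃ U : Set X, IsOpen U ∧ (B.1 ∩ U).Nonempty ∧ ∀ x ∈ U, unit x ∈ O := by
    intro O hO
    induction hO with
    | basic s hs =>
      obtain ⟨U, hU, rfl⟩ := hs
      intro h
      exact ⟨U, hU, h, fun x hx => (meet_unit x U hU).2 hx⟩
    | univ => intro _; exact ⟨Set.univ, isOpen_univ, by simpa using hB, fun x _ => mem_univ _⟩
    | inter s t _ _ hs ht =>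
      rintro ⟨h1, h2⟩
      obtain ⟨U, hU, a1, a2⟩ := hs h1
      obtain ⟨V, hV, b1, b2⟩ := ht h2
      exact ⟨U ∩ V, hU.inter hV, irr B U V hU hV a1 b1, fun x hx => ⟨a2 x hx.1, b2 x hx.2⟩⟩
    | sUnion S _ hS =>
      rintro ⟨s, hs, h⟩
      obtain ⟨U, hU, a1, a2⟩ := hS s hs h
      exact ⟨U, hU, a1, fun x hx => ⟨s, hs, a2 x hx⟩⟩
  obtain ⟨U, hU, ⟨x, hx1, hx2⟩, h2⟩ := key O hO hBO
  exact ⟨x, hx1, h2 x hx2⟩

theorem mono_open {X : Type} [TopologicalSpace X] (B C : KD X) (h : B.1 ⊆ C.1)
    (O : Set (KD X)) (hO : @IsOpen _ (tKD X) O) (hBO : B ∈ O) : C ∈ O := by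
  have key : ∀ O : Set (KD X), TopologicalSpace.GenerateOpen
      {S | ∃ U : Set X, IsOpen U ∧ S = {A : KD X | (A.1 ∩ U).Nonempty}} O → B ∈ O → C ∈ O := by
    intro O hO
    induction hO with
    | basic s hs =>
      obtain ⟨U, hU, rfl⟩ := hs
      rintro ⟨x, hx1, hx2⟩
      exact ⟨x, h hx1, hx2⟩
    | univ => exact fun _ => mem_univ _
    | inter s t _ _ hs ht => exact fun h => ⟨hs h.1, ht h.2⟩
    | sUnion S _ hS =>
      rintro ⟨s, hs, h⟩
      exact ⟨s, hs, hS s hs h⟩
  exact key O hO hBO

theorem nonempty_KD {X : Type} [TopologicalSpace X] (B : KD X) : B.1.Nonempty := by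
  by_contra h
  rw [not_nonempty_iff_eq_empty] at h
  obtain ⟨y, hy, -⟩ := B.2.2 Prop K_Prop (fun _ => True) continuous_const
  have hy : closure ((fun _ : X => True) '' B.1) = closure {y} := hy
  rw [h, image_empty, closure_empty] at hy
  exact (subset_closure.trans hy.symm.subset (mem_singleton y)).elim

/-- Existence of reflections. -/
theorem refl_exists (X : Type) [TopologicalSpace X] :
    ∃ (W : Type) (_ : TopologicalSpace W) (μ : X → W), Continuous μ ∧ K W ∧
      ∀ (Y : Type) [TopologicalSpace Y], K Y → ∀ g : X → Y, Continuous g →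
        ∃! h : W → Y, Continuous h ∧ h ∘ μ = g := by
  refine ⟨KD X, tKD X, unit, continuous_unit X, K_adequate X, fun Y _ hY g hg => ?_⟩
  let _ := tKD X
  have := hY.1
  choose yy hyy using fun B : KD X => (B.2.2 Y hY g hg).exists
  have h1 : ∀ (V : Set Y), IsOpen V → ∀ B : KD X, (yy B ∈ V ↔ (B.1 ∩ g ⁻¹' V).Nonempty) := by
    intro V hV B
    have h2 := open_of_closure_eq (hyy B) V hV
    rw [singleton_inter_nonempty] at h2
    rw [← h2, image_inter_nonempty_iff]
  refine ⟨yy, ⟨?_, ?_⟩, ?_⟩
  · rw [continuous_def]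
    intro V hV
    have h3 : yy ⁻¹' V = {B : KD X | (B.1 ∩ g ⁻¹' V).Nonempty} := by
      ext B
      exact h1 V hV B
    rw [h3]
    exact isOpen_dia _ (hV.preimage hg)
  · funext x
    apply Inseparable.eq
    rw [inseparable_iff_forall_isOpen]
    intro V hV
    show yy (unit x) ∈ V ↔ g x ∈ V
    rw [h1 V hV, meet_unit x _ (hV.preimage hg)]
    rfl
  · rintro h' ⟨hh', he'⟩
    funext B
    apply Inseparable.eq
    rw [inseparable_iff_forall_isOpen]
    intro V hV
    rw [h1 V hV]
    constructor
    · intro h2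
      obtain ⟨x, hx1, hx2⟩ := dense_unit B (nonempty_KD B) (h' ⁻¹' V) (hV.preimage hh') h2
      refine ⟨x, hx1, ?_⟩
      show g x ∈ V
      rw [← he']
      exact hx2
    · rintro ⟨x, hx1, hx2⟩
      have h3 : B ⤳ unit x := by
        rw [specializes_iff_forall_open]
        intro O hO hxO
        exact mono_open (unit x) B (closure_minimal (singleton_subset_iff.2 hx1) B.2.1) O hO hxO
      have h4 : h' (unit x) ∈ V := by
        have := congrFun he' x
        show (h' ∘ unit) x ∈ V
        rw [this]; exact hx2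
      exact (h3.map hh').mem_open hV h4

end Pool.Agent.Helper800.KLBack
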