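import Mathlib
import Pool.Agent.Helper800.AtEq

set_option autoImplicit false

namespace Pool.Agent.Helper800.NotU

open Filter Topology Set OnePoint Uniformity
open scoped NNReal
open Pool.Agent.Helper800.AtEq

lemma exists_delta {P : Type} (I : Finset P) (d : P → ℝ) (hd : ∀ x, 0 < d x) :
    ∃ δ : ℝ, 0 < δ ∧ ∀ x ∈ I, δ ≤ d x := by
  classical
  induction I using Finset.induction_on with
  | empty => exact ⟨1, one_pos, by simp⟩
  | insert a s _ ih =>
    obtain ⟨δ, h1, h2⟩ := ih
    refine ⟨min δ (d a), lt_min h1 (hd a), fun x hx => ?_⟩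
    rcases Finset.mem_insert.1 hx with rfl | hx
    · exact min_le_right _ _
    · exact (min_le_left _ _).trans (h2 x hx)

variable {P Q : Type} [TopologicalSpace P] [TopologicalSpace Q]

lemma uc {w : {f : P → ℝ // Continuous f} → {g : Q → ℝ // Continuous g}}
    (hw : UniformContinuous w) (q : Q) {ε : ℝ} (hε : 0 < ε) :
    ∃ (K : Finset P) (δ : ℝ), 0 < δ ∧ ∀ f f' : {f : P → ℝ // Continuous f},
      (∀ x ∈ K, |f.1 x - f'.1 x| < δ) → |(w f).1 q - (w f').1 q| < ε := by
  classical
  have h1 : UniformContinuous fun f => (w f).1 q :=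
    (Pi.uniformContinuous_proj _ q).comp (uniformContinuous_subtype_val.comp hw)
  have h2 : {p : ℝ × ℝ | dist p.1 p.2 < ε} ∈ 𝓤 ℝ := Metric.dist_mem_uniformity hε
  have h3 := h1 h2
  rw [mem_map, uniformity_subtype, mem_comap] at h3
  obtain ⟨U, hU, hU2⟩ := h3
  rw [Pi.uniformity, mem_iInf'] at hU
  obtain ⟨I, hI, V, hV, -, hUV, -⟩ := hU
  have hV' : ∀ i, ∃ d : ℝ, 0 < d ∧ {p : (P → ℝ) × (P → ℝ) | |p.1 i - p.2 i| < d} ⊆ V i := by
    intro i
    obtain ⟨W, hW, hW2⟩ := mem_comap.1 (hV i)
    obtain ⟨d, hd, hd2⟩ := Metric.mem_uniformity_dist.1 hW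
    refine ⟨d, hd, fun p hp => hW2 ?_⟩
    exact hd2 (by rw [Real.dist_eq]; exact hp)
  choose d hd hdV using hV'
  obtain ⟨δ, hδ, hδ2⟩ := exists_delta hI.toFinset d hd
  refine ⟨hI.toFinset, δ, hδ, fun f f' hff => ?_⟩
  have h4 : (f.1, f'.1) ∈ U := by
    rw [hUV]
    refine mem_iInter₂.2 fun i hi => hdV i ?_
    have hi' := hI.mem_toFinset.2 hi
    exact (hff i hi').trans_le (hδ2 i hi')
  have h5 := hU2 (show (f, f') ∈ _ from h4)
  have h6 : dist ((w f).1 q) ((w f').1 q) < ε := h5
  rwa [Real.dist_eq] at h6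

/-- chaining -/
lemma chain {w : {f : P → ℝ // Continuous f} → {g : Q → ℝ // Continuous g}} {q : Q}
    {K : Finset P} {δ : ℝ} (h : ∀ f f' : {f : P → ℝ // Continuous f},
      (∀ x ∈ K, |f.1 x - f'.1 x| < δ) → |(w f).1 q - (w f').1 q| < 1)
    {m : ℕ} (hm : 0 < m) (f f' : {f : P → ℝ // Continuous f})
    (hff : ∀ x ∈ K, |f.1 x - f'.1 x| < m * δ) :
    |(w f).1 q - (w f').1 q| ≤ m := by
  let g : ℕ → {f : P → ℝ // Continuous f} := fun k =>
    ⟨fun x => f.1 x + (k / m : ℝ) * (f'.1 x - f.1 x),
      f.2.add (continuous_const.mul (f'.2.sub f.2))⟩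
  have hm' : (0 : ℝ) < m := by exact_mod_cast hm
  have hg : ∀ k, |(w f).1 q - (w (g k)).1 q| ≤ k := by
    intro k
    induction k with
    | zero =>
      have : g 0 = f := by
        apply Subtype.ext
        funext x
        simp [g]
      rw [this]
      simp
    | succ k ih =>
      have h1 := h (g k) (g (k + 1)) (by
        intro x hx
        have h2 : (g k).1 x - (g (k + 1)).1 x = (f.1 x - f'.1 x) / m := by
          show (f.1 x + (k / m : ℝ) * (f'.1 x - f.1 x)) -
            (f.1 x + (((k + 1 : ℕ) : ℝ) / m : ℝ) * (f'.1 x - f.1 x)) = _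
          push_cast
          field_simp
          ring
        rw [h2, abs_div, abs_of_pos hm', div_lt_iff₀ hm', mul_comm]
        exact hff x hx)
      have h2 := abs_sub_le ((w f).1 q) ((w (g k)).1 q) ((w (g (k + 1))).1 q)
      push_cast
      linarith
  have h3 : g m = f' := by
    apply Subtype.ext
    funext x
    show f.1 x + (m / m : ℝ) * (f'.1 x - f.1 x) = f'.1 x
    rw [div_self hm'.ne']
    ring
  have := hg m
  rwa [h3] at this

/-- truncated function on a block -/
noncomputable def tr (F : ℕ → ℝ) (N : ℕ) : OnePoint ℕ → ℝ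
  | OnePoint.infty => 0
  | OnePoint.some k => if k < N then F k else 0

lemma tr_cont (F : ℕ → ℝ) (N : ℕ) : Continuous (tr F N) := by
  rw [continuous_iff_from_nat]
  show Tendsto (fun k : ℕ => if k < N then F k else 0) atTop (𝓝 0)
  refine tendsto_const_nhds.congr' ?_
  filter_upwards [eventually_ge_atTop N] with k hk
  rw [if_neg (by omega)]

/-- function on `Y` given by the truncation levels -/
noncomputable def fa (F : ℕ → ℕ → ℝ) (a : ℕ → ℕ) : {g : Y → ℝ // Continuous g} :=
  ⟨fun y => tr (F y.2) (a y.2) y.1, by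
    rw [continuous_prod_of_discrete_right]
    intro i
    exact tr_cont (F i) (a i)⟩

lemma fa_cont (F : ℕ → ℕ → ℝ) : Continuous (fa F) := by
  refine Continuous.subtype_mk ?_ _
  refine continuous_pi fun y => ?_
  have : Continuous fun n : ℕ => tr (F y.2) n y.1 := continuous_of_discreteTopology
  exact this.comp (continuous_apply y.2)

theorem not_uniformEquiv
    (u : {f : X → ℝ // Continuous f} ≃ᵤ {g : Y → ℝ // Continuous g}) : False := by
  classical
  have hu := u.uniformContinuous
  have hv := u.symm.uniformContinuous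
  have huc : ∀ y : Y, ∃ (K : Finset X) (δ : ℝ), 0 < δ ∧ ∀ f f' : {f : X → ℝ // Continuous f},
      (∀ x ∈ K, |f.1 x - f'.1 x| < δ) → |(u f).1 y - (u f').1 y| < 1 :=
    fun y => uc hu y one_pos
  choose L δ hδ hL using huc
  -- growth
  let st : Y → ℕ → ℕ := fun y k => ⌈(k : ℝ) / δ y⌉₊ + 1
  have hst : ∀ (y : Y) (k : ℕ), (k : ℝ) < st y k * δ y ∧ δ y ≤ st y k * δ y := by
    intro y k
    have h1 := Nat.le_ceil ((k : ℝ) / δ y)
    rw [div_le_iff₀ (hδ y)] at h1
    have h2 : ((st y k : ℕ) : ℝ) * δ y = ⌈(k : ℝ) / δ y⌉₊ * δ y + δ y := by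
      show (((⌈(k : ℝ) / δ y⌉₊ + 1 : ℕ)) : ℝ) * δ y = _
      push_cast
      ring
    have h3 := hδ y
    have h4 : 0 ≤ (⌈(k : ℝ) / δ y⌉₊ : ℝ) * δ y := by positivity
    rw [h2]
    constructor <;> linarith
  let F : ℕ → ℕ → ℝ := fun i k => st ((k : OnePoint ℕ), i) k + k
  -- Baire category
  let Φ : (ℕ → ℕ) → {f : X → ℝ // Continuous f} := fun a => u.symm (fa F a)
  have hΦ : Continuous Φ := u.symm.uniformContinuous.continuous.comp (fa_cont F)
  let E : ℕ → Set (ℕ → ℕ) := fun m => {a | ∀ p : OnePoint ℕ, |(Φ a).1 (Sum.inl p)| ≤ m}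
  have hEc : ∀ m, IsClosed (E m) := by
    intro m
    have : E m = ⋂ p : OnePoint ℕ, {a | |(Φ a).1 (Sum.inl p)| ≤ m} := by
      ext a
      simp [E]
    rw [this]
    refine isClosed_iInter fun p => ?_
    refine isClosed_le ?_ continuous_const
    exact ((continuous_apply (Sum.inl p)).comp (continuous_subtype_val.comp hΦ)).abs
  have hEu : ⋃ m, E m = univ := by
    refine eq_univ_of_forall fun a => ?_
    have hc : Continuous fun p : OnePoint ℕ => |(Φ a).1 (Sum.inl p)| :=
      ((Φ a).2.comp continuous_inl).abs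
    obtain ⟨M, hM⟩ := (isCompact_range hc).bddAbove
    obtain ⟨m, hm⟩ := exists_nat_ge M
    exact mem_iUnion.2 ⟨m, fun p => (hM ⟨p, rfl⟩).trans hm⟩
  obtain ⟨m, a0, ha0⟩ := nonempty_interior_of_iUnion_of_closed hEc hEu
  -- a block which is free
  obtain ⟨i, hi⟩ : ∃ i : ℕ, ∀ N, Function.update a0 i N ∈ E m := by
    have h1 : E m ∈ 𝓝 a0 := mem_interior_iff_mem_nhds.1 ha0
    rw [nhds_pi, Filter.mem_pi'] at h1
    obtain ⟨S, t, ht, hSt⟩ := h1
    obtain ⟨i, hi⟩ := Infinite.exists_notMem_finset S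
    refine ⟨i, fun N => hSt ?_⟩
    intro j hj
    have hji : j ≠ i := by
      rintro rfl
      exact hi hj
    rw [Function.update_of_ne hji]
    exact mem_of_mem_nhds (ht j)
  let g : ℕ → {f : X → ℝ // Continuous f} := fun N => Φ (Function.update a0 i N)
  have hgb : ∀ N p, |(g N).1 (Sum.inl p)| ≤ m := fun N p => hi N p
  have hgu : ∀ N, u (g N) = fa F (Function.update a0 i N) := by
    intro N
    show u (u.symm _) = _
    exact u.apply_symm_apply _
  -- the functions stabilise pointwise
  have hstab : ∀ y : Y, ∃ N0, ∀ N ≥ N0, ∀ N' ≥ N0,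
      (fa F (Function.update a0 i N)).1 y = (fa F (Function.update a0 i N')).1 y := by
    rintro ⟨p, j⟩
    by_cases hj : j = i
    · subst hj
      induction p using OnePoint.rec with
      | infty => exact ⟨0, fun _ _ _ _ => rfl⟩
      | coe k =>
        refine ⟨k + 1, fun N hN N' hN' => ?_⟩
        show (if k < Function.update a0 j N j then F j k else 0)
          = (if k < Function.update a0 j N' j then F j k else 0)
        rw [Function.update_self, Function.update_self, if_pos (by omega), if_pos (by omega)]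
    · refine ⟨0, fun N _ N' _ => ?_⟩
      show tr (F j) (Function.update a0 i N j) p = tr (F j) (Function.update a0 i N' j) p
      rw [Function.update_of_ne hj, Function.update_of_ne hj]
  have hcau : ∀ x : X, ∃ b : ℝ, Tendsto (fun N => (g N).1 x) atTop (𝓝 b) := by
    intro x
    refine cauchySeq_tendsto_of_complete ?_
    rw [Metric.cauchySeq_iff']
    intro ε hε
    obtain ⟨K, d, hd, hK⟩ := uc hv x hε
    choose N0 hN0 using hstab
    refine ⟨K.sup N0, fun N hN => ?_⟩
    rw [Real.dist_eq]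
    refine hK _ _ fun y hy => ?_
    have h1 : N0 y ≤ K.sup N0 := Finset.le_sup hy
    rw [hN0 y N (h1.trans hN) (K.sup N0) h1]
    simpa using hd
  choose b hb using hcau
  let g' : {f : X → ℝ // Continuous f} := ⟨fun x => Sum.elim (fun _ => 0) (fun n => b (Sum.inr n)) x, by
    refine continuous_sum_dom.2 ⟨?_, continuous_of_discreteTopology⟩
    exact continuous_const⟩
  -- lower bound on the image
  have hlow : ∀ k : ℕ, m ≤ k → (k : ℝ) ≤ (u g').1 ((k : OnePoint ℕ), i) := by
    intro k hk
    have hev : ∀ᶠ N in atTop, ∀ x ∈ L ((k : OnePoint ℕ), i), |(g N).1 x - b x| < δ ((k : OnePoint ℕ), i) := by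
      rw [Filter.eventually_all_finset]
      intro x _
      have := (hb x).eventually (Metric.ball_mem_nhds _ (hδ ((k : OnePoint ℕ), i)))
      filter_upwards [this] with N hN
      rwa [Real.dist_eq] at hN
    obtain ⟨N, hN1, hN2⟩ := (hev.and (eventually_gt_atTop k)).exists
    have hst' := hst ((k : OnePoint ℕ), i) k
    have h1 : |(u (g N)).1 ((k : OnePoint ℕ), i) - (u g').1 ((k : OnePoint ℕ), i)|
        ≤ st ((k : OnePoint ℕ), i) k := by
      refine chain (hL ((k : OnePoint ℕ), i)) (Nat.succ_pos _) (g N) g' fun x hx => ?_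
      rcases x with p | n
      · show |(g N).1 (Sum.inl p) - 0| < _
        rw [sub_zero]
        have h2 := hgb N p
        have h3 : (m : ℝ) ≤ k := by exact_mod_cast hk
        exact (h2.trans h3).trans_lt hst'.1
      · exact (hN1 _ hx).trans_le hst'.2
    have h4 : (u (g N)).1 ((k : OnePoint ℕ), i) = F i k := by
      rw [hgu]
      show (if k < Function.update a0 i N i then F i k else 0) = _
      rw [Function.update_self, if_pos hN2]
    rw [h4] at h1
    have h5 := (abs_le.1 h1).2
    have h6 : F i k = st ((k : OnePoint ℕ), i) k + k := rfl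
    rw [h6] at h5
    linarith
  have hcont : Continuous fun p : OnePoint ℕ => (u g').1 (p, i) :=
    (u g').2.comp (continuous_id.prodMk continuous_const)
  have hlim := (continuous_iff_from_nat _).1 hcont
  have htop : Tendsto (fun k : ℕ => (u g').1 ((k : OnePoint ℕ), i)) atTop atTop := by
    refine tendsto_atTop_mono' atTop ?_ tendsto_natCast_atTop_atTop
    filter_upwards [eventually_ge_atTop m] with k hk
    exact hlow k hk
  exact not_tendsto_nhds_of_tendsto_atTop htop _ hlim

end Pool.Agent.Helper800.NotU
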