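import Mathlib

set_option autoImplicit false

namespace Pool.Agent.Helper800.SDeg

open Topology Set Nat.Partrec

/-- The rule: a node belongs to one set iff both of its children belong to the other set; the roots
are in neither set. -/
def Rule (G : ℕ × Bool → Bool) : Prop :=
  (∀ n t, G (n, t) = true ↔ (G (2 * n + 1, !t) = true ∧ G (2 * n + 2, !t) = true)) ∧
    ∀ t, G (0, t) = false

def St : Type := {G : ℕ × Bool → Bool // Rule G}

instance : TopologicalSpace St := instTopologicalSpaceSubtype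

theorem continuous_ev (p : ℕ × Bool) : Continuous (fun G : St => G.1 p) :=
  (continuous_apply p).comp continuous_subtype_val

theorem isClosed_rule : IsClosed {G : ℕ × Bool → Bool | Rule G} := by
  have h1 : {G : ℕ × Bool → Bool | Rule G} =
      (⋂ n, ⋂ t, {G : ℕ × Bool → Bool | (G (n, t) = true ↔
        (G (2 * n + 1, !t) = true ∧ G (2 * n + 2, !t) = true))}) ∩
      ⋂ t, {G : ℕ × Bool → Bool | G (0, t) = false} := by
    ext G
    simp only [Rule, mem_ofPred_eq, mem_inter_iff, mem_iInter]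
  rw [h1]
  apply IsClosed.inter
  · apply isClosed_iInter
    intro n
    apply isClosed_iInter
    intro t
    have : {G : ℕ × Bool → Bool | (G (n, t) = true ↔
        (G (2 * n + 1, !t) = true ∧ G (2 * n + 2, !t) = true))} =
        (fun G : ℕ × Bool → Bool => (G (n, t), G (2 * n + 1, !t), G (2 * n + 2, !t))) ⁻¹'
          {x : Bool × Bool × Bool | x.1 = true ↔ (x.2.1 = true ∧ x.2.2 = true)} := rfl
    rw [this]
    exact (isClosed_discrete _).preimage (by fun_prop)
  · apply isClosed_iInter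
    intro t
    have : {G : ℕ × Bool → Bool | G (0, t) = false} =
        (fun G : ℕ × Bool → Bool => G (0, t)) ⁻¹' {false} := rfl
    rw [this]
    exact (isClosed_discrete _).preimage (by fun_prop)

instance : CompactSpace St := isCompact_iff_compactSpace.1 isClosed_rule.isCompact

instance : T2Space St := inferInstanceAs (T2Space {G : ℕ × Bool → Bool // Rule G})

instance : Nonempty St := ⟨⟨fun _ => false, by simp [Rule]⟩⟩

theorem nbhd (G : St) (O : Set St) (hO : IsOpen O) (hG : G ∈ O) :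
    ∃ k, ∀ G' : St, (∀ n t, n < 2 * k + 1 → G'.1 (n, t) = G.1 (n, t)) → G' ∈ O := by
  obtain ⟨V, hV, rfl⟩ := isOpen_induced_iff.1 hO
  obtain ⟨I, u, hu, hI⟩ := isOpen_pi_iff.1 hV G.1 hG
  refine ⟨I.sup Prod.fst, fun G' h => ?_⟩
  apply hI
  intro p hp
  have h1 : p.1 ≤ I.sup Prod.fst := Finset.le_sup (f := Prod.fst) hp
  have h2 := h p.1 p.2 (by omega)
  show G'.1 p ∈ u p
  rw [show G'.1 p = G.1 p from h2]
  exact (hu p hp).2

theorem isOpen_agree (G : St) (N : ℕ) :
    IsOpen {G' : St | ∀ n t, n < N → G'.1 (n, t) = G.1 (n, t)} := by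
  have : {G' : St | ∀ n t, n < N → G'.1 (n, t) = G.1 (n, t)} =
      ⋂ n ∈ Finset.range N, ⋂ t, (fun G' : St => G'.1 (n, t)) ⁻¹' {G.1 (n, t)} := by
    ext G'
    simp only [mem_ofPred_eq, mem_iInter, Finset.mem_range, mem_preimage, mem_singleton_iff]
    exact ⟨fun h n hn t => h n t hn, fun h n t hn => h n hn t⟩
  rw [this]
  apply isOpen_biInter_finset
  intro n _
  apply isOpen_iInter_of_finite
  intro t
  exact (isOpen_discrete _).preimage (continuous_ev _)

/-- Closure of a seed under passing to children. -/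
def Gen (seed : ℕ → Bool → Bool) (n : ℕ) (t : Bool) : Bool :=
  if h : n = 0 then seed 0 t else seed n t || Gen seed ((n - 1) / 2) (!t)
termination_by n
decreasing_by omega

theorem Gen_zero (seed : ℕ → Bool → Bool) (t : Bool) : Gen seed 0 t = seed 0 t := by
  rw [Gen]; simp

theorem Gen_odd (seed : ℕ → Bool → Bool) (n : ℕ) (t : Bool) :
    Gen seed (2 * n + 1) t = (seed (2 * n + 1) t || Gen seed n (!t)) := by
  rw [Gen, dif_neg (by omega)]
  congr 2
  omega

theorem Gen_even (seed : ℕ → Bool → Bool) (n : ℕ) (t : Bool) :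
    Gen seed (2 * n + 2) t = (seed (2 * n + 2) t || Gen seed n (!t)) := by
  rw [Gen, dif_neg (by omega)]
  congr 2
  omega

theorem nat_cases (n : ℕ) : n = 0 ∨ (∃ m, n = 2 * m + 1) ∨ ∃ m, n = 2 * m + 2 := by
  rcases Nat.even_or_odd' n with ⟨m, h | h⟩
  · rcases m with _ | m
    · left; omega
    · right; right; exact ⟨m, by omega⟩
  · right; left; exact ⟨m, h⟩

theorem child1 (G : St) {n : ℕ} {t : Bool} (h : G.1 (n, !t) = true) : G.1 (2 * n + 1, t) = true := by
  have := ((G.2.1 n (!t)).1 h).1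
  simpa using this

theorem child2 (G : St) {n : ℕ} {t : Bool} (h : G.1 (n, !t) = true) : G.1 (2 * n + 2, t) = true := by
  have := ((G.2.1 n (!t)).1 h).2
  simpa using this

theorem perturb (G : St) (k x : ℕ) (t0 : Bool) (hx : 2 * k + 1 ≤ x) :
    ∃ G' : St, (∀ n t, n < 2 * k + 1 → G'.1 (n, t) = G.1 (n, t)) ∧ G'.1 (x, t0) = true ∧
      ∀ n t, n ≤ x → G'.1 (n, t) = true → G.1 (n, t) = true ∨ (n = x ∧ t = t0) := by
  let seed : ℕ → Bool → Bool := fun n t =>
    (decide (n < 2 * k + 1) && G.1 (n, t)) || (decide (n = x) && decide (t = t0))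
  have seed_lt : ∀ n t, n < 2 * k + 1 → seed n t = G.1 (n, t) := by
    intro n t hn
    have h2 : ¬ n = x := by omega
    simp only [seed, hn, h2, decide_true, decide_false, Bool.true_and, Bool.false_and,
      Bool.or_false]
  have seed_ge : ∀ n t, ¬ n < 2 * k + 1 → seed n t = true → n = x ∧ t = t0 := by
    intro n t hn h
    simp only [seed, hn, decide_false, Bool.false_and, Bool.false_or, Bool.and_eq_true,
      decide_eq_true_eq] at h
    exact h
  have seed_x : seed x t0 = true := by simp [seed]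
  let F : ℕ × Bool → Bool := fun p => Gen seed p.1 p.2
  have hagree : ∀ n, ∀ t, n < 2 * k + 1 → Gen seed n t = G.1 (n, t) := by
    intro n
    induction n using Nat.strong_induction_on with
    | _ n ih =>
      intro t hn
      rcases nat_cases n with rfl | ⟨m, rfl⟩ | ⟨m, rfl⟩
      · rw [Gen_zero, seed_lt _ _ hn]
      · rw [Gen_odd, seed_lt _ _ hn, ih m (by omega) _ (by omega)]
        cases h : G.1 (m, !t) with
        | false => simp
        | true => rw [child1 G h]; simp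
      · rw [Gen_even, seed_lt _ _ hn, ih m (by omega) _ (by omega)]
        cases h : G.1 (m, !t) with
        | false => simp
        | true => rw [child2 G h]; simp
  have hrule : Rule F := by
    constructor
    · intro n t
      show Gen seed n t = true ↔ (Gen seed (2 * n + 1) (!t) = true ∧ Gen seed (2 * n + 2) (!t) = true)
      rw [Gen_odd, Gen_even, Bool.not_not]
      constructor
      · intro h
        simp [h]
      · rintro ⟨h1, h2⟩
        by_contra hcon
        rw [Bool.not_eq_true] at hcon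
        rw [hcon, Bool.or_false] at h1 h2
        by_cases hn : 2 * n + 1 < 2 * k + 1
        · rw [seed_lt _ _ hn] at h1
          rw [seed_lt _ _ (by omega)] at h2
          have h3 := (G.2.1 n t).2 ⟨h1, h2⟩
          rw [hagree n t (by omega)] at hcon
          rw [hcon] at h3
          exact absurd h3 (by simp)
        · have h3 := seed_ge _ _ hn h1
          have h4 := seed_ge _ _ (by omega) h2
          omega
    · intro t
      show Gen seed 0 t = false
      rw [Gen_zero, seed_lt _ _ (by omega)]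
      exact G.2.2 t
  refine ⟨⟨F, hrule⟩, fun n t hn => hagree n t hn, ?_, ?_⟩
  · show Gen seed x t0 = true
    rcases nat_cases x with h | ⟨m, h⟩ | ⟨m, h⟩
    · omega
    · rw [h] at seed_x ⊢
      rw [Gen_odd, seed_x]; simp
    · rw [h] at seed_x ⊢
      rw [Gen_even, seed_x]; simp
  · intro n
    induction n using Nat.strong_induction_on with
    | _ n ih =>
      intro t hn h
      have h' : Gen seed n t = true := h
      have hs : seed n t = true → G.1 (n, t) = true ∨ (n = x ∧ t = t0) := by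
        intro hs
        by_cases hlt : n < 2 * k + 1
        · left; rw [← seed_lt _ _ hlt]; exact hs
        · right; exact seed_ge _ _ hlt hs
      rcases nat_cases n with rfl | ⟨m, rfl⟩ | ⟨m, rfl⟩
      · rw [Gen_zero] at h'
        exact hs h'
      · rw [Gen_odd, Bool.or_eq_true] at h'
        rcases h' with h' | h'
        · exact hs h'
        · rcases ih m (by omega) (!t) (by omega) h' with h2 | h2
          · left; exact child1 G h2
          · omega
      · rw [Gen_even, Bool.or_eq_true] at h'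
        rcases h' with h' | h'
        · exact hs h'
        · rcases ih m (by omega) (!t) (by omega) h' with h2 | h2
          · left; exact child2 G h2
          · omega

theorem exists_false (G : St) (m : ℕ) : ∀ t, ∃ x, m ≤ x ∧ G.1 (x, t) = false := by
  induction m with
  | zero => intro t; exact ⟨0, le_rfl, G.2.2 t⟩
  | succ m ih =>
    intro t
    obtain ⟨x, hx, hxf⟩ := ih (!t)
    by_cases h1 : G.1 (2 * x + 1, t) = true
    · refine ⟨2 * x + 2, by omega, ?_⟩
      by_contra h2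
      rw [Bool.not_eq_false] at h2
      have := (G.2.1 x (!t)).2 (by simpa using ⟨h1, h2⟩)
      rw [hxf] at this
      exact absurd this (by simp)
    · exact ⟨2 * x + 1, by omega, by simpa using h1⟩

/-- The states in which the reduction W t enumerates z. -/
def P (W : Bool → Set (ℕ × ℕ)) (t : Bool) (z : ℕ) : Set St :=
  {G | ∃ y, (z, y) ∈ W t ∧ G.1 (y, t) = true}

theorem isOpen_P (W : Bool → Set (ℕ × ℕ)) (t : Bool) (z : ℕ) : IsOpen (P W t z) := by
  have : P W t z = ⋃ y, ⋃ (_ : (z, y) ∈ W t), (fun G : St => G.1 (y, t)) ⁻¹' {true} := by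
    ext G
    simp only [P, mem_ofPred_eq, mem_iUnion, mem_preimage, mem_singleton_iff, exists_prop]
  rw [this]
  exact isOpen_iUnion fun y => isOpen_iUnion fun _ => (isOpen_discrete _).preimage (continuous_ev _)

/-- The states that robustly separate the two reductions. -/
def GG (W : Bool → Set (ℕ × ℕ)) : Set St :=
  ⋃ z, ⋃ t, P W t z ∩ interior (P W (!t) z)ᶜ

theorem isOpen_GG (W : Bool → Set (ℕ × ℕ)) : IsOpen (GG W) :=
  isOpen_iUnion fun z => isOpen_iUnion fun t => (isOpen_P W t z).inter isOpen_interior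

theorem core (G : St) (W : Bool → Set (ℕ × ℕ)) (hGG : G ∈ interior (GG W)ᶜ)
    (hP : ∀ t z, G ∈ P W t z ∨ G ∈ interior (P W t z)ᶜ) (C : Set ℕ)
    (hC : ∀ t z, z ∈ C ↔ G ∈ P W t z) :
    ∃ k, ∀ z, z ∈ C ↔ ((∃ y, (z, y) ∈ W true ∧ (y < 2 * k + 1 → G.1 (y, true) = true)) ∨
      ∃ y, (z, y) ∈ W false ∧ (y < 2 * k + 1 → G.1 (y, false) = true)) := by
  obtain ⟨k, hk⟩ := nbhd G _ isOpen_interior hGG
  refine ⟨k, fun z => ⟨?_, ?_⟩⟩
  · intro hz
    obtain ⟨y, hy1, hy2⟩ := (hC true z).1 hz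
    exact Or.inl ⟨y, hy1, fun _ => hy2⟩
  · intro h
    by_contra hz
    have hnP : ∀ t, G ∉ P W t z := fun t hcon => hz ((hC t z).2 hcon)
    have hint : ∀ t, G ∈ interior (P W t z)ᶜ := fun t => (hP t z).resolve_left (hnP t)
    have hy0 : ∃ y t, (z, y) ∈ W t ∧ 2 * k + 1 ≤ y := by
      rcases h with ⟨y, hy1, hy2⟩ | ⟨y, hy1, hy2⟩
      · refine ⟨y, true, hy1, ?_⟩
        by_contra hlt
        exact hnP true ⟨y, hy1, hy2 (by omega)⟩
      · refine ⟨y, false, hy1, ?_⟩
        by_contra hlt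
        exact hnP false ⟨y, hy1, hy2 (by omega)⟩
    choose K hK using fun t => nbhd G _ isOpen_interior (hint t)
    have hbd : ∀ t y, (z, y) ∈ W t → y < 2 * K t + 1 := by
      intro t y hy
      by_contra hge
      obtain ⟨G', h1, h2, -⟩ := perturb G (K t) y t (by omega)
      exact interior_subset (hK t G' h1) ⟨y, hy, h2⟩
    let S : Set ℕ := {y | ∃ t, (z, y) ∈ W t}
    have hS1 : S.Nonempty := by
      obtain ⟨y, t, h1, -⟩ := hy0
      exact ⟨y, t, h1⟩
    have hS2 : BddAbove S := by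
      refine ⟨2 * (K true + K false) + 1, ?_⟩
      rintro y ⟨t, ht⟩
      have := hbd t y ht
      cases t <;> omega
    obtain ⟨t0, ht0⟩ : sSup S ∈ S := Nat.sSup_mem hS1 hS2
    have hmax : ∀ t y, (z, y) ∈ W t → y ≤ sSup S := fun t y h => le_csSup hS2 ⟨t, h⟩
    have hxk : 2 * k + 1 ≤ sSup S := by
      obtain ⟨y, t, h1, h2⟩ := hy0
      exact le_trans h2 (hmax t y h1)
    obtain ⟨G', h1, h2, h3⟩ := perturb G k (sSup S) t0 hxk
    apply interior_subset (hk G' h1)
    refine mem_iUnion.2 ⟨z, mem_iUnion.2 ⟨t0, ⟨sSup S, ht0, h2⟩, ?_⟩⟩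
    refine mem_interior.2 ⟨{G'' : St | ∀ n t, n < sSup S + 1 → G''.1 (n, t) = G'.1 (n, t)}, ?_,
      isOpen_agree G' _, fun n t _ => rfl⟩
    rintro G'' hG'' ⟨y, hy1, hy2⟩
    have hyx := hmax _ y hy1
    have hag : G''.1 (y, !t0) = G'.1 (y, !t0) := hG'' y (!t0) (by omega)
    rw [hag] at hy2
    rcases h3 y (!t0) hyx hy2 with h4 | ⟨-, h4⟩
    · exact hnP _ ⟨y, hy1, h4⟩
    · cases t0 <;> simp at h4

/-! ### Genericity -/

theorem dense_or_ext {X : Type} [TopologicalSpace X] {O : Set X} (hO : IsOpen O) :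
    ∀ᶠ x in residual X, x ∈ O ∨ x ∈ interior Oᶜ := by
  apply residual_of_dense_open (s := {x | x ∈ O ∨ x ∈ interior Oᶜ})
  · exact hO.union isOpen_interior
  · rw [dense_iff_inter_open]
    intro V hV hVne
    by_cases h : (V ∩ O).Nonempty
    · obtain ⟨x, hx, hxO⟩ := h
      exact ⟨x, hx, Or.inl hxO⟩
    · obtain ⟨x, hx⟩ := hVne
      refine ⟨x, hx, Or.inr (mem_interior.2 ⟨V, ?_, hV, hx⟩)⟩
      intro y hy hyO
      exact h ⟨y, hy, hyO⟩

/-- The reduction with code c. -/
def Wc (c : Code) : Set (ℕ × ℕ) := {p | (c.eval (Nat.pair p.1 p.2)).Dom}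

def pairW (c : Code × Code) : Bool → Set (ℕ × ℕ) := fun t => if t then Wc c.1 else Wc c.2

def NR (c : Code) (t : Bool) : Set St :=
  {G | ∃ n, (G.1 (n, t) = true ∧ ¬ (c.eval n).Dom) ∨ (G.1 (n, t) = false ∧ (c.eval n).Dom)}

theorem NR_residual (c : Code) (t : Bool) : ∀ᶠ G in residual St, G ∈ NR c t := by
  apply residual_of_dense_open (s := NR c t)
  · have : NR c t = ⋃ n, (((fun G : St => G.1 (n, t)) ⁻¹' {true}) ∩ {_G | ¬ (c.eval n).Dom}) ∪
        (((fun G : St => G.1 (n, t)) ⁻¹' {false}) ∩ {_G | (c.eval n).Dom}) := by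
      ext G
      simp only [NR, mem_ofPred_eq, mem_iUnion, mem_union, mem_inter_iff, mem_preimage,
        mem_singleton_iff]
    rw [this]
    apply isOpen_iUnion
    intro n
    exact (((isOpen_discrete _).preimage (continuous_ev _)).inter isOpen_const).union
      (((isOpen_discrete _).preimage (continuous_ev _)).inter isOpen_const)
  · rw [dense_iff_inter_open]
    rintro V hV ⟨G, hG⟩
    obtain ⟨k, hk⟩ := nbhd G V hV hG
    obtain ⟨x, hx, hxf⟩ := exists_false G (2 * k + 1) t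
    by_cases h : (c.eval x).Dom
    · exact ⟨G, hG, x, Or.inr ⟨hxf, h⟩⟩
    · obtain ⟨G', h1, h2, -⟩ := perturb G k x t hx
      exact ⟨G', hk G' h1, x, Or.inl ⟨h2, h⟩⟩

theorem exists_generic : ∃ G : St,
    (∀ c : Code × Code, G ∈ GG (pairW c) ∨ G ∈ interior (GG (pairW c))ᶜ) ∧
    (∀ (c : Code × Code) (t : Bool) (z : ℕ), G ∈ P (pairW c) t z ∨ G ∈ interior (P (pairW c) t z)ᶜ) ∧
    ∀ (c : Code) (t : Bool), G ∈ NR c t := by
  have h1 : ∀ᶠ G in residual St, ∀ c : Code × Code,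
      G ∈ GG (pairW c) ∨ G ∈ interior (GG (pairW c))ᶜ :=
    eventually_countable_forall.2 fun c => dense_or_ext (isOpen_GG _)
  have h2 : ∀ᶠ G in residual St, ∀ (c : Code × Code) (t : Bool) (z : ℕ),
      G ∈ P (pairW c) t z ∨ G ∈ interior (P (pairW c) t z)ᶜ :=
    eventually_countable_forall.2 fun c => eventually_countable_forall.2 fun t =>
      eventually_countable_forall.2 fun z => dense_or_ext (isOpen_P _ _ _)
  have h3 : ∀ᶠ G in residual St, ∀ (c : Code) (t : Bool), G ∈ NR c t :=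
    eventually_countable_forall.2 fun c => eventually_countable_forall.2 fun t => NR_residual c t
  have h4 := h1.and (h2.and h3)
  obtain ⟨G, hG⟩ := (dense_of_mem_residual h4).nonempty
  exact ⟨G, hG⟩

/-! ### Computability -/

theorem code_of_partrec (f : ℕ × ℕ →. ℕ) (hf : _root_.Partrec f) :
    ∃ c : Code, ∀ p : ℕ × ℕ, (c.eval (Nat.pair p.1 p.2)).Dom ↔ (f p).Dom := by
  obtain ⟨c, hc⟩ := Code.exists_code.1 hf
  refine ⟨c, fun p => ?_⟩
  rw [hc]
  simp

theorem code_of_partrec' (f : ℕ →. ℕ) (hf : _root_.Partrec f) :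
    ∃ c : Code, ∀ n : ℕ, (c.eval n).Dom ↔ (f n).Dom := by
  obtain ⟨c, hc⟩ := Code.exists_code.1 (_root_.Partrec.nat_iff.1 hf)
  exact ⟨c, fun n => by rw [hc]⟩

theorem re_proj (c : Code) (T : List Bool) : ∃ f : ℕ →. ℕ, _root_.Partrec f ∧
    ∀ z, (f z).Dom ↔ ∃ y, (c.eval (Nat.pair z y)).Dom ∧ (T[y]?).getD true = true := by
  let g : ℕ → ℕ → Option ℕ := fun z m =>
    bif (T[m.unpair.1]?).getD true then c.evaln m.unpair.2 (Nat.pair z m.unpair.1) else none
  have hg : Computable₂ g := by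
    have h1 : Primrec fun p : ℕ × ℕ => (T[p.2.unpair.1]?).getD true :=
      Primrec.option_getD.comp
        (Primrec.list_getElem?.comp (Primrec.const T)
          (Primrec.fst.comp (Primrec.unpair.comp Primrec.snd)))
        (Primrec.const true)
    have h2 : Primrec fun p : ℕ × ℕ => c.evaln p.2.unpair.2 (Nat.pair p.1 p.2.unpair.1) :=
      Code.primrec_evaln.comp
        ((((Primrec.snd.comp (Primrec.unpair.comp Primrec.snd))).pair (Primrec.const c)).pair
          (Primrec₂.natPair.comp Primrec.fst (Primrec.fst.comp (Primrec.unpair.comp Primrec.snd))))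
    exact (Primrec.cond h1 h2 (Primrec.const none)).to_comp
  refine ⟨fun z => Nat.rfindOpt (g z), Partrec.rfindOpt hg, fun z => ?_⟩
  rw [Nat.rfindOpt_dom]
  constructor
  · rintro ⟨m, a, ha⟩
    have ha' : (bif (T[m.unpair.1]?).getD true then
      c.evaln m.unpair.2 (Nat.pair z m.unpair.1) else none) = some a := ha
    cases hT : (T[m.unpair.1]?).getD true with
    | false => rw [hT] at ha'; simp at ha'
    | true =>
      rw [hT] at ha'
      simp only [cond_true] at ha'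
      exact ⟨m.unpair.1, Part.dom_iff_mem.2 ⟨a, Code.evaln_sound ha'⟩, hT⟩
  · rintro ⟨y, hy, hT⟩
    obtain ⟨a, ha⟩ := Part.dom_iff_mem.1 hy
    obtain ⟨k, hk⟩ := Code.evaln_complete.1 ha
    refine ⟨Nat.pair y k, a, ?_⟩
    show (bif (T[(Nat.pair y k).unpair.1]?).getD true then
      c.evaln (Nat.pair y k).unpair.2 (Nat.pair z (Nat.pair y k).unpair.1) else none) = some a
    rw [Nat.unpair_pair]
    simp only [hT, cond_true]
    exact hk

theorem re_union (f g : ℕ →. ℕ) (hf : _root_.Partrec f) (hg : _root_.Partrec g) :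
    ∃ h : ℕ →. ℕ, _root_.Partrec h ∧ ∀ n, (h n).Dom ↔ ((f n).Dom ∨ (g n).Dom) := by
  obtain ⟨h, hh, hd⟩ := _root_.Partrec.merge' hf hg
  exact ⟨h, hh, fun n => (hd n).2⟩

/-- The axioms with two elements. -/
def Wax : Set (ℕ × List ℕ) := {p | p.2 = [2 * p.1 + 1, 2 * p.1 + 2]}

theorem Wax_re : ∃ f : ℕ × List ℕ →. ℕ, _root_.Partrec f ∧ ∀ p : ℕ × List ℕ, (f p).Dom ↔ p ∈ Wax := by
  refine ⟨fun p => bif decide (p.2 = [2 * p.1 + 1, 2 * p.1 + 2]) then Part.some 0 else Part.none,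
    ?_, ?_⟩
  · apply Partrec.cond
    · apply Primrec.to_comp
      have h0 : Primrec fun p : ℕ × List ℕ => 2 * p.1 :=
        Primrec.nat_mul.comp (Primrec.const 2) Primrec.fst
      have h1 : Primrec fun p : ℕ × List ℕ => [2 * p.1 + 1, 2 * p.1 + 2] :=
        Primrec.list_cons.comp (Primrec.nat_add.comp h0 (Primrec.const 1))
          (Primrec.list_cons.comp (Primrec.nat_add.comp h0 (Primrec.const 2)) (Primrec.const []))
      have h2 : PrimrecPred fun p : ℕ × List ℕ => p.2 = [2 * p.1 + 1, 2 * p.1 + 2] :=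
        Primrec.eq.comp Primrec.snd h1
      exact h2.decide
    · exact (Computable.const 0).partrec
    · exact _root_.Partrec.none
  · intro p
    by_cases h : p.2 = [2 * p.1 + 1, 2 * p.1 + 2]
    · simp [Wax, h]
    · simp [Wax, h]

theorem main :
    ∃ A B : Set ℕ,
      (∃ W : Set (ℕ × List ℕ),
        (∃ f : ℕ × List ℕ →. ℕ, _root_.Partrec f ∧ ∀ p : ℕ × List ℕ, (f p).Dom ↔ p ∈ W) ∧
        ∀ x : ℕ, x ∈ A ↔ ∃ l : List ℕ, (x, l) ∈ W ∧ ∀ y ∈ l, y ∈ B) ∧
      (∃ W : Set (ℕ × List ℕ),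
        (∃ f : ℕ × List ℕ →. ℕ, _root_.Partrec f ∧ ∀ p : ℕ × List ℕ, (f p).Dom ↔ p ∈ W) ∧
        ∀ x : ℕ, x ∈ B ↔ ∃ l : List ℕ, (x, l) ∈ W ∧ ∀ y ∈ l, y ∈ A) ∧
      (¬ ∃ f : ℕ →. ℕ, _root_.Partrec f ∧ ∀ n : ℕ, (f n).Dom ↔ n ∈ A) ∧
      (¬ ∃ f : ℕ →. ℕ, _root_.Partrec f ∧ ∀ n : ℕ, (f n).Dom ↔ n ∈ B) ∧
      ∀ C : Set ℕ,
        (∃ W : Set (ℕ × ℕ),
          (∃ f : ℕ × ℕ →. ℕ, _root_.Partrec f ∧ ∀ p : ℕ × ℕ, (f p).Dom ↔ p ∈ W) ∧
          ∀ x : ℕ, x ∈ C ↔ ∃ y ∈ A, (x, y) ∈ W) →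
        (∃ W : Set (ℕ × ℕ),
          (∃ f : ℕ × ℕ →. ℕ, _root_.Partrec f ∧ ∀ p : ℕ × ℕ, (f p).Dom ↔ p ∈ W) ∧
          ∀ x : ℕ, x ∈ C ↔ ∃ y ∈ B, (x, y) ∈ W) →
        ∃ f : ℕ →. ℕ, _root_.Partrec f ∧ ∀ n : ℕ, (f n).Dom ↔ n ∈ C := by
  obtain ⟨G, hG1, hG2, hG3⟩ := exists_generic
  have hne : ∀ t, ¬ ∃ f : ℕ →. ℕ, _root_.Partrec f ∧ ∀ n : ℕ, (f n).Dom ↔ n ∈ {n | G.1 (n, t) = true} := by
    rintro t ⟨f, hf, hfd⟩
    obtain ⟨c, hc⟩ := code_of_partrec' f hf
    obtain ⟨n, ⟨h1, h2⟩ | ⟨h1, h2⟩⟩ := hG3 c t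
    · exact h2 ((hc n).2 ((hfd n).2 h1))
    · have h3 := (hfd n).1 ((hc n).1 h2)
      have h4 : G.1 (n, t) = true := h3
      rw [h1] at h4
      exact absurd h4 (by simp)
  have hred : ∀ t x, x ∈ {n | G.1 (n, t) = true} ↔
      ∃ l : List ℕ, (x, l) ∈ Wax ∧ ∀ y ∈ l, y ∈ {n | G.1 (n, !t) = true} := by
    intro t x
    constructor
    · intro h
      have h1 := (G.2.1 x t).1 h
      refine ⟨[2 * x + 1, 2 * x + 2], rfl, ?_⟩
      intro y hy
      simp only [List.mem_cons, List.not_mem_nil, or_false] at hy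
      rcases hy with rfl | rfl
      · exact h1.1
      · exact h1.2
    · rintro ⟨l, hl, h⟩
      have hl' : l = [2 * x + 1, 2 * x + 2] := hl
      subst hl'
      exact (G.2.1 x t).2 ⟨h (2 * x + 1) (by simp), h (2 * x + 2) (by simp)⟩
  refine ⟨{n | G.1 (n, true) = true}, {n | G.1 (n, false) = true}, ⟨Wax, Wax_re, hred true⟩,
    ⟨Wax, Wax_re, hred false⟩, hne true, hne false, ?_⟩
  rintro C ⟨W1, ⟨f1, hf1, hW1⟩, hC1⟩ ⟨W2, ⟨f2, hf2, hW2⟩, hC2⟩
  obtain ⟨c1, hc1⟩ := code_of_partrec f1 hf1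
  obtain ⟨c2, hc2⟩ := code_of_partrec f2 hf2
  have e1 : ∀ z y, (z, y) ∈ Wc c1 ↔ (z, y) ∈ W1 := fun z y => (hc1 (z, y)).trans (hW1 (z, y))
  have e2 : ∀ z y, (z, y) ∈ Wc c2 ↔ (z, y) ∈ W2 := fun z y => (hc2 (z, y)).trans (hW2 (z, y))
  have hC : ∀ t z, z ∈ C ↔ G ∈ P (pairW (c1, c2)) t z := by
    intro t z
    cases t with
    | true =>
      rw [hC1]
      constructor
      · rintro ⟨y, hy1, hy2⟩
        exact ⟨y, (e1 z y).2 hy2, hy1⟩
      · rintro ⟨y, hy1, hy2⟩
        exact ⟨y, hy2, (e1 z y).1 hy1⟩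
    | false =>
      rw [hC2]
      constructor
      · rintro ⟨y, hy1, hy2⟩
        exact ⟨y, (e2 z y).2 hy2, hy1⟩
      · rintro ⟨y, hy1, hy2⟩
        exact ⟨y, hy2, (e2 z y).1 hy1⟩
  have hnotGG : G ∉ GG (pairW (c1, c2)) := by
    intro h
    obtain ⟨z, h⟩ := mem_iUnion.1 h
    obtain ⟨t, h1, h2⟩ := mem_iUnion.1 h
    exact interior_subset h2 ((hC (!t) z).1 ((hC t z).2 h1))
  obtain ⟨k, hk⟩ := core G (pairW (c1, c2)) ((hG1 (c1, c2)).resolve_left hnotGG)
    (hG2 (c1, c2)) C hC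
  have hT : ∀ t y, (((List.range (2 * k + 1)).map fun y => G.1 (y, t))[y]?).getD true = true ↔
      (y < 2 * k + 1 → G.1 (y, t) = true) := by
    intro t y
    by_cases hy : y < 2 * k + 1
    · simp [hy, List.getElem?_range]
    · have h1 : ((List.range (2 * k + 1)).map fun y => G.1 (y, t))[y]? = Option.none := by
        apply List.getElem?_eq_none
        simp
        omega
      rw [h1]
      simp [hy]
  obtain ⟨g1, hg1, hg1d⟩ := re_proj c1 ((List.range (2 * k + 1)).map fun y => G.1 (y, true))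
  obtain ⟨g2, hg2, hg2d⟩ := re_proj c2 ((List.range (2 * k + 1)).map fun y => G.1 (y, false))
  obtain ⟨g, hg, hgd⟩ := re_union g1 g2 hg1 hg2
  refine ⟨g, hg, fun z => ?_⟩
  rw [hgd, hg1d, hg2d, hk z]
  apply or_congr
  · apply exists_congr
    intro y
    rw [hT]
    rfl
  · apply exists_congr
    intro y
    rw [hT]
    rfl

end Pool.Agent.Helper800.SDeg
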